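import Mathlib

/-!
# Long compositions: definitions

A compact family of entire functions for which `∞` is uniformly attracting, random translations,
the trajectories of the random composition and the moments of its derivative.
-/

set_option autoImplicit false

open MeasureTheory Set Filter Topology
open scoped ENNReal

noncomputable section

namespace Pool.Agent.TH270.LC

/-- A family of entire functions for which `∞` is uniformly attracting, even after a translation
by at most `eps`. -/
structure Fam (E : Type) [TopologicalSpace E] where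
  f : E → ℂ → ℂ
  cf : Continuous fun p : E × ℂ => f p.1 p.2
  df : ∀ a, Differentiable ℂ (f a)
  cd : Continuous fun p : E × ℂ => deriv (f p.1) p.2
  eps : ℝ
  heps : 0 < eps
  /-- escape radius -/
  R : ℝ
  hR : 1 ≤ R
  esc : ∀ a z, R ≤ ‖z‖ → 2 * ‖z‖ + eps ≤ ‖f a z‖

/-- The shift of a sequence. -/
def sh {α : Type} (e : ℕ → α) : ℕ → α := fun k => e (k + 1)

variable {E : Type} [TopologicalSpace E]

/-- The trajectory of `x` under the maps `f (e k) + u k`. -/
def pos (F : Fam E) (e : ℕ → E) (u : ℕ → ℂ) (x : ℂ) : ℕ → ℂ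
  | 0 => x
  | k + 1 => F.f (e k) (pos F e u x k) + u k

theorem pos_zero (F : Fam E) (e : ℕ → E) (u : ℕ → ℂ) (x : ℂ) : pos F e u x 0 = x := rfl

theorem pos_succ (F : Fam E) (e : ℕ → E) (u : ℕ → ℂ) (x : ℂ) (k : ℕ) :
    pos F e u x (k + 1) = F.f (e k) (pos F e u x k) + u k := rfl

theorem pos_succ' (F : Fam E) (e : ℕ → E) (u : ℕ → ℂ) (x : ℂ) (k : ℕ) :
    pos F e u x (k + 1) = pos F (sh e) (sh u) (F.f (e 0) x + u 0) k := by
  induction k with
  | zero => rfl
  | succ k ih => rw [pos_succ, ih, pos_succ]; rfl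

/-- All trajectories of `x` stay in the disc of radius `r` up to time `n`. -/
def AllAlive (F : Fam E) (r : ℝ) (n : ℕ) (e : ℕ → E) (x : ℂ) : Prop :=
  ∀ u : ℕ → ℂ, (∀ k, ‖u k‖ ≤ F.eps) → ∀ k ≤ n, ‖pos F e u x k‖ ≤ r

/-- Uniform distribution on the closed disc of radius `ε`. -/
def nu (ε : ℝ) : Measure ℂ :=
  (volume (Metric.closedBall (0 : ℂ) ε))⁻¹ • volume.restrict (Metric.closedBall (0 : ℂ) ε)

/-- The indicator of the closed disc of radius `r`. -/
def ind (r : ℝ) : ℂ → ℝ≥0∞ := (Metric.closedBall (0 : ℂ) r).indicator 1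

/-- The moments of the derivative of the random composition, as long as the orbit is alive. -/
def Psi (F : Fam E) (χ : ℂ → ℝ≥0∞) (s w : ℝ) : ℕ → (ℕ → E) → ℂ → ℝ≥0∞
  | 0, _, x => χ x
  | n + 1, e, x => χ x * ENNReal.ofReal (‖deriv (F.f (e 0)) x‖ + w) ^ s *
      ∫⁻ u, Psi F χ s w n (sh e) (F.f (e 0) x + u) ∂(nu F.eps)

/-- The product of the uniform distributions. -/
def nuPi (ε : ℝ) (n : ℕ) : Measure (Fin n → ℂ) := Measure.pi fun _ => nu ε

/-- Extension of a finite sequence by zero. -/
def ext {n : ℕ} (u : Fin n → ℂ) : ℕ → ℂ := fun k => if h : k < n then u ⟨k, h⟩ else 0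

end Pool.Agent.TH270.LC
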