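import Mathlib
import Pool.Agent.TH270.LC.Defs

set_option autoImplicit false

open MeasureTheory Set Filter Topology
open scoped ENNReal

noncomputable section

namespace Pool.Agent.TH270.LC

/-- The radius of the disc carried along the trajectory of `x`. -/
def rad {E : Type} [TopologicalSpace E] (F : Fam E) (w : ℝ) (e : ℕ → E) (u : ℕ → ℂ) (x : ℂ) (ρ : ℝ)
    (k : ℕ) : ℝ :=
  ρ * ∏ j ∈ Finset.range k, (‖deriv (F.f (e j)) (pos F e u x j)‖ + w)

/-- The disc of radius `ρ` about `x` is not contracted well. -/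
def BadEv {E : Type} [TopologicalSpace E] (F : Fam E) (w ρ₀ τ : ℝ) (e : ℕ → E) (u : ℕ → ℂ) (x : ℂ)
    (ρ : ℝ) (n : ℕ) : Prop :=
  (∃ k ≤ n, ‖pos F e u x k‖ ≤ F.R + 1 ∧ ρ₀ < rad F w e u x ρ k) ∨
    (‖pos F e u x n‖ ≤ F.R + 1 ∧ τ < rad F w e u x ρ n)

end Pool.Agent.TH270.LC
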