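import Mathlib
import Pool.Agent.TH270.LC.Defs

set_option autoImplicit false

open MeasureTheory Set Filter Topology
open scoped ENNReal

noncomputable section

namespace Pool.Agent.TH270.LC

variable {E : Type} [TopologicalSpace E] (F : Fam E)

theorem vol_ball_pos {ε : ℝ} (hε : 0 < ε) : volume (Metric.closedBall (0 : ℂ) ε) ≠ 0 :=
  (Metric.measure_closedBall_pos volume (0 : ℂ) hε).ne'

theorem vol_ball_top {ε : ℝ} : volume (Metric.closedBall (0 : ℂ) ε) ≠ ∞ :=
  (isCompact_closedBall (0 : ℂ) ε).measure_lt_top.ne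

theorem nu_prob {ε : ℝ} (hε : 0 < ε) : IsProbabilityMeasure (nu ε) := by
  constructor
  rw [nu, Measure.smul_apply, Measure.restrict_apply_univ, smul_eq_mul]
  exact ENNReal.inv_mul_cancel (vol_ball_pos hε) vol_ball_top

theorem nu_ae {ε : ℝ} : ∀ᵐ u ∂(nu ε), ‖u‖ ≤ ε := by
  rw [nu]
  refine Measure.ae_smul_measure ?_ _
  refine (ae_restrict_mem Metric.isClosed_closedBall.measurableSet).mono fun u hu => ?_
  simpa using hu

theorem nu_ae_lt {ε : ℝ} (_hε : 0 < ε) : ∀ᵐ u ∂(nu ε), ‖u‖ < ε := by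
  have h1 : ∀ᵐ u ∂(volume : Measure ℂ), u ∉ Metric.sphere (0 : ℂ) ε := by
    rw [ae_iff]
    have : {a : ℂ | ¬ a ∉ Metric.sphere (0 : ℂ) ε} = Metric.sphere (0 : ℂ) ε := by
      ext a; simp
    rw [this]
    exact Measure.addHaar_sphere (volume : Measure ℂ) (0 : ℂ) ε
  have h2 : ∀ᵐ u ∂(nu ε), u ∉ Metric.sphere (0 : ℂ) ε := by
    rw [nu]
    exact Measure.ae_smul_measure (ae_restrict_of_ae h1) _
  filter_upwards [h2, nu_ae (ε := ε)] with u hu hu'
  refine lt_of_le_of_ne hu' fun h => hu (by simpa using h)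

/-- A property which holds almost everywhere holds densely in the disc. -/
theorem nu_dense {ε : ℝ} (hε : 0 < ε) {P : ℂ → Prop} (h : ∀ᵐ u ∂(nu ε), P u) {u : ℂ}
    (hu : ‖u‖ ≤ ε) : u ∈ closure {v | P v} := by
  by_contra hc
  have hopen : IsOpen (closure {v | P v})ᶜ := isClosed_closure.isOpen_compl
  have hu2 : u ∈ closure (Metric.ball (0 : ℂ) ε) := by
    rw [closure_ball _ hε.ne']; simpa using hu
  obtain ⟨w, hw1, hw2⟩ := mem_closure_iff.1 hu2 _ hopen hc
  have hop : IsOpen ((closure {v | P v})ᶜ ∩ Metric.ball (0 : ℂ) ε) := hopen.inter Metric.isOpen_ball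
  have hpos : 0 < volume ((closure {v | P v})ᶜ ∩ Metric.ball (0 : ℂ) ε) :=
    hop.measure_pos volume ⟨w, hw1, hw2⟩
  have hnull : nu ε ((closure {v | P v})ᶜ ∩ Metric.ball (0 : ℂ) ε) = 0 := by
    refine measure_mono_null ?_ (ae_iff.1 h)
    intro v hv hP
    exact hv.1 (subset_closure hP)
  rw [nu, Measure.smul_apply, smul_eq_mul, mul_eq_zero] at hnull
  rcases hnull with h0 | h0
  · exact (ENNReal.inv_ne_zero.2 vol_ball_top) h0
  · rw [Measure.restrict_apply hop.measurableSet] at h0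
    rw [inter_assoc, inter_eq_left.2 Metric.ball_subset_closedBall] at h0
    exact hpos.ne' h0

theorem cont_pos (e : ℕ → E) (u : ℕ → ℂ) (k : ℕ) : Continuous fun x => pos F e u x k := by
  induction k with
  | zero => exact continuous_id
  | succ k ih =>
    have : (fun x => pos F e u x (k + 1)) = fun x => F.f (e k) (pos F e u x k) + u k := rfl
    rw [this]
    exact ((F.df (e k)).continuous.comp ih).add continuous_const

theorem alive_closed (r : ℝ) (n : ℕ) (e : ℕ → E) : IsClosed {x | AllAlive F r n e x} := by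
  have : {x | AllAlive F r n e x} = ⋂ u : ℕ → ℂ, ⋂ _ : (∀ k, ‖u k‖ ≤ F.eps), ⋂ k : ℕ,
      ⋂ _ : k ≤ n, {x | ‖pos F e u x k‖ ≤ r} := by
    ext x; simp [AllAlive]
  rw [this]
  exact isClosed_iInter fun u => isClosed_iInter fun _ => isClosed_iInter fun k =>
    isClosed_iInter fun _ => isClosed_le (cont_pos F e u k).norm continuous_const

/-- Prepend an element to a sequence. -/
def cns (a : ℂ) (u : ℕ → ℂ) : ℕ → ℂ := fun k => Nat.casesOn k a u

theorem sh_cns (a : ℂ) (u : ℕ → ℂ) : sh (cns a u) = u := rfl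

theorem cns_zero (a : ℂ) (u : ℕ → ℂ) : cns a u 0 = a := rfl

theorem cns_le {ε : ℝ} {a : ℂ} {u : ℕ → ℂ} (ha : ‖a‖ ≤ ε) (hu : ∀ k, ‖u k‖ ≤ ε) (k : ℕ) :
    ‖cns a u k‖ ≤ ε := by
  cases k with
  | zero => exact ha
  | succ k => exact hu k

theorem pos_cns (e : ℕ → E) (a : ℂ) (u : ℕ → ℂ) (x : ℂ) (k : ℕ) :
    pos F e (cns a u) x (k + 1) = pos F (sh e) u (F.f (e 0) x + a) k := by
  rw [pos_succ', sh_cns, cns_zero]

theorem alive_succ {r : ℝ} {n : ℕ} {e : ℕ → E} {x : ℂ} :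
    AllAlive F r (n + 1) e x ↔ ‖x‖ ≤ r ∧ ∀ a : ℂ, ‖a‖ ≤ F.eps →
      AllAlive F r n (sh e) (F.f (e 0) x + a) := by
  constructor
  · intro h
    refine ⟨h (fun _ => 0) (fun k => by simpa using F.heps.le) 0 (Nat.zero_le _), ?_⟩
    intro a ha u hu k hk
    have := h (cns a u) (cns_le ha hu) (k + 1) (by omega)
    rwa [pos_cns] at this
  · rintro ⟨h0, h1⟩ u hu k hk
    cases k with
    | zero => exact h0
    | succ k =>
      rw [pos_succ']
      exact h1 (u 0) (hu 0) (sh u) (fun j => hu (j + 1)) k (by omega)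

theorem Psi_zero (χ : ℂ → ℝ≥0∞) (s w : ℝ) (e : ℕ → E) (x : ℂ) : Psi F χ s w 0 e x = χ x := rfl

theorem Psi_succ (χ : ℂ → ℝ≥0∞) (s w : ℝ) (n : ℕ) (e : ℕ → E) (x : ℂ) :
    Psi F χ s w (n + 1) e x = χ x * ENNReal.ofReal (‖deriv (F.f (e 0)) x‖ + w) ^ s *
      ∫⁻ u, Psi F χ s w n (sh e) (F.f (e 0) x + u) ∂(nu F.eps) := rfl

theorem Psi_meas {χ : ℂ → ℝ≥0∞} (hχ : Measurable χ) (s w : ℝ) (n : ℕ) (e : ℕ → E) :
    Measurable (Psi F χ s w n e) := by
  have := nu_prob F.heps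
  induction n generalizing e with
  | zero => exact hχ
  | succ n ih =>
    have h1 : Psi F χ s w (n + 1) e = fun x => χ x *
        ENNReal.ofReal (‖deriv (F.f (e 0)) x‖ + w) ^ s *
        ∫⁻ u, Psi F χ s w n (sh e) (F.f (e 0) x + u) ∂(nu F.eps) := rfl
    rw [h1]
    have hd : Measurable fun x => deriv (F.f (e 0)) x :=
      (F.cd.comp (Continuous.prodMk_right (e 0))).measurable
    have hf : Measurable fun x => F.f (e 0) x := (F.df (e 0)).continuous.measurable
    refine (hχ.mul ((hd.norm.add_const w).ennreal_ofReal.pow_const s)).mul ?_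
    refine Measurable.lintegral_prod_right' (f := fun p : ℂ × ℂ =>
      Psi F χ s w n (sh e) (F.f (e 0) p.1 + p.2)) ?_
    exact (ih (sh e)).comp ((hf.comp measurable_fst).add measurable_snd)

theorem Psi_le_chi {χ : ℂ → ℝ≥0∞} (s w : ℝ) (n : ℕ) (e : ℕ → E) (x : ℂ) (h : χ x = 0) :
    Psi F χ s w n e x = 0 := by
  cases n with
  | zero => exact h
  | succ n => rw [Psi_succ, h]; simp

/-- With the exponent `0` the moment is the probability of being alive. -/
theorem Psi0_le_one {χ : ℂ → ℝ≥0∞} (hχ : ∀ x, χ x ≤ 1) (w : ℝ) (n : ℕ) (e : ℕ → E) (x : ℂ) :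
    Psi F χ 0 w n e x ≤ 1 := by
  have := nu_prob F.heps
  induction n generalizing e x with
  | zero => exact hχ x
  | succ n ih =>
    rw [Psi_succ, ENNReal.rpow_zero, mul_one]
    calc χ x * ∫⁻ u, Psi F χ 0 w n (sh e) (F.f (e 0) x + u) ∂(nu F.eps)
        ≤ 1 * ∫⁻ _, 1 ∂(nu F.eps) := by
          gcongr
          · exact hχ x
          · exact ih _ _
      _ = 1 := by simp

theorem ind_le_one (r : ℝ) (x : ℂ) : ind r x ≤ 1 := by
  by_cases h : x ∈ Metric.closedBall (0 : ℂ) r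
  · rw [ind, indicator_of_mem h]; exact le_rfl
  · rw [ind, indicator_of_notMem h]; exact bot_le

theorem ind_of_le {r : ℝ} {x : ℂ} (h : ‖x‖ ≤ r) : ind r x = 1 := by
  rw [ind, indicator_of_mem (by simpa using h)]; rfl

theorem ind_of_lt {r : ℝ} {x : ℂ} (h : r < ‖x‖) : ind r x = 0 := by
  rw [ind, indicator_of_notMem (by simpa using h)]

theorem ind_meas (r : ℝ) : Measurable (ind r) :=
  measurable_one.indicator Metric.isClosed_closedBall.measurableSet

theorem allAlive_of_Psi0 {r w : ℝ} {n : ℕ} {e : ℕ → E} {x : ℂ}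
    (h : 1 ≤ Psi F (ind r) 0 w n e x) : AllAlive F r n e x := by
  have := nu_prob F.heps
  induction n generalizing e x with
  | zero =>
    intro u _ k hk
    obtain rfl : k = 0 := by omega
    by_contra hc
    push Not at hc
    rw [pos_zero] at hc
    rw [Psi_zero, ind_of_lt hc] at h
    simp at h
  | succ n ih =>
    rw [Psi_succ, ENNReal.rpow_zero, mul_one] at h
    have hx : ‖x‖ ≤ r := by
      by_contra hc
      push Not at hc
      rw [ind_of_lt hc] at h
      simp at h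
    rw [ind_of_le hx, one_mul] at h
    rw [alive_succ]
    refine ⟨hx, ?_⟩
    have hle : ∀ u, Psi F (ind r) 0 w n (sh e) (F.f (e 0) x + u) ≤ 1 :=
      fun u => Psi0_le_one F (ind_le_one r) w n _ _
    have hae : (fun u => Psi F (ind r) 0 w n (sh e) (F.f (e 0) x + u)) =ᵐ[nu F.eps]
        fun _ => (1 : ℝ≥0∞) := by
      refine ae_eq_of_ae_le_of_lintegral_le (Eventually.of_forall hle) ?_ aemeasurable_const ?_
      · refine ne_top_of_le_ne_top ENNReal.one_ne_top ?_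
        calc ∫⁻ u, Psi F (ind r) 0 w n (sh e) (F.f (e 0) x + u) ∂(nu F.eps)
            ≤ ∫⁻ _, 1 ∂(nu F.eps) := lintegral_mono hle
          _ = 1 := by simp
      · simpa using h
    have hP : ∀ᵐ u ∂(nu F.eps), AllAlive F r n (sh e) (F.f (e 0) x + u) := by
      filter_upwards [hae] with u hu
      exact ih (le_of_eq hu.symm)
    intro a ha
    have hcl : IsClosed {a | AllAlive F r n (sh e) (F.f (e 0) x + a)} :=
      (alive_closed F r n (sh e)).preimage (continuous_const.add continuous_id)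
    have := nu_dense F.heps hP ha
    rwa [hcl.closure_eq] at this

/-- Moments against the probability of being alive. -/
theorem Psi_le_mul {r Λ w s : ℝ} (hs : 0 ≤ s)
    (hΛ : ∀ a z, ‖z‖ ≤ r → ‖deriv (F.f a) z‖ + w ≤ Λ) (n : ℕ) (e : ℕ → E) (x : ℂ) :
    Psi F (ind r) s w n e x ≤ (ENNReal.ofReal Λ ^ s) ^ n * Psi F (ind r) 0 w n e x := by
  induction n generalizing e x with
  | zero => simp [Psi_zero]
  | succ n ih =>
    by_cases hx : ‖x‖ ≤ r
    · rw [Psi_succ, Psi_succ, ENNReal.rpow_zero, mul_one]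
      calc ind r x * ENNReal.ofReal (‖deriv (F.f (e 0)) x‖ + w) ^ s *
            ∫⁻ u, Psi F (ind r) s w n (sh e) (F.f (e 0) x + u) ∂(nu F.eps)
          ≤ ind r x * ENNReal.ofReal Λ ^ s *
            ∫⁻ u, (ENNReal.ofReal Λ ^ s) ^ n *
              Psi F (ind r) 0 w n (sh e) (F.f (e 0) x + u) ∂(nu F.eps) := by
            gcongr with u
            · exact hΛ _ _ hx
            · exact ih _ _
        _ = ind r x * ENNReal.ofReal Λ ^ s * ((ENNReal.ofReal Λ ^ s) ^ n *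
            ∫⁻ u, Psi F (ind r) 0 w n (sh e) (F.f (e 0) x + u) ∂(nu F.eps)) := by
            rw [lintegral_const_mul]
            exact (Psi_meas F (ind_meas r) 0 w n (sh e)).comp (measurable_const.add measurable_id)
        _ = _ := by ring
    · push Not at hx
      rw [Psi_le_chi F _ _ _ _ _ (ind_of_lt hx)]
      exact bot_le

/-- A bound for the product of the derivatives along all paths gives a bound for the moment. -/
theorem mom_of_path {χ : ℂ → ℝ≥0∞} (hχ : ∀ x, χ x ≤ 1) {r : ℝ} (hr : 0 < r) (n : ℕ) (e : ℕ → E)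
    (x : ℂ) (c : ℝ)
    (h : ∀ u : ℕ → ℂ, (∀ k, ‖u k‖ ≤ F.eps) →
      ∏ k ∈ Finset.range n, ((1 + (F.eps - ‖u k‖) / (2 * r)) * ‖deriv (F.f (e k)) (pos F e u x k)‖)
        ≤ c) :
    Psi F χ (1 / 2) 0 n e x ≤
      (∫⁻ u, (ENNReal.ofReal (1 + (F.eps - ‖u‖) / (2 * r))) ^ (-(1/2) : ℝ) ∂(nu F.eps)) ^ n *
        ENNReal.ofReal c ^ (1 / 2 : ℝ) := by
  have := nu_prob F.heps
  set θ := ∫⁻ u, (ENNReal.ofReal (1 + (F.eps - ‖u‖) / (2 * r))) ^ (-(1/2) : ℝ) ∂(nu F.eps) with hθ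
  induction n generalizing e x c with
  | zero =>
    have h1 : (1 : ℝ) ≤ c := by simpa using h (fun _ => 0) (fun k => by simpa using F.heps.le)
    rw [Psi_zero, pow_zero, one_mul]
    calc χ x ≤ 1 := hχ x
      _ ≤ ENNReal.ofReal c ^ (1 / 2 : ℝ) := by
        refine ENNReal.one_le_rpow ?_ (by norm_num)
        rw [← ENNReal.ofReal_one]; exact ENNReal.ofReal_le_ofReal h1
  | succ n ih =>
    rw [Psi_succ]
    set D := ‖deriv (F.f (e 0)) x‖ with hD
    have hD0 : 0 ≤ D := norm_nonneg _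
    rcases eq_or_lt_of_le hD0 with hD1 | hD1
    · rw [← hD1]
      simp
    · have key : ∀ a : ℂ, ‖a‖ ≤ F.eps → Psi F χ (1 / 2) 0 n (sh e) (F.f (e 0) x + a) ≤
          θ ^ n * (ENNReal.ofReal c ^ (1 / 2 : ℝ) * ENNReal.ofReal D ^ (-(1/2) : ℝ)) *
            (ENNReal.ofReal (1 + (F.eps - ‖a‖) / (2 * r))) ^ (-(1/2) : ℝ) := by
        intro a ha
        have hη : 0 < 1 + (F.eps - ‖a‖) / (2 * r) := by
          have : 0 ≤ (F.eps - ‖a‖) / (2 * r) := div_nonneg (by linarith) (by linarith)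
          linarith
        have h1 := ih (sh e) (F.f (e 0) x + a) (c / ((1 + (F.eps - ‖a‖) / (2 * r)) * D)) (by
          intro u hu
          have h2 := h (cns a u) (cns_le ha hu)
          rw [Finset.prod_range_succ'] at h2
          rw [le_div_iff₀ (mul_pos hη hD1)]
          refine le_trans (le_of_eq ?_) h2
          congr 1
          refine Finset.prod_congr rfl fun k _ => ?_
          rw [pos_cns]; rfl)
        refine h1.trans (le_of_eq ?_)
        have hc0 : 0 ≤ c := by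
          refine le_trans (Finset.prod_nonneg fun k _ => ?_)
            (h (fun _ => 0) (fun k => by simpa using F.heps.le))
          refine mul_nonneg ?_ (norm_nonneg _)
          simp only [norm_zero, sub_zero]
          have := F.heps
          positivity
        rw [ENNReal.ofReal_div_of_pos (mul_pos hη hD1), ENNReal.ofReal_mul hη.le,
          ENNReal.div_eq_inv_mul, ENNReal.mul_rpow_of_nonneg _ _ (by norm_num : (0:ℝ) ≤ 1/2),
          ← ENNReal.rpow_neg_one, ← ENNReal.rpow_mul,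
          ENNReal.mul_rpow_of_ne_top ENNReal.ofReal_ne_top ENNReal.ofReal_ne_top]
        rw [show (-1 : ℝ) * (1 / 2) = -(1/2) by norm_num]
        ring
      have hint : ∫⁻ u, Psi F χ (1 / 2) 0 n (sh e) (F.f (e 0) x + u) ∂(nu F.eps) ≤
          θ ^ n * (ENNReal.ofReal c ^ (1 / 2 : ℝ) * ENNReal.ofReal D ^ (-(1/2) : ℝ)) * θ := by
        calc ∫⁻ u, Psi F χ (1 / 2) 0 n (sh e) (F.f (e 0) x + u) ∂(nu F.eps)
            ≤ ∫⁻ u, θ ^ n * (ENNReal.ofReal c ^ (1 / 2 : ℝ) * ENNReal.ofReal D ^ (-(1/2) : ℝ)) *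
                (ENNReal.ofReal (1 + (F.eps - ‖u‖) / (2 * r))) ^ (-(1/2) : ℝ) ∂(nu F.eps) :=
              lintegral_mono_ae (by filter_upwards [nu_ae (ε := F.eps)] with u hu using key u hu)
          _ = _ := by
              rw [lintegral_const_mul]
              exact ((measurable_const.add ((measurable_const.sub measurable_norm).div_const _)
                ).ennreal_ofReal).pow_const _
      calc χ x * ENNReal.ofReal (D + 0) ^ (1 / 2 : ℝ) *
            ∫⁻ u, Psi F χ (1 / 2) 0 n (sh e) (F.f (e 0) x + u) ∂(nu F.eps)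
          ≤ 1 * ENNReal.ofReal D ^ (1 / 2 : ℝ) * (θ ^ n * (ENNReal.ofReal c ^ (1 / 2 : ℝ) *
            ENNReal.ofReal D ^ (-(1/2) : ℝ)) * θ) := by
            rw [add_zero]
            gcongr
            exact hχ x
        _ = θ ^ (n + 1) * ENNReal.ofReal c ^ (1 / 2 : ℝ) *
            (ENNReal.ofReal D ^ (1 / 2 : ℝ) * ENNReal.ofReal D ^ (-(1/2) : ℝ)) := by ring
        _ = _ := by
            rw [← ENNReal.rpow_add _ _ (by simpa using hD1) ENNReal.ofReal_ne_top]
            norm_num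

/-- Pointwise claim: for every environment and every starting point some moment of the `N + 1`
step derivative is smaller than one. -/
theorem pointwise {r Λ : ℝ} (hr : 0 < r) (hΛ1 : 1 ≤ Λ)
    (hΛ : ∀ a z, ‖z‖ ≤ r → ‖deriv (F.f a) z‖ ≤ Λ) (N : ℕ)
    (path : ∀ (e : ℕ → E) (z : ℂ) (t : ℝ), 0 < t →
      (∀ z' ∈ Metric.closedBall z t, AllAlive F r N e z') →
      ∀ u : ℕ → ℂ, (∀ k, ‖u k‖ ≤ F.eps) →
      t * ∏ k ∈ Finset.range N,
        ((1 + (F.eps - ‖u k‖) / (2 * r)) * ‖deriv (F.f (e k)) (pos F e u z k)‖) ≤ r)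
    (hN : ENNReal.ofReal Λ ^ (1 / 2 : ℝ) *
      ((∫⁻ u, (ENNReal.ofReal (1 + (F.eps - ‖u‖) / (2 * r))) ^ (-(1/2) : ℝ) ∂(nu F.eps)) ^ N *
        (ENNReal.ofReal r ^ (1 / 2 : ℝ) *
          ∫⁻ u, (ENNReal.ofReal (F.eps - ‖u‖)) ^ (-(1/2) : ℝ) ∂(nu F.eps))) < 1)
    (e : ℕ → E) (x : ℂ) :
    ∃ s : ℝ, 0 < s ∧ s ≤ 1 / 2 ∧ Psi F (ind r) s 0 (N + 1) e x < 1 := by
  have := nu_prob F.heps
  by_cases hx : ‖x‖ ≤ r
  swap
  · push Not at hx
    refine ⟨1 / 2, by norm_num, le_rfl, ?_⟩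
    rw [Psi_le_chi F _ _ _ _ _ (ind_of_lt hx)]
    exact one_pos
  by_cases h1 : Psi F (ind r) 0 0 (N + 1) e x < 1
  · -- the orbit escapes with positive probability
    set q := Psi F (ind r) 0 0 (N + 1) e x with hq
    have hΛ' : ∀ a z, ‖z‖ ≤ r → ‖deriv (F.f a) z‖ + 0 ≤ Λ := fun a z hz => by
      rw [add_zero]; exact hΛ a z hz
    have hcont : Tendsto (fun s : ℝ => ENNReal.ofReal ((Λ ^ s) ^ (N + 1)) * q) (𝓝 0)
        (𝓝 (ENNReal.ofReal ((Λ ^ (0:ℝ)) ^ (N + 1)) * q)) := by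
      refine ENNReal.Tendsto.mul_const ?_ (Or.inr h1.ne_top)
      refine ENNReal.tendsto_ofReal ?_
      refine Tendsto.pow ?_ _
      exact (Real.continuous_const_rpow (by linarith : Λ ≠ 0)).tendsto 0
    rw [Real.rpow_zero, one_pow, ENNReal.ofReal_one, one_mul] at hcont
    have h2 : ∀ᶠ s : ℝ in 𝓝 0, ENNReal.ofReal ((Λ ^ s) ^ (N + 1)) * q < 1 :=
      hcont.eventually (gt_mem_nhds h1)
    obtain ⟨δ, hδ, h3⟩ := Metric.eventually_nhds_iff.1 h2
    refine ⟨min (δ / 2) (1 / 2), by positivity, min_le_right _ _, ?_⟩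
    have h4 : 0 < min (δ / 2) (1 / 2) := by positivity
    refine lt_of_le_of_lt (Psi_le_mul F h4.le hΛ' (N + 1) e x) ?_
    have h5 := h3 (y := min (δ / 2) (1 / 2)) (by
      rw [Real.dist_eq, sub_zero, abs_of_pos h4]
      exact lt_of_le_of_lt (min_le_left _ _) (by linarith))
    refine lt_of_eq_of_lt ?_ h5
    rw [ENNReal.ofReal_pow (by positivity), ENNReal.ofReal_rpow_of_pos (by linarith)]
  · push Not at h1
    have hall := allAlive_of_Psi0 F h1
    rw [alive_succ] at hall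
    refine ⟨1 / 2, by norm_num, le_rfl, ?_⟩
    set θ := ∫⁻ u, (ENNReal.ofReal (1 + (F.eps - ‖u‖) / (2 * r))) ^ (-(1/2) : ℝ) ∂(nu F.eps)
    have key : ∀ a : ℂ, ‖a‖ < F.eps → Psi F (ind r) (1 / 2) 0 N (sh e) (F.f (e 0) x + a) ≤
        θ ^ N * ENNReal.ofReal r ^ (1 / 2 : ℝ) *
          (ENNReal.ofReal (F.eps - ‖a‖)) ^ (-(1/2) : ℝ) := by
      intro a ha
      have ht : 0 < F.eps - ‖a‖ := by linarith
      have hp := path (sh e) (F.f (e 0) x + a) (F.eps - ‖a‖) ht (by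
        intro z' hz'
        have h3 : z' = F.f (e 0) x + (z' - F.f (e 0) x) := by ring
        rw [h3]
        refine hall.2 _ ?_
        rw [Metric.mem_closedBall, dist_eq_norm] at hz'
        calc ‖z' - F.f (e 0) x‖ = ‖(z' - (F.f (e 0) x + a)) + a‖ := by ring_nf
          _ ≤ ‖z' - (F.f (e 0) x + a)‖ + ‖a‖ := norm_add_le _ _
          _ ≤ F.eps := by linarith)
      have h4 := mom_of_path F (ind_le_one r) hr N (sh e) (F.f (e 0) x + a) (r / (F.eps - ‖a‖))
        (fun u hu => by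
          rw [le_div_iff₀ ht, mul_comm]
          exact hp u hu)
      refine h4.trans (le_of_eq ?_)
      rw [ENNReal.ofReal_div_of_pos ht, ENNReal.div_eq_inv_mul,
        ENNReal.mul_rpow_of_nonneg _ _ (by norm_num : (0:ℝ) ≤ 1/2), ← ENNReal.rpow_neg_one,
        ← ENNReal.rpow_mul, show (-1 : ℝ) * (1 / 2) = -(1/2) by norm_num]
      ring
    rw [Psi_succ]
    have hint : ∫⁻ u, Psi F (ind r) (1 / 2) 0 N (sh e) (F.f (e 0) x + u) ∂(nu F.eps) ≤
        θ ^ N * ENNReal.ofReal r ^ (1 / 2 : ℝ) *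
          ∫⁻ u, (ENNReal.ofReal (F.eps - ‖u‖)) ^ (-(1/2) : ℝ) ∂(nu F.eps) := by
      rw [← lintegral_const_mul]
      · exact lintegral_mono_ae (by filter_upwards [nu_ae_lt F.heps] with u hu using key u hu)
      · exact ((measurable_const.sub measurable_norm).ennreal_ofReal).pow_const _
    refine lt_of_le_of_lt ?_ hN
    calc ind r x * ENNReal.ofReal (‖deriv (F.f (e 0)) x‖ + 0) ^ (1 / 2 : ℝ) *
          ∫⁻ u, Psi F (ind r) (1 / 2) 0 N (sh e) (F.f (e 0) x + u) ∂(nu F.eps)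
        ≤ 1 * ENNReal.ofReal Λ ^ (1 / 2 : ℝ) * (θ ^ N * ENNReal.ofReal r ^ (1 / 2 : ℝ) *
          ∫⁻ u, (ENNReal.ofReal (F.eps - ‖u‖)) ^ (-(1/2) : ℝ) ∂(nu F.eps)) := by
          gcongr
          · exact ind_le_one r x
          · rw [add_zero]; exact hΛ _ _ hx
      _ = _ := by ring

end Pool.Agent.TH270.LC
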