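import Mathlib
import Pool.Agent.TH270.LC.Defs
import Pool.Agent.TH270.LC.Mom
import Pool.Agent.TH270.LC.Defs2
set_option autoImplicit false
open MeasureTheory Set Filter Topology
open scoped ENNReal
noncomputable section
namespace Pool.Agent.TH270.LC

/-- A grid of `O(ρ⁻²)` points such that the discs of radius `ρ / 2` cover the disc of radius `R`. -/
theorem grid (R : ℝ) (hR : 0 < R) : ∃ C : ℝ, 1 ≤ C ∧ ∀ ρ : ℝ, 0 < ρ → ρ ≤ 1 →
    ∃ S : Finset ℂ, (S.card : ℝ) ≤ C / ρ ^ 2 ∧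
      Metric.closedBall (0 : ℂ) R ⊆ ⋃ c ∈ S, Metric.closedBall c (ρ / 2) := by
  refine ⟨(8 * R + 3) ^ 2, by nlinarith, ?_⟩
  intro ρ hρ hρ1
  classical
  obtain ⟨N, hN⟩ : ∃ N : ℕ, N = ⌈4 * R / ρ⌉₊ := ⟨_, rfl⟩
  have hpos : 0 < 4 * R / ρ := by positivity
  have hN1 : 4 * R / ρ ≤ N := by rw [hN]; exact Nat.le_ceil _
  have hN2 : (N : ℝ) ≤ 4 * R / ρ + 1 := by
    rw [hN]; exact (Nat.ceil_lt_add_one hpos.le).le
  let g : ℤ × ℤ → ℂ := fun p => ⟨ρ / 4 * p.1, ρ / 4 * p.2⟩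
  let I : Finset ℤ := Finset.Icc (-(N : ℤ)) N
  have hI : I.card = 2 * N + 1 := by
    simp only [I, Int.card_Icc]
    omega
  refine ⟨(I ×ˢ I).image g, ?_, ?_⟩
  · have h1 : (((I ×ˢ I).image g).card : ℝ) ≤ ((2 * N + 1 : ℕ) : ℝ) * ((2 * N + 1 : ℕ) : ℝ) := by
      have := Finset.card_image_le (s := I ×ˢ I) (f := g)
      rw [Finset.card_product, hI] at this
      exact_mod_cast this
    refine h1.trans ?_
    have h2 : ((2 * N + 1 : ℕ) : ℝ) ≤ (8 * R + 3) / ρ := by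
      rw [le_div_iff₀ hρ]
      push_cast
      have h3 : (N : ℝ) * ρ ≤ 4 * R + ρ := by
        calc (N : ℝ) * ρ ≤ (4 * R / ρ + 1) * ρ := mul_le_mul_of_nonneg_right hN2 hρ.le
          _ = 4 * R + ρ := by field_simp
      nlinarith
    have h4 : (0 : ℝ) ≤ ((2 * N + 1 : ℕ) : ℝ) := Nat.cast_nonneg _
    calc ((2 * N + 1 : ℕ) : ℝ) * ((2 * N + 1 : ℕ) : ℝ)
        ≤ ((8 * R + 3) / ρ) * ((8 * R + 3) / ρ) := mul_le_mul h2 h2 h4 (h4.trans h2)
      _ = (8 * R + 3) ^ 2 / ρ ^ 2 := by ring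
  · intro x hx
    rw [mem_closedBall_zero_iff] at hx
    have key : ∀ t : ℝ, |t| ≤ R → ⌊4 * t / ρ⌋ ∈ I ∧ |t - ρ / 4 * (⌊4 * t / ρ⌋ : ℤ)| ≤ ρ / 4 := by
      intro t ht
      obtain ⟨ht1, ht2⟩ := abs_le.1 ht
      refine ⟨?_, ?_⟩
      · rw [Finset.mem_Icc]
        constructor
        · rw [Int.le_floor]
          push_cast
          have : -(4 * R / ρ) ≤ 4 * t / ρ := by
            rw [← neg_div]
            exact div_le_div_of_nonneg_right (by linarith) hρ.le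
          linarith
        · have h5 : (⌊4 * t / ρ⌋ : ℝ) ≤ N := by
            refine (Int.floor_le _).trans (le_trans ?_ hN1)
            exact div_le_div_of_nonneg_right (by linarith) hρ.le
          exact_mod_cast h5
      · have h6 := Int.floor_le (4 * t / ρ)
        have h7 := Int.lt_floor_add_one (4 * t / ρ)
        have h8 : ρ / 4 * (4 * t / ρ) = t := by field_simp
        have h9 : ρ / 4 * (⌊4 * t / ρ⌋ : ℝ) ≤ ρ / 4 * (4 * t / ρ) :=
          mul_le_mul_of_nonneg_left h6 (by positivity)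
        have h10 : ρ / 4 * (4 * t / ρ) ≤ ρ / 4 * ((⌊4 * t / ρ⌋ : ℝ) + 1) :=
          mul_le_mul_of_nonneg_left h7.le (by positivity)
        rw [h8] at h9 h10
        rw [abs_le]
        constructor <;> linarith
    obtain ⟨ha, ha'⟩ := key x.re ((Complex.abs_re_le_norm x).trans hx)
    obtain ⟨hb, hb'⟩ := key x.im ((Complex.abs_im_le_norm x).trans hx)
    rw [Set.mem_iUnion₂]
    refine ⟨g (⌊4 * x.re / ρ⌋, ⌊4 * x.im / ρ⌋), ?_, ?_⟩
    · exact Finset.mem_image_of_mem g (Finset.mem_product.2 ⟨ha, hb⟩)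
    · rw [Metric.mem_closedBall, dist_eq_norm]
      refine (Complex.norm_le_abs_re_add_abs_im _).trans ?_
      have e1 : (x - g (⌊4 * x.re / ρ⌋, ⌊4 * x.im / ρ⌋)).re = x.re - ρ / 4 * (⌊4 * x.re / ρ⌋ : ℤ) := rfl
      have e2 : (x - g (⌊4 * x.re / ρ⌋, ⌊4 * x.im / ρ⌋)).im = x.im - ρ / 4 * (⌊4 * x.im / ρ⌋ : ℤ) := rfl
      rw [e1, e2]
      linarith

/-- The first order Taylor expansion, with a uniform quadratic remainder. -/
theorem quad_bound {E : Type} [TopologicalSpace E] [CompactSpace E] (F : Fam E) :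
    ∃ Cq : ℝ, 0 ≤ Cq ∧ ∀ a z h, ‖z‖ ≤ F.R + 1 → ‖h‖ ≤ 1 →
      ‖F.f a (z + h) - F.f a z - deriv (F.f a) z * h‖ ≤ Cq * ‖h‖ ^ 2 := by
  have hcomp : IsCompact ((Set.univ : Set E) ×ˢ Metric.closedBall (0 : ℂ) (F.R + 3)) :=
    isCompact_univ.prod (isCompact_closedBall _ _)
  obtain ⟨M, hM⟩ := hcomp.exists_bound_of_continuousOn F.cd.continuousOn
  have hM' : ∀ a z, ‖z‖ ≤ F.R + 3 → ‖deriv (F.f a) z‖ ≤ max M 0 := fun a z hz =>
    (hM (a, z) ⟨Set.mem_univ _, mem_closedBall_zero_iff.2 hz⟩).trans (le_max_left _ _)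
  refine ⟨max M 0, le_max_right _ _, ?_⟩
  intro a z h hz hh
  have hd : Differentiable ℂ (deriv (F.f a)) := by
    rw [← differentiableOn_univ]
    exact (F.df a).differentiableOn.deriv isOpen_univ
  have hdd : ∀ y, ‖y‖ ≤ F.R + 2 → ‖deriv (deriv (F.f a)) y‖ ≤ max M 0 := by
    intro y hy
    have := Complex.norm_deriv_le_of_forall_mem_sphere_norm_le (c := y) (R := 1) (C := max M 0)
      one_pos hd.diffContOnCl (fun w hw => hM' a w (by
        have h1 : ‖w - y‖ = 1 := by simpa using hw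
        have h2 : ‖w‖ ≤ ‖w - y‖ + ‖y‖ := norm_le_norm_sub_add w y
        linarith))
    simpa using this
  have hlip : ∀ y ∈ Metric.closedBall z ‖h‖, ‖deriv (F.f a) y - deriv (F.f a) z‖ ≤
      max M 0 * ‖h‖ := by
    intro y hy
    have hy' : ‖y - z‖ ≤ ‖h‖ := by simpa [dist_eq_norm] using hy
    have h1 := (convex_closedBall (0 : ℂ) (F.R + 2)).norm_image_sub_le_of_norm_deriv_le
      (f := deriv (F.f a)) (C := max M 0) (x := z) (y := y)
      (fun w _ => hd w) (fun w hw => hdd w (mem_closedBall_zero_iff.1 hw))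
      (mem_closedBall_zero_iff.2 (by linarith))
      (mem_closedBall_zero_iff.2 (by
        have h2 : ‖y‖ ≤ ‖y - z‖ + ‖z‖ := norm_le_norm_sub_add y z
        linarith))
    exact h1.trans (mul_le_mul_of_nonneg_left hy' (le_max_right _ _))
  have hg : ∀ y, HasDerivAt (fun y => F.f a y - deriv (F.f a) z * y)
      (deriv (F.f a) y - deriv (F.f a) z) y := by
    intro y
    have h1 := (F.df a y).hasDerivAt
    have h2 := (hasDerivAt_id y).const_mul (deriv (F.f a) z)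
    simp only [mul_one] at h2
    exact h1.sub h2
  have h3 := (convex_closedBall z ‖h‖).norm_image_sub_le_of_norm_hasDerivWithin_le
    (f := fun y => F.f a y - deriv (F.f a) z * y)
    (f' := fun y => deriv (F.f a) y - deriv (F.f a) z) (C := max M 0 * ‖h‖) (x := z) (y := z + h)
    (fun y _ => (hg y).hasDerivWithinAt) hlip
    (Metric.mem_closedBall_self (norm_nonneg _)) (by simp [dist_eq_norm])
  have e1 : (F.f a (z + h) - deriv (F.f a) z * (z + h)) - (F.f a z - deriv (F.f a) z * z) =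
      F.f a (z + h) - F.f a z - deriv (F.f a) z * h := by ring
  have e2 : ‖z + h - z‖ = ‖h‖ := by rw [add_sub_cancel_left]
  simp only [e1, e2] at h3
  calc _ ≤ max M 0 * ‖h‖ * ‖h‖ := h3
    _ = max M 0 * ‖h‖ ^ 2 := by ring

end Pool.Agent.TH270.LC
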