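import Mathlib
set_option autoImplicit false

/-! LC-J18: choice of parameters. -/

open MeasureTheory Set Filter Topology
open scoped ENNReal
noncomputable section
namespace Pool.Agent.TH270.LC

namespace Numeric

theorem geo_lin {x : ℝ} (hx : 0 ≤ x) (hx1 : x < 1) (n : ℕ) : ((n : ℝ) + 1) * x ^ n ≤ 1 / (1 - x) := by
  have h1 : ((n : ℝ) + 1) * x ^ n = ∑ _k ∈ Finset.range (n + 1), x ^ n := by
    rw [Finset.sum_const, Finset.card_range, nsmul_eq_mul]; push_cast; ring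
  rw [h1]
  calc ∑ _k ∈ Finset.range (n + 1), x ^ n ≤ ∑ k ∈ Finset.range (n + 1), x ^ k := by
        apply Finset.sum_le_sum
        intro k hk
        rw [Finset.mem_range] at hk
        exact pow_le_pow_of_le_one hx hx1.le (by omega)
    _ ≤ ∑' k, x ^ k := (summable_geometric_of_lt_one hx hx1).sum_le_tsum _ (fun k _ => by positivity)
    _ = 1 / (1 - x) := by rw [tsum_geometric_of_lt_one hx hx1, one_div]

theorem first {κ₂ s : ℝ} (hκ₂ : 0 < κ₂) (hκ₂' : κ₂ < 1) (hs : 0 < s) (Q n : ℕ) (hQ : 0 < Q) :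
    κ₂ ^ (n / Q) ≤ κ₂⁻¹ * (κ₂ ^ (1 / (2 * (Q : ℝ)))) ^ n *
      ((κ₂ ^ (1 / (2 * (Q : ℝ) * (4 + s)))) ^ n) ^ 4 * ((κ₂ ^ (1 / (2 * (Q : ℝ) * (4 + s)))) ^ n) ^ s := by
  have hQr : (0 : ℝ) < Q := by exact_mod_cast hQ
  set a : ℝ := 1 / (2 * (Q : ℝ) * (4 + s)) with ha
  have e1 : (κ₂ ^ (1 / (2 * (Q : ℝ)))) ^ n = κ₂ ^ (1 / (2 * (Q : ℝ)) * n) := by
    rw [Real.rpow_mul hκ₂.le, Real.rpow_natCast]
  have e2 : (κ₂ ^ a) ^ n = κ₂ ^ (a * n) := by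
    rw [Real.rpow_mul hκ₂.le, Real.rpow_natCast]
  have e3 : (κ₂ ^ (a * n)) ^ 4 = κ₂ ^ (a * n * 4) := by
    rw [Real.rpow_mul hκ₂.le (a * n) 4]
    exact_mod_cast (Real.rpow_natCast (κ₂ ^ (a * n)) 4).symm
  have e4 : (κ₂ ^ (a * n)) ^ s = κ₂ ^ (a * n * s) := by
    exact (Real.rpow_mul hκ₂.le (a * n) s).symm
  have e5 : κ₂⁻¹ = κ₂ ^ (-1 : ℝ) := by rw [Real.rpow_neg_one]
  rw [e1, e2, e3, e4, e5, ← Real.rpow_add hκ₂, ← Real.rpow_add hκ₂, ← Real.rpow_add hκ₂,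
    ← Real.rpow_natCast κ₂ (n / Q)]
  apply Real.rpow_le_rpow_of_exponent_ge hκ₂ hκ₂'.le
  have e6 : -1 + 1 / (2 * (Q : ℝ)) * n + a * n * 4 + a * n * s = n / Q - 1 := by
    have : 4 + s ≠ 0 := by positivity
    rw [ha]; field_simp; ring
  rw [e6]
  have h1 : n < Q * (n / Q) + Q := Nat.lt_mul_div_succ n hQ
  have h2 : (n : ℝ) < Q * ((n / Q : ℕ) : ℝ) + Q := by exact_mod_cast h1
  rw [sub_le_iff_le_add, div_le_iff₀ hQr]
  nlinarith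

end Numeric

open Numeric in
theorem numeric {CI κ₂ κ s ρ₀ L ε C : ℝ} (hCI : 1 ≤ CI) (hκ₂ : 0 < κ₂) (hκ₂' : κ₂ < 1)
    (hκ : 0 < κ) (hκ' : κ < 1) (hs : 0 < s) (hs' : s ≤ 1) (hρ₀ : 0 < ρ₀) (hρ₀' : ρ₀ ≤ 1)
    (hL : 1 ≤ L) (hε : 0 < ε) (hC : 0 < C) (K D : ℕ) :
    ∃ C' κ' : ℝ, 0 < C' ∧ 0 < κ' ∧ κ' < 1 ∧ ∀ n : ℕ, ∃ (ρ : ℝ) (J : ℕ), 0 < ρ ∧ ρ ≤ ρ₀ ∧
      J * (K + 1) ^ 2 ≤ n ∧
      (CI / ρ ^ 2) ^ 2 * (κ₂ ^ J * (ρ₀ / (ρ / (16 * L))) ^ s) +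
        (((n : ℝ) + 1) * D + K) * (ρ ^ 2 / ε ^ 2) * ((CI / ρ ^ 2) *
          (C / (1 - κ) * (ρ / ρ₀) ^ s + C * κ ^ n * (ρ / (ρ / (16 * L))) ^ s)) ≤ C' * κ' ^ n := by
  set Q : ℕ := (K + 1) ^ 2 with hQdef
  have hQ : 0 < Q := by positivity
  have hQr : (0 : ℝ) < Q := by exact_mod_cast hQ
  set q : ℝ := κ₂ ^ (1 / (2 * (Q : ℝ) * (4 + s))) with hq
  set r1 : ℝ := κ₂ ^ (1 / (2 * (Q : ℝ))) with hr1
  have hq0 : 0 < q := Real.rpow_pos_of_pos hκ₂ _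
  have hq1 : q < 1 := Real.rpow_lt_one hκ₂.le hκ₂' (by positivity)
  have hr10 : 0 < r1 := Real.rpow_pos_of_pos hκ₂ _
  have hr11 : r1 < 1 := Real.rpow_lt_one hκ₂.le hκ₂' (by positivity)
  set t : ℝ := max (q ^ s) κ with ht
  have hqs0 : 0 < q ^ s := Real.rpow_pos_of_pos hq0 _
  have hqs1 : q ^ s < 1 := Real.rpow_lt_one hq0.le hq1 hs
  have ht0 : 0 < t := lt_max_of_lt_right hκ
  have ht1 : t < 1 := max_lt hqs1 hκ'
  set x : ℝ := Real.sqrt t with hx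
  have hx0 : 0 < x := Real.sqrt_pos.mpr ht0
  have hx1 : x < 1 := by rw [hx, Real.sqrt_lt' one_pos]; simpa using ht1
  have hxx : x * x = t := Real.mul_self_sqrt ht0.le
  have hL0 : 0 < L := by linarith
  have hLs : 0 < (16 * L) ^ s := Real.rpow_pos_of_pos (by positivity) _
  have h1κ : 0 < 1 - κ := by linarith
  have h1x : 0 < 1 - x := by linarith
  have hCI0 : 0 < CI := by linarith
  set C1 : ℝ := CI ^ 2 / ρ₀ ^ 4 * (16 * L) ^ s * κ₂⁻¹ with hC1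
  set C2 : ℝ := ((D : ℝ) + K) * (CI / ε ^ 2) * (C / (1 - κ) + C * (16 * L) ^ s) with hC2
  have hC10 : 0 < C1 := by positivity
  have hC20 : 0 ≤ C2 := by positivity
  set κ' : ℝ := max r1 x with hκ'def
  have hk0 : 0 < κ' := lt_max_of_lt_left hr10
  have hk1 : κ' < 1 := max_lt hr11 hx1
  refine ⟨C1 + C2 * (1 / (1 - x)), κ', by positivity, hk0, hk1, ?_⟩
  intro n
  set y : ℝ := q ^ n with hy
  have hy0 : 0 < y := by positivity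
  have hy1 : y ≤ 1 := pow_le_one₀ hq0.le hq1.le
  refine ⟨ρ₀ * y, n / Q, by positivity, by nlinarith, Nat.div_mul_le_self n Q, ?_⟩
  have hys0 : 0 < y ^ s := Real.rpow_pos_of_pos hy0 _
  -- first term
  have a1 : ρ₀ / (ρ₀ * y / (16 * L)) = 16 * L / y := by field_simp
  have a2 : (16 * L / y) ^ s = (16 * L) ^ s / y ^ s := Real.div_rpow (by positivity) hy0.le s
  have hf := first hκ₂ hκ₂' hs Q n hQ
  have t1 : (CI / (ρ₀ * y) ^ 2) ^ 2 * (κ₂ ^ (n / Q) * (ρ₀ / (ρ₀ * y / (16 * L))) ^ s) ≤ C1 * κ' ^ n := by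
    rw [a1, a2]
    have e1 : (CI / (ρ₀ * y) ^ 2) ^ 2 * (κ₂ ^ (n / Q) * ((16 * L) ^ s / y ^ s)) =
        CI ^ 2 / ρ₀ ^ 4 * (16 * L) ^ s * (κ₂ ^ (n / Q) / (y ^ 4 * y ^ s)) := by
      field_simp
    rw [e1]
    have e2 : κ₂ ^ (n / Q) / (y ^ 4 * y ^ s) ≤ κ₂⁻¹ * κ' ^ n := by
      rw [div_le_iff₀ (by positivity)]
      calc κ₂ ^ (n / Q) ≤ κ₂⁻¹ * r1 ^ n * y ^ 4 * y ^ s := hf
        _ ≤ κ₂⁻¹ * κ' ^ n * y ^ 4 * y ^ s := by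
            have : r1 ^ n ≤ κ' ^ n := pow_le_pow_left₀ hr10.le (le_max_left _ _) n
            gcongr
        _ = _ := by ring
    calc CI ^ 2 / ρ₀ ^ 4 * (16 * L) ^ s * (κ₂ ^ (n / Q) / (y ^ 4 * y ^ s))
        ≤ CI ^ 2 / ρ₀ ^ 4 * (16 * L) ^ s * (κ₂⁻¹ * κ' ^ n) := by gcongr
      _ = C1 * κ' ^ n := by rw [hC1]; ring
  -- second term
  have b1 : ρ₀ * y / ρ₀ = y := by field_simp
  have b2 : ρ₀ * y / (ρ₀ * y / (16 * L)) = 16 * L := by field_simp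
  have b3 : y ^ s = (q ^ s) ^ n := by
    rw [hy, ← Real.rpow_natCast, ← Real.rpow_mul hq0.le, mul_comm, Real.rpow_mul hq0.le, Real.rpow_natCast]
  have t2 : (((n : ℝ) + 1) * D + K) * ((ρ₀ * y) ^ 2 / ε ^ 2) * ((CI / (ρ₀ * y) ^ 2) *
          (C / (1 - κ) * (ρ₀ * y / ρ₀) ^ s + C * κ ^ n * (ρ₀ * y / (ρ₀ * y / (16 * L))) ^ s)) ≤
      C2 * (1 / (1 - x)) * κ' ^ n := by
    rw [b1, b2, b3]
    have e1 : (((n : ℝ) + 1) * D + K) * ((ρ₀ * y) ^ 2 / ε ^ 2) * ((CI / (ρ₀ * y) ^ 2) *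
          (C / (1 - κ) * (q ^ s) ^ n + C * κ ^ n * (16 * L) ^ s)) =
        (((n : ℝ) + 1) * D + K) * (CI / ε ^ 2) *
          (C / (1 - κ) * (q ^ s) ^ n + C * κ ^ n * (16 * L) ^ s) := by
      field_simp
    rw [e1]
    have e2 : (q ^ s) ^ n ≤ t ^ n := pow_le_pow_left₀ hqs0.le (le_max_left _ _) n
    have e3 : κ ^ n ≤ t ^ n := pow_le_pow_left₀ hκ.le (le_max_right _ _) n
    have e4 : C / (1 - κ) * (q ^ s) ^ n + C * κ ^ n * (16 * L) ^ s ≤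
        (C / (1 - κ) + C * (16 * L) ^ s) * t ^ n := by
      have g1 : C / (1 - κ) * (q ^ s) ^ n ≤ C / (1 - κ) * t ^ n := by gcongr
      have g2 : C * κ ^ n * (16 * L) ^ s ≤ C * t ^ n * (16 * L) ^ s := by gcongr
      nlinarith
    have e5 : ((n : ℝ) + 1) * D + K ≤ ((n : ℝ) + 1) * ((D : ℝ) + K) := by
      have : (0 : ℝ) ≤ (n : ℝ) * K := by positivity
      nlinarith
    have e6 : ((n : ℝ) + 1) * t ^ n ≤ 1 / (1 - x) * κ' ^ n := by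
      have g1 : t ^ n = x ^ n * x ^ n := by rw [← hxx, mul_pow]
      rw [g1, ← mul_assoc]
      have g2 := geo_lin hx0.le hx1 n
      have g3 : x ^ n ≤ κ' ^ n := pow_le_pow_left₀ hx0.le (le_max_right _ _) n
      exact mul_le_mul g2 g3 (by positivity) (by positivity)
    calc (((n : ℝ) + 1) * D + K) * (CI / ε ^ 2) *
          (C / (1 - κ) * (q ^ s) ^ n + C * κ ^ n * (16 * L) ^ s)
        ≤ (((n : ℝ) + 1) * ((D : ℝ) + K)) * (CI / ε ^ 2) *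
          ((C / (1 - κ) + C * (16 * L) ^ s) * t ^ n) := by
          apply mul_le_mul _ e4 (by positivity) (by positivity)
          gcongr
      _ = C2 * (((n : ℝ) + 1) * t ^ n) := by rw [hC2]; ring
      _ ≤ C2 * (1 / (1 - x) * κ' ^ n) := mul_le_mul_of_nonneg_left e6 hC20
      _ = _ := by ring
  calc _ ≤ C1 * κ' ^ n + C2 * (1 / (1 - x)) * κ' ^ n := add_le_add t1 t2
    _ = _ := by ring

end Pool.Agent.TH270.LC
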