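import Mathlib
import Pool.Agent.TH270.LC.Defs

set_option autoImplicit false

open MeasureTheory Set Filter Topology
open scoped ENNReal

noncomputable section

namespace Pool.Agent.TH270.LC

theorem pos_add {E : Type} [TopologicalSpace E] (F : Fam E) (e : ℕ → E) (u : ℕ → ℂ) (x : ℂ)
    (j m : ℕ) :
    pos F e u x (j + m)
      = pos F (fun k => e (k + j)) (fun k => u (k + j)) (pos F e u x j) m := by
  induction m with
  | zero => rfl
  | succ m ih => rw [← add_assoc, pos_succ, pos_succ, ih, add_comm j m]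

theorem ext_cont {n : ℕ} (k : ℕ) : Continuous fun u : Fin n → ℂ => ext u k := by
  unfold ext
  by_cases h : k < n
  · simp only [h, dite_true]
    exact continuous_apply _
  · simp only [h, dite_false]
    exact continuous_const

theorem pos_ext_cont {E : Type} [TopologicalSpace E] (F : Fam E) (e : ℕ → E) {n : ℕ} (j : ℕ)
    (c : ℂ) (m : ℕ) :
    Continuous fun u : Fin n → ℂ => pos F e (fun k => ext u (k + j)) c m := by
  induction m with
  | zero => exact continuous_const
  | succ m ih =>
    simp only [pos_succ]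
    exact (F.cf.comp (continuous_const.prodMk ih)).add (ext_cont _)

theorem pos_diff {E : Type} [TopologicalSpace E] (F : Fam E) (e : ℕ → E) (u : ℕ → ℂ) (k : ℕ) :
    Differentiable ℂ fun z => pos F e u z k := by
  induction k with
  | zero => exact differentiable_id
  | succ k ih =>
    simp only [pos_succ]
    exact ((F.df (e k)).comp ih).add_const _

theorem deriv_pos_succ {E : Type} [TopologicalSpace E] (F : Fam E) (e : ℕ → E) (u : ℕ → ℂ)
    (k : ℕ) (q : ℂ) :
    deriv (fun z => pos F e u z (k + 1)) q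
      = deriv (F.f (e k)) (pos F e u q k) * deriv (fun z => pos F e u z k) q := by
  simp only [pos_succ]
  rw [deriv_add_const]
  exact deriv_comp q ((F.df (e k)) _) ((pos_diff F e u k) q)

theorem exists_crit {E : Type} [TopologicalSpace E] (F : Fam E) (e : ℕ → E) (u : ℕ → ℂ)
    (q : ℂ) (n : ℕ) (h : deriv (fun z => pos F e u z n) q = 0) :
    ∃ j < n, deriv (F.f (e j)) (pos F e u q j) = 0 := by
  induction n with
  | zero =>
    exfalso
    have h1 : (fun z => pos F e u z 0) = id := rfl
    rw [h1, deriv_id] at h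
    exact one_ne_zero h
  | succ n ih =>
    rw [deriv_pos_succ] at h
    rcases mul_eq_zero.mp h with h | h
    · exact ⟨n, Nat.lt_succ_self n, h⟩
    · obtain ⟨j, hj, h'⟩ := ih h
      exact ⟨j, Nat.lt_succ_of_lt hj, h'⟩

theorem crit_family {E : Type} [TopologicalSpace E] (F : Fam E) (D : ℕ)
    (hD : ∀ a, ∃ S : Finset ℂ, S.card ≤ D ∧ ∀ z, deriv (F.f a) z = 0 → z ∈ S) (n : ℕ) (e : ℕ → E) :
    ∃ (M : ℕ) (y : Fin M → (ℕ → ℂ) → ℂ), M ≤ (n + 1) * D ∧
      (∀ c, Continuous fun u : Fin n → ℂ => y c (ext u)) ∧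
      ∀ (u : ℕ → ℂ) (q : ℂ), deriv (fun z => F.f (e n) (pos F e u z n)) q = 0 →
        ∃ c, F.f (e n) (pos F e u q n) = y c u := by
  classical
  choose S hScard hS using hD
  let I : Type := (j : Fin (n + 1)) × {c : ℂ // c ∈ S (e j)}
  have hcard : Fintype.card I ≤ (n + 1) * D := by
    have h1 : Fintype.card I = ∑ j : Fin (n + 1), (S (e j)).card := by
      rw [Fintype.card_sigma]
      exact Finset.sum_congr rfl fun j _ => Fintype.card_coe _
    rw [h1]
    refine (Finset.sum_le_card_nsmul _ _ D fun j _ => hScard _).trans ?_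
    simp
  let eqv : I ≃ Fin (Fintype.card I) := Fintype.equivFin I
  let Y : I → (ℕ → ℂ) → ℂ := fun i u => F.f (e n) (pos F (fun k => e (k + (i.1 : ℕ)))
    (fun k => u (k + (i.1 : ℕ))) i.2.1 (n - (i.1 : ℕ)))
  refine ⟨Fintype.card I, fun c u => Y (eqv.symm c) u, hcard, ?_, ?_⟩
  · intro c
    exact F.cf.comp (continuous_const.prodMk (pos_ext_cont F _ _ _ _))
  · intro u q h
    -- some factor vanishes
    have key : ∃ j ≤ n, deriv (F.f (e j)) (pos F e u q j) = 0 := by
      have h1 : deriv (fun z => F.f (e n) (pos F e u z n)) q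
          = deriv (F.f (e n)) (pos F e u q n) * deriv (fun z => pos F e u z n) q :=
        deriv_comp q ((F.df (e n)) _) ((pos_diff F e u n) q)
      rw [h1] at h
      rcases mul_eq_zero.mp h with h | h
      · exact ⟨n, le_rfl, h⟩
      · obtain ⟨j, hj, h'⟩ := exists_crit F e u q n h
        exact ⟨j, hj.le, h'⟩
    obtain ⟨j, hj, hj0⟩ := key
    let i : I := ⟨⟨j, Nat.lt_succ_of_le hj⟩, ⟨pos F e u q j, hS _ _ hj0⟩⟩
    refine ⟨eqv i, ?_⟩
    change _ = Y (eqv.symm (eqv i)) u
    rw [Equiv.symm_apply_apply]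
    change _ = F.f (e n) (pos F (fun k => e (k + j)) (fun k => u (k + j)) (pos F e u q j) (n - j))
    rw [← pos_add, Nat.add_sub_cancel' hj]

end Pool.Agent.TH270.LC
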