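import Mathlib
import Pool.Agent.TH270.LC.Defs
import Pool.Agent.TH270.LC.Mom
import Pool.Agent.TH270.LC.Defs2
set_option autoImplicit false
open MeasureTheory Set Filter Topology
open scoped ENNReal
noncomputable section
namespace Pool.Agent.TH270.LC

namespace BallAux

variable {E : Type} [TopologicalSpace E] (F : Fam E)

theorem esc_step {a : E} {y v : ℂ} (hv : ‖v‖ ≤ F.eps) (hy : F.R ≤ ‖y‖) :
    2 * ‖y‖ ≤ ‖F.f a y + v‖ := by
  have h1 := F.esc a y hy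
  have h2 : ‖F.f a y‖ - ‖v‖ ≤ ‖F.f a y + v‖ := by
    have := norm_sub_norm_le (F.f a y) (-v)
    rwa [norm_neg, sub_neg_eq_add] at this
  linarith

theorem dead_step {e : ℕ → E} {u : ℕ → ℂ} (hu : ∀ k, ‖u k‖ ≤ F.eps) {x : ℂ} {c : ℝ}
    (hc : F.R ≤ c) {k : ℕ} (h : c < ‖pos F e u x k‖) : c < ‖pos F e u x (k + 1)‖ := by
  rw [pos_succ]
  have h1 := esc_step F (a := e k) (hu k) (hc.trans h.le)
  have := F.hR
  linarith

theorem dead_mono {e : ℕ → E} {u : ℕ → ℂ} (hu : ∀ k, ‖u k‖ ≤ F.eps) {x : ℂ} {c : ℝ}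
    (hc : F.R ≤ c) {k m : ℕ} (hkm : k ≤ m) (h : c < ‖pos F e u x k‖) :
    c < ‖pos F e u x m‖ := by
  induction m, hkm using Nat.le_induction with
  | base => exact h
  | succ m _ ih => exact dead_step F hu hc ih

theorem rad_zero (w : ℝ) (e : ℕ → E) (u : ℕ → ℂ) (x : ℂ) (ρ : ℝ) : rad F w e u x ρ 0 = ρ := by
  simp [rad]

theorem rad_succ (w : ℝ) (e : ℕ → E) (u : ℕ → ℂ) (x : ℂ) (ρ : ℝ) (k : ℕ) :
    rad F w e u x ρ (k + 1) = rad F w e u x ρ k * (‖deriv (F.f (e k)) (pos F e u x k)‖ + w) := by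
  unfold rad
  rw [Finset.prod_range_succ]
  ring

theorem rad_nonneg {w : ℝ} (hw : 0 < w) (e : ℕ → E) (u : ℕ → ℂ) (x : ℂ) {ρ : ℝ} (hρ : 0 ≤ ρ)
    (k : ℕ) : 0 ≤ rad F w e u x ρ k :=
  mul_nonneg hρ (Finset.prod_nonneg fun j _ => by positivity)

end BallAux

open BallAux in
theorem ball_lemma {E : Type} [TopologicalSpace E] (F : Fam E) {w Λ Cq ρ₀ τ ρ : ℝ} (hw : 0 < w)
    (hΛ : ∀ a z, ‖z‖ ≤ F.R + 1 → ‖deriv (F.f a) z‖ ≤ Λ)
    (hq : ∀ a z h, ‖z‖ ≤ F.R + 1 → ‖h‖ ≤ 1 →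
      ‖F.f a (z + h) - F.f a z - deriv (F.f a) z * h‖ ≤ Cq * ‖h‖ ^ 2)
    (hρ₀ : 0 < ρ₀) (h1 : Cq * ρ₀ ≤ w) (h2 : (Λ + w) * ρ₀ ≤ 1) (h3 : ρ₀ ≤ 1)
    (hρ : 0 ≤ ρ) (hρ' : ρ ≤ ρ₀) (e : ℕ → E) (u : ℕ → ℂ) (hu : ∀ k, ‖u k‖ ≤ F.eps) (x : ℂ) (n : ℕ)
    (hgood : ¬ BadEv F w ρ₀ τ e u x ρ n) (z : ℂ) (hz : ‖z - x‖ ≤ ρ) :
    (‖pos F e u x n‖ ≤ F.R + 1 → ‖pos F e u z n - pos F e u x n‖ ≤ τ) ∧
    (F.R + 1 < ‖pos F e u x n‖ → F.R < ‖pos F e u z n‖) := by
  unfold BadEv at hgood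
  push Not at hgood
  obtain ⟨hg1, hg2⟩ := hgood
  have hR1 : F.R ≤ F.R + 1 := by linarith
  -- one step
  have hstep : ∀ k, ‖pos F e u x k‖ ≤ F.R + 1 → rad F w e u x ρ k ≤ ρ₀ →
      ‖pos F e u z k - pos F e u x k‖ ≤ rad F w e u x ρ k →
      ‖pos F e u z (k + 1) - pos F e u x (k + 1)‖ ≤ rad F w e u x ρ (k + 1) := by
    intro k ha hr hk
    set X := pos F e u x k with hX
    set h := pos F e u z k - X with hh
    have hZ : pos F e u z k = X + h := by rw [hh]; ring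
    have hhρ : ‖h‖ ≤ ρ₀ := hk.trans hr
    have e1 : pos F e u z (k + 1) - pos F e u x (k + 1) =
        (F.f (e k) (X + h) - F.f (e k) X - deriv (F.f (e k)) X * h) + deriv (F.f (e k)) X * h := by
      rw [pos_succ, pos_succ, ← hX, hZ]
      ring
    have hCq : Cq * ‖h‖ ≤ w := by
      rcases le_total Cq 0 with hc | hc
      · have : Cq * ‖h‖ ≤ 0 := mul_nonpos_of_nonpos_of_nonneg hc (norm_nonneg _)
        linarith
      · exact (mul_le_mul_of_nonneg_left hhρ hc).trans h1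
    rw [e1, rad_succ, ← hX]
    calc ‖(F.f (e k) (X + h) - F.f (e k) X - deriv (F.f (e k)) X * h) + deriv (F.f (e k)) X * h‖
        ≤ ‖F.f (e k) (X + h) - F.f (e k) X - deriv (F.f (e k)) X * h‖ +
          ‖deriv (F.f (e k)) X * h‖ := norm_add_le _ _
      _ ≤ Cq * ‖h‖ ^ 2 + ‖deriv (F.f (e k)) X‖ * ‖h‖ :=
          add_le_add (hq _ _ _ ha (hhρ.trans h3)) (norm_mul_le _ _)
      _ = ‖h‖ * (‖deriv (F.f (e k)) X‖ + Cq * ‖h‖) := by ring
      _ ≤ ‖h‖ * (‖deriv (F.f (e k)) X‖ + w) := by gcongr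
      _ ≤ rad F w e u x ρ k * (‖deriv (F.f (e k)) X‖ + w) := by gcongr
  have claim : ∀ k, k ≤ n → (∀ j < k, ‖pos F e u x j‖ ≤ F.R + 1) →
      ‖pos F e u z k - pos F e u x k‖ ≤ rad F w e u x ρ k := by
    intro k
    induction k with
    | zero =>
      intro _ _
      rw [rad_zero, pos_zero, pos_zero]
      exact hz
    | succ k ih =>
      intro hk hal
      have ha := hal k (Nat.lt_succ_self k)
      exact hstep k ha (hg1 k (by omega) ha) (ih (by omega) fun j hj => hal j (by omega))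
  constructor
  · intro ha
    have hal : ∀ j < n, ‖pos F e u x j‖ ≤ F.R + 1 := by
      intro j hj
      by_contra hd
      rw [not_le] at hd
      exact absurd ha (not_le.2 (dead_mono F hu hR1 hj.le hd))
    exact (claim n le_rfl hal).trans (hg2 ha)
  · intro hd
    classical
    have hex : ∃ k, F.R + 1 < ‖pos F e u x k‖ := ⟨n, hd⟩
    set k := Nat.find hex with hk
    have hkd : F.R + 1 < ‖pos F e u x k‖ := Nat.find_spec hex
    have hkn : k ≤ n := Nat.find_min' hex hd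
    have hmin : ∀ j < k, ‖pos F e u x j‖ ≤ F.R + 1 := fun j hj => not_lt.1 (Nat.find_min hex hj)
    have hZk : F.R < ‖pos F e u z k‖ := by
      have hdiff : ‖pos F e u z k - pos F e u x k‖ ≤ 1 := by
        refine (claim k hkn hmin).trans ?_
        rcases Nat.eq_zero_or_pos k with h0 | h0
        · rw [h0, rad_zero]
          exact hρ'.trans h3
        · obtain ⟨m, hm⟩ : ∃ m, k = m + 1 := ⟨k - 1, by omega⟩
          rw [hm, rad_succ]
          have ha := hmin m (by omega)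
          have hr := hg1 m (by omega) ha
          have hr0 := rad_nonneg F hw e u x hρ m
          calc rad F w e u x ρ m * (‖deriv (F.f (e m)) (pos F e u x m)‖ + w)
              ≤ ρ₀ * (Λ + w) := by
                refine mul_le_mul hr ?_ (by positivity) hρ₀.le
                have := hΛ (e m) _ ha
                linarith
            _ = (Λ + w) * ρ₀ := by ring
            _ ≤ 1 := h2
      have h4 : ‖pos F e u x k‖ - ‖pos F e u z k‖ ≤ 1 := by
        have := norm_sub_norm_le (pos F e u x k) (pos F e u z k)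
        rw [norm_sub_rev] at this
        linarith
      linarith
    exact dead_mono F hu le_rfl hkn hZk

end Pool.Agent.TH270.LC
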