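import Mathlib
import Pool.Agent.TH270.LC.Defs
set_option autoImplicit false
open MeasureTheory Set Filter Topology
open scoped ENNReal
noncomputable section
namespace Pool.Agent.TH270.LC

namespace Closing

open Metric

/-- a map of a disc into a smaller concentric disc has an attracting fixed point -/
theorem fixed {g : ℂ → ℂ} (hg : Differentiable ℂ g) {c : ℂ} {r : ℝ} (hr : 0 < r)
    (h : ∀ z ∈ closedBall c r, g z ∈ closedBall c (r / 4)) :
    ∃ x, g x = x ∧ ‖deriv g x‖ < 1 ∧
      ∀ w ∈ closedBall c r, Tendsto (fun k : ℕ => g^[k] w) atTop (𝓝 x) := by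
  set s := closedBall c (r / 4) with hs
  have hsub : s ⊆ closedBall c r := closedBall_subset_closedBall (by linarith)
  have hd : ∀ x ∈ s, ‖deriv g x‖ ≤ 1 / 3 := by
    intro x hx
    have h1 : ∀ z ∈ sphere x (3 * r / 4), ‖g z - c‖ ≤ r / 4 := by
      intro z hz
      have h2 : z ∈ closedBall c r := by
        rw [mem_closedBall]
        have h3 := dist_triangle z x c
        rw [mem_sphere] at hz
        rw [hs, mem_closedBall] at hx
        linarith
      have h3 := h z h2
      rwa [mem_closedBall, dist_eq_norm] at h3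
    have h2 : DiffContOnCl ℂ (fun z => g z - c) (ball x (3 * r / 4)) :=
      (hg.sub_const c).diffContOnCl
    have h3 := Complex.norm_deriv_le_of_forall_mem_sphere_norm_le
      (by positivity : 0 < 3 * r / 4) h2 h1
    rw [deriv_sub_const] at h3
    refine h3.trans ?_
    rw [div_le_iff₀ (by positivity)]
    linarith
  have hlip : ∀ x ∈ s, ∀ y ∈ s, ‖g y - g x‖ ≤ 1 / 3 * ‖y - x‖ := fun x hx y hy =>
    Convex.norm_image_sub_le_of_norm_deriv_le (fun z _ => hg z) hd (convex_closedBall _ _) hx hy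
  have hmaps : MapsTo g s s := fun z hz => h z (hsub hz)
  have hc : c ∈ s := mem_closedBall_self (by positivity)
  have hcontr : ContractingWith (1 / 3 : NNReal) (hmaps.restrict g s s) := by
    refine ⟨?_, LipschitzWith.of_dist_le_mul ?_⟩
    · rw [← NNReal.coe_lt_coe]
      norm_num
    · rintro ⟨x, hx⟩ ⟨y, hy⟩
      have h1 := hlip y hy x hx
      rw [Subtype.dist_eq, Subtype.dist_eq, dist_eq_norm, dist_eq_norm]
      simpa using h1
  obtain ⟨x, hxs, hx, -⟩ := hcontr.exists_fixedPoint' (isClosed_closedBall.isComplete) hmaps hc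
    (edist_ne_top _ _)
  refine ⟨x, hx, lt_of_le_of_lt (hd x hxs) (by norm_num), ?_⟩
  intro w hw
  rw [← tendsto_add_atTop_iff_nat 1]
  have h1 : ∀ k : ℕ, g^[k + 1] w ∈ s := by
    intro k
    induction k with
    | zero => exact h w hw
    | succ k ih =>
      rw [Function.iterate_succ_apply']
      exact hmaps ih
  have h2 : ∀ k : ℕ, ‖g^[k + 1] w - x‖ ≤ (1 / 3) ^ k * ‖g w - x‖ := by
    intro k
    induction k with
    | zero => simp
    | succ k ih =>
      rw [Function.iterate_succ_apply']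
      have h3 := hlip x hxs _ (h1 k)
      rw [hx.eq] at h3
      refine h3.trans ?_
      rw [pow_succ']
      linarith
  rw [tendsto_iff_norm_sub_tendsto_zero]
  refine squeeze_zero (fun _ => norm_nonneg _) h2 ?_
  have h3 : Tendsto (fun k : ℕ => (1 / 3 : ℝ) ^ k) atTop (𝓝 0) :=
    tendsto_pow_atTop_nhds_zero_of_lt_one (by norm_num) (by norm_num)
  simpa using h3.mul_const ‖g w - x‖

end Closing

open Closing in
theorem closing {ι : Type} [Fintype ι] (G : ℂ → ℂ) (hG : Differentiable ℂ G) (Esc : ℂ → Prop)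
    (p : ι → ℂ) {r : ℝ} (hr : 0 < r)
    (h : ∀ l, (∀ z ∈ Metric.closedBall (p l) r, Esc z) ∨
      ∃ l', ∀ z ∈ Metric.closedBall (p l) r, G z ∈ Metric.closedBall (p l') (r / 4)) :
    ∃ Z : Finset ℂ, Z.card ≤ Fintype.card ι ∧ ∀ z : ℂ,
      (∃ (k₀ : ℕ) (l : ι), G^[k₀] z ∈ Metric.closedBall (p l) r) →
      (∃ k : ℕ, Esc (G^[k] z)) ∨
        ∃ x ∈ Z, ∃ n : ℕ, 0 < n ∧ G^[n] x = x ∧ ‖deriv (G^[n]) x‖ < 1 ∧
          Tendsto (fun k : ℕ => G^[n * k] z) atTop (𝓝 x) := by
  classical
  set N := (Fintype.card ι).factorial with hN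
  have hN0 : 0 < N := Nat.factorial_pos _
  have hg : Differentiable ℂ (G^[N]) := hG.iterate N
  -- the successor
  have hσ : ∃ σ : ι → ι, ∀ l, (∀ z ∈ Metric.closedBall (p l) r, Esc z) ∨
      ∀ z ∈ Metric.closedBall (p l) r, G z ∈ Metric.closedBall (p (σ l)) (r / 4) := by
    have h1 : ∀ l, ∃ l', (∀ z ∈ Metric.closedBall (p l) r, Esc z) ∨
        ∀ z ∈ Metric.closedBall (p l) r, G z ∈ Metric.closedBall (p l') (r / 4) := by
      intro l
      rcases h l with h1 | ⟨l', h1⟩
      · exact ⟨l, Or.inl h1⟩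
      · exact ⟨l', Or.inr h1⟩
    choose σ hσ using h1
    exact ⟨σ, hσ⟩
  obtain ⟨σ, hσ⟩ := hσ
  let X : ι → ℂ := fun l =>
    if hl : ∀ w ∈ Metric.closedBall (p l) r, G^[N] w ∈ Metric.closedBall (p l) (r / 4) then
      (fixed hg hr hl).choose else 0
  refine ⟨Finset.univ.image X, Finset.card_image_le, ?_⟩
  rintro z ⟨k₀, l, hz⟩
  by_cases hE : ∃ k : ℕ, Esc (G^[k] z)
  · exact Or.inl hE
  right
  push Not at hE
  have hrr : ∀ c : ℂ, Metric.closedBall c (r / 4) ⊆ Metric.closedBall c r := fun c =>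
    Metric.closedBall_subset_closedBall (by linarith)
  -- the itinerary
  have h1 : ∀ j : ℕ, G^[k₀ + j] z ∈ Metric.closedBall (p (σ^[j] l)) r ∧
      ∀ w ∈ Metric.closedBall (p (σ^[j] l)) r,
        G w ∈ Metric.closedBall (p (σ^[j + 1] l)) (r / 4) := by
    intro j
    have h2 : ∀ j : ℕ, G^[k₀ + j] z ∈ Metric.closedBall (p (σ^[j] l)) r →
        ∀ w ∈ Metric.closedBall (p (σ^[j] l)) r,
        G w ∈ Metric.closedBall (p (σ^[j + 1] l)) (r / 4) := by
      intro j hj
      rcases hσ (σ^[j] l) with h3 | h3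
      · exact absurd (h3 _ hj) (hE _)
      · rw [Function.iterate_succ_apply']
        exact h3
    have h3 : G^[k₀ + j] z ∈ Metric.closedBall (p (σ^[j] l)) r := by
      induction j with
      | zero => exact hz
      | succ j ih =>
        have h4 := h2 j ih _ ih
        have e : G^[k₀ + (j + 1)] z = G (G^[k₀ + j] z) := by
          rw [← add_assoc, Function.iterate_succ_apply']
        rw [e]
        exact hrr _ h4
    exact ⟨h3, h2 j h3⟩
  -- iterates along the itinerary
  have h2 : ∀ (j m : ℕ), ∀ w ∈ Metric.closedBall (p (σ^[j] l)) r,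
      G^[m + 1] w ∈ Metric.closedBall (p (σ^[j + (m + 1)] l)) (r / 4) := by
    intro j m
    induction m with
    | zero => intro w hw; exact (h1 j).2 w hw
    | succ m ih =>
      intro w hw
      have h3 := ih w hw
      rw [Function.iterate_succ_apply']
      exact (h1 (j + (m + 1))).2 _ (hrr _ h3)
  -- eventual periodicity
  obtain ⟨j1, hper⟩ : ∃ j1 : ℕ, ∀ j ≥ j1, σ^[j + N] l = σ^[j] l := by
    obtain ⟨a, b, hab, he⟩ := Fintype.exists_ne_map_eq_of_card_lt
      (fun i : Fin (Fintype.card ι + 1) => σ^[(i : ℕ)] l) (by simp)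
    have key : ∀ a b : ℕ, a < b → b ≤ Fintype.card ι → σ^[a] l = σ^[b] l →
        ∃ j1 : ℕ, ∀ j ≥ j1, σ^[j + N] l = σ^[j] l := by
      intro a b hab hb he
      have hdvd : (b - a) ∣ N := Nat.dvd_factorial (by omega) (by omega)
      have hstep : ∀ j ≥ a, σ^[j + (b - a)] l = σ^[j] l := by
        intro j hj
        have e1 : j + (b - a) = (j - a) + b := by omega
        have e2 : j = (j - a) + a := by omega
        rw [e1, Function.iterate_add_apply, ← he, ← Function.iterate_add_apply, ← e2]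
      have hmul : ∀ (q j : ℕ), a ≤ j → σ^[j + (b - a) * q] l = σ^[j] l := by
        intro q
        induction q with
        | zero => intro j _; simp
        | succ q ih =>
          intro j hj
          have e : j + (b - a) * (q + 1) = (j + (b - a) * q) + (b - a) := by ring
          rw [e, hstep _ (by omega), ih j hj]
      obtain ⟨q, hq⟩ := hdvd
      refine ⟨a, fun j hj => ?_⟩
      rw [hq]
      exact hmul q j hj
    rcases lt_or_gt_of_ne (fun h => hab (Fin.ext h) : (a : ℕ) ≠ b) with h3 | h3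
    · exact key a b h3 (by omega) he
    · exact key b a h3 (by omega) he.symm
  -- the phase
  set K0 := k₀ + j1 with hK0
  have hK : K0 ≤ N * K0 := Nat.le_mul_of_pos_left _ hN0
  set j0 := N * K0 - k₀ with hj0
  have hj0' : j1 ≤ j0 := by omega
  set l' := σ^[j0] l with hl'
  have hball : ∀ w ∈ Metric.closedBall (p l') r, G^[N] w ∈ Metric.closedBall (p l') (r / 4) := by
    intro w hw
    have h3 := h2 j0 (N - 1) w hw
    have e : N - 1 + 1 = N := by omega
    rw [e, hper j0 hj0'] at h3
    exact h3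
  have hmem : G^[N * K0] z ∈ Metric.closedBall (p l') r := by
    have h3 := (h1 j0).1
    have e : k₀ + j0 = N * K0 := by omega
    rwa [e] at h3
  have hX : X l' = (fixed hg hr hball).choose := dif_pos hball
  obtain ⟨hx1, hx2, hx3⟩ := (fixed hg hr hball).choose_spec
  refine ⟨X l', Finset.mem_image_of_mem X (Finset.mem_univ _), N, hN0, ?_, ?_, ?_⟩
  · rw [hX]; exact hx1
  · rw [hX]; exact hx2
  · rw [← tendsto_add_atTop_iff_nat K0, hX]
    have h3 := hx3 _ hmem
    refine h3.congr fun k => ?_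
    rw [← Function.iterate_mul, ← Function.iterate_add_apply]
    congr 2
    ring

end Pool.Agent.TH270.LC
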