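import Mathlib
import Pool.Agent.TH270.LC.Defs

/-!
# Clusters: pigeonhole for trajectories (job LC-J3, for MP_28f8a1_an)
-/

set_option autoImplicit false

open MeasureTheory Set Filter Topology
open scoped ENNReal

noncomputable section

namespace Pool.Agent.TH270.LC

/-- Trajectories which are often close to each other end up in few clusters. -/
theorem clusters {I : Type} [Fintype I] [DecidableEq I] (n J : ℕ) (X : I → ℕ → ℂ) (A : Finset I)
    {R₀ ρ₁ η : ℝ} (hR₀ : 0 ≤ R₀) (S : Finset ℂ)
    (hcov : Metric.closedBall (0 : ℂ) R₀ ⊆ ⋃ c ∈ S, Metric.closedBall c (ρ₁ / 2))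
    (hX : ∀ i ∈ A, ∀ k < n, ‖X i k‖ ≤ R₀)
    (hA : ∀ i ∈ A, ∀ j ∈ A, J ≤ ((Finset.range n).filter fun k => ‖X i k - X j k‖ ≤ ρ₁).card →
      ‖X i n - X j n‖ ≤ η)
    (hJ : J * (S.card + 1) ^ 2 ≤ n) (hη : 0 ≤ η) :
    ∃ L : Finset I, L ⊆ A ∧ L.card ≤ S.card ∧ ∀ i ∈ A, ∃ l ∈ L, ‖X i n - X l n‖ ≤ η := by
  classical
  -- separated subsets
  let sep : Finset I → Prop := fun L => ∀ i ∈ L, ∀ j ∈ L, i ≠ j → η < ‖X i n - X j n‖
  obtain ⟨L, hL, hmax⟩ := Finset.exists_max_image (A.powerset.filter sep) Finset.card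
    ⟨∅, by
      rw [Finset.mem_filter]
      exact ⟨Finset.empty_mem_powerset _, fun i hi => absurd hi (Finset.notMem_empty i)⟩⟩
  rw [Finset.mem_filter, Finset.mem_powerset] at hL
  obtain ⟨hLA, hLsep⟩ := hL
  refine ⟨L, hLA, ?_, ?_⟩
  · by_contra hlt
    rw [not_le] at hlt
    obtain ⟨L', hL', hc⟩ := Finset.exists_subset_card_eq (show S.card + 1 ≤ L.card from hlt)
    have hSne : S.Nonempty := by
      have h0 : (0 : ℂ) ∈ Metric.closedBall (0 : ℂ) R₀ := by simpa using hR₀
      have := hcov h0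
      simp only [Set.mem_iUnion] at this
      obtain ⟨c, hcS, -⟩ := this
      exact ⟨c, hcS⟩
    have hScard : 1 ≤ S.card := hSne.card_pos
    -- the centres
    have hcen : ∀ i ∈ L', ∀ k < n, ∃ c ∈ S, X i k ∈ Metric.closedBall c (ρ₁ / 2) := by
      intro i hi k hk
      have h1 : X i k ∈ Metric.closedBall (0 : ℂ) R₀ := by
        rw [Metric.mem_closedBall, dist_zero_right]
        exact hX i (hLA (hL' hi)) k hk
      have := hcov h1
      simp only [Set.mem_iUnion] at this
      obtain ⟨c, hcS, hb⟩ := this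
      exact ⟨c, hcS, hb⟩
    have hoff : L'.offDiag.Nonempty := by
      obtain ⟨a, ha, b, hb, hab⟩ := Finset.one_lt_card.1 (show 1 < L'.card by omega)
      exact ⟨(a, b), Finset.mem_offDiag.2 ⟨ha, hb, hab⟩⟩
    have hpair : ∀ k, ∃ p : I × I, k < n → p ∈ L'.offDiag ∧ ‖X p.1 k - X p.2 k‖ ≤ ρ₁ := by
      intro k
      by_cases hk : k < n
      · choose! c hcS hcb using fun i hi => hcen i hi k hk
        obtain ⟨i, hi, j, hj, hij, he⟩ := Finset.exists_ne_map_eq_of_card_lt_of_maps_to
          (show S.card < L'.card by omega) (f := c) (fun i hi => hcS i hi)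
        refine ⟨(i, j), fun _ => ⟨Finset.mem_offDiag.2 ⟨hi, hj, hij⟩, ?_⟩⟩
        have h1 := hcb i hi
        have h2 := hcb j hj
        rw [Metric.mem_closedBall] at h1 h2
        rw [← he] at h2
        rw [← dist_eq_norm]
        calc dist (X i k) (X j k) ≤ dist (X i k) (c i) + dist (X j k) (c i) :=
              dist_triangle_right _ _ _
          _ ≤ ρ₁ / 2 + ρ₁ / 2 := add_le_add h1 h2
          _ = ρ₁ := by ring
      · obtain ⟨p, _⟩ := hoff
        exact ⟨p, fun h => absurd h hk⟩
    choose f hf using hpair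
    have hcard : L'.offDiag.card * J ≤ (Finset.range n).card := by
      rw [Finset.card_range]
      refine le_trans ?_ hJ
      have h1 : L'.offDiag.card ≤ (S.card + 1) ^ 2 := by
        rw [Finset.offDiag_card, hc, sq]
        exact Nat.sub_le _ _
      calc L'.offDiag.card * J ≤ (S.card + 1) ^ 2 * J := Nat.mul_le_mul_right _ h1
        _ = _ := Nat.mul_comm _ _
    obtain ⟨⟨i, j⟩, hp, hfib⟩ := Finset.exists_le_card_fiber_of_mul_le_card_of_maps_to
      (f := f) (fun k hk => (hf k (Finset.mem_range.1 hk)).1) hoff hcard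
    obtain ⟨hi, hj, hij⟩ := Finset.mem_offDiag.1 hp
    have hle : J ≤ ((Finset.range n).filter fun k => ‖X i k - X j k‖ ≤ ρ₁).card := by
      refine hfib.trans (Finset.card_le_card ?_)
      intro k hk
      rw [Finset.mem_filter] at hk ⊢
      refine ⟨hk.1, ?_⟩
      have := (hf k (Finset.mem_range.1 hk.1)).2
      rw [hk.2] at this
      exact this
    have h1 := hA i (hLA (hL' hi)) j (hLA (hL' hj)) hle
    have h2 := hLsep i (hL' hi) j (hL' hj) hij
    exact absurd h1 (not_le.2 h2)
  · intro i hi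
    by_cases hiL : i ∈ L
    · exact ⟨i, hiL, by simpa using hη⟩
    · by_contra hc
      push Not at hc
      have hsep : sep (insert i L) := by
        intro a ha b hb hab
        rw [Finset.mem_insert] at ha hb
        rcases ha with rfl | ha <;> rcases hb with rfl | hb
        · exact absurd rfl hab
        · exact hc b hb
        · rw [norm_sub_rev]; exact hc a ha
        · exact hLsep a ha b hb hab
      have h1 := hmax (insert i L) (by
        rw [Finset.mem_filter, Finset.mem_powerset]
        exact ⟨Finset.insert_subset hi hLA, hsep⟩)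
      rw [Finset.card_insert_of_notMem hiL] at h1
      omega

end Pool.Agent.TH270.LC
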