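import Mathlib
import Pool.Agent.TH270.LC.Defs
import Pool.Agent.TH270.LC.Mom
import Pool.Agent.TH270.LC.Defs2
set_option autoImplicit false
open MeasureTheory Set Filter Topology
open scoped ENNReal
noncomputable section
namespace Pool.Agent.TH270.LC

/-- One step doubles the modulus outside the disc of radius `R`. -/
theorem escape_step {E : Type} [TopologicalSpace E] (F : Fam E) (e : ℕ → E) (u : ℕ → ℂ)
    (hu : ∀ k, ‖u k‖ ≤ F.eps) (z : ℂ) (j : ℕ) (hz : F.R ≤ ‖pos F e u z j‖) :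
    2 * ‖pos F e u z j‖ ≤ ‖pos F e u z (j + 1)‖ := by
  have h1 := F.esc (e j) (pos F e u z j) hz
  have h2 := hu j
  rw [pos_succ]
  have h3 := norm_sub_le_norm_add (F.f (e j) (pos F e u z j)) (u j)
  linarith

theorem escape_mono {E : Type} [TopologicalSpace E] (F : Fam E) (e : ℕ → E) (u : ℕ → ℂ)
    (hu : ∀ k, ‖u k‖ ≤ F.eps) (z : ℂ) (j : ℕ) (hz : F.R ≤ ‖pos F e u z j‖) (i : ℕ) :
    ‖pos F e u z j‖ ≤ ‖pos F e u z (j + i)‖ := by
  induction i with
  | zero => simp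
  | succ i ih =>
    have h := escape_step F e u hu z (j + i) (hz.trans ih)
    have h0 := norm_nonneg (pos F e u z (j + i))
    have : ‖pos F e u z (j + (i + 1))‖ = ‖pos F e u z (j + i + 1)‖ := rfl
    rw [this]
    linarith

/-- The composition doubles the modulus outside the disc of radius `R`. -/
theorem escape_comp {E : Type} [TopologicalSpace E] (F : Fam E) (e : ℕ → E) (u : ℕ → ℂ)
    (hu : ∀ k, ‖u k‖ ≤ F.eps) (m : ℕ) (hm : 0 < m) (y : ℂ) (hy : F.R ≤ ‖y‖) :
    2 * ‖y‖ ≤ ‖pos F e u y m‖ := by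
  have h0 : F.R ≤ ‖pos F e u y 0‖ := hy
  have h1 := escape_step F e u hu y 0 h0
  have h2 : F.R ≤ ‖pos F e u y (0 + 1)‖ := by
    have := norm_nonneg (pos F e u y 0)
    linarith
  obtain ⟨i, rfl⟩ : ∃ i, m = 0 + 1 + i := ⟨m - 1, by omega⟩
  exact h1.trans (escape_mono F e u hu y (0 + 1) h2 i)

theorem escape_lemma {E : Type} [TopologicalSpace E] (F : Fam E) (e : ℕ → E) (u : ℕ → ℂ)
    (hu : ∀ k, ‖u k‖ ≤ F.eps) (m : ℕ) (hm : 0 < m) (z : ℂ) (j : ℕ) (hj : j ≤ m)
    (hz : F.R ≤ ‖pos F e u z j‖) :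
    Tendsto (fun k : ℕ => ‖(fun z => pos F e u z m)^[k] z‖) atTop atTop := by
  have hR := F.hR
  have h1 : F.R ≤ ‖pos F e u z m‖ := by
    obtain ⟨i, rfl⟩ : ∃ i, m = j + i := ⟨m - j, by omega⟩
    exact hz.trans (escape_mono F e u hu z j hz i)
  have key : ∀ k : ℕ, F.R ≤ ‖(fun z => pos F e u z m)^[k + 1] z‖ ∧
      (2 : ℝ) ^ k ≤ ‖(fun z => pos F e u z m)^[k + 1] z‖ := by
    intro k
    induction k with
    | zero =>
      refine ⟨by simpa using h1, ?_⟩
      simpa using hR.trans h1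
    | succ k ih =>
      obtain ⟨ih1, ih2⟩ := ih
      rw [Function.iterate_succ_apply']
      have h := escape_comp F e u hu m hm _ ih1
      refine ⟨?_, ?_⟩
      · linarith
      · rw [pow_succ]
        linarith
  rw [← tendsto_add_atTop_iff_nat 1]
  exact tendsto_atTop_mono (fun k => (key k).2)
    (tendsto_pow_atTop_atTop_of_one_lt one_lt_two)

end Pool.Agent.TH270.LC
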