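import Mathlib
import Pool.Agent.TH270.LC.Ball
import Pool.Agent.TH270.LC.Escape
import Pool.Agent.TH270.LC.Clusters
import Pool.Agent.TH270.LC.Closing

set_option autoImplicit false

open MeasureTheory Set Filter Topology
open scoped ENNReal

noncomputable section

namespace Pool.Agent.TH270.LC

/-- `G` is hyperbolic with at most `K` sinks: every critical point escapes or is attracted by one
of the at most `K` attracting periodic points in `Z`. -/
def HypK (G : ℂ → ℂ) (K : ℕ) : Prop :=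
  ∃ Z : Finset ℂ, Z.card ≤ K ∧ ∀ q : ℂ, deriv G q = 0 →
    Tendsto (fun k : ℕ => ‖G^[k] q‖) atTop atTop ∨
    ∃ x ∈ Z, ∃ n : ℕ, 0 < n ∧ G^[n] x = x ∧ ‖deriv (G^[n]) x‖ < 1 ∧
      Tendsto (fun k : ℕ => G^[n * k] q) atTop (𝓝 x)

/-- The pair of trajectories of `x`, `y` is often close but does not merge. -/
def PairEv {E : Type} [TopologicalSpace E] (F : Fam E) (ρ₁ η : ℝ) (J : ℕ) (e : ℕ → E) (u : ℕ → ℂ)
    (x y : ℂ) (n : ℕ) : Prop :=
  (∀ k < n, ‖pos F e u x k‖ ≤ F.R + 1) ∧ (∀ k < n, ‖pos F e u y k‖ ≤ F.R + 1) ∧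
    ‖pos F e u x n‖ ≤ F.R + 1 ∧ ‖pos F e u y n‖ ≤ F.R + 1 ∧
    J ≤ ((Finset.range n).filter fun k => ‖pos F e u x k - pos F e u y k‖ ≤ ρ₁).card ∧
    η < ‖pos F e u x n - pos F e u y n‖

variable {E : Type} [TopologicalSpace E] (F : Fam E)

theorem step_big {e : ℕ → E} {u : ℕ → ℂ} (hu : ∀ k, ‖u k‖ ≤ F.eps) {x : ℂ} {k : ℕ}
    (h : F.R ≤ ‖pos F e u x k‖) : 2 * ‖pos F e u x k‖ ≤ ‖pos F e u x (k + 1)‖ := by
  have h1 := F.esc (e k) _ h
  have h2 : ‖F.f (e k) (pos F e u x k)‖ ≤ ‖pos F e u x (k + 1)‖ + ‖u k‖ := by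
    rw [pos_succ]
    calc ‖F.f (e k) (pos F e u x k)‖ = ‖(F.f (e k) (pos F e u x k) + u k) - u k‖ := by ring_nf
      _ ≤ _ := norm_sub_le _ _
  linarith [hu k]

theorem alive_before {e : ℕ → E} {u : ℕ → ℂ} (hu : ∀ k, ‖u k‖ ≤ F.eps) {x : ℂ} {n k : ℕ}
    (hk : k ≤ n) (h : ‖pos F e u x n‖ ≤ F.R + 1) : ‖pos F e u x k‖ ≤ F.R + 1 := by
  by_contra hc
  push Not at hc
  have : ∀ m, F.R + 1 < ‖pos F e u x (k + m)‖ := by
    intro m
    induction m with
    | zero => exact hc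
    | succ m ih =>
      have h1 := step_big F hu (x := x) (k := k + m) (e := e) (by linarith)
      have hR := F.hR
      have : k + (m + 1) = k + m + 1 := by ring
      rw [this]
      linarith
  have h2 := this (n - k)
  rw [Nat.add_sub_cancel' hk] at h2
  linarith

theorem det {w Λ Λ₂ Cq ρ₀ ρ₁ τ η ρ : ℝ} (hw : 0 < w)
    (hΛ : ∀ a z, ‖z‖ ≤ F.R + 1 → ‖deriv (F.f a) z‖ ≤ Λ)
    (hΛ₂ : ∀ a z, ‖z‖ ≤ F.R + 2 → ‖deriv (F.f a) z‖ ≤ Λ₂)
    (hq : ∀ a z h, ‖z‖ ≤ F.R + 1 → ‖h‖ ≤ 1 →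
      ‖F.f a (z + h) - F.f a z - deriv (F.f a) z * h‖ ≤ Cq * ‖h‖ ^ 2)
    (hρ₀ : 0 < ρ₀) (h1 : Cq * ρ₀ ≤ w) (h2 : (Λ + w) * ρ₀ ≤ 1) (h3 : ρ₀ ≤ 1)
    (hρ : 0 < ρ) (hρ' : ρ ≤ ρ₀) (hτ : 0 < τ) (hη : 0 < η) (hτη : Λ₂ * (τ + η) ≤ ρ / 8)
    (hτη' : τ + η ≤ 1)
    (e : ℕ → E) (u : ℕ → ℂ) (hu : ∀ k, ‖u k‖ ≤ F.eps) (n J : ℕ)
    (S : Finset ℂ) (hS : Metric.closedBall (0 : ℂ) (F.R + 1) ⊆ ⋃ c ∈ S, Metric.closedBall c (ρ₁ / 2))
    (hJ : J * (S.card + 1) ^ 2 ≤ n)
    (𝒢 : Finset ℂ)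
    (h𝒢 : Metric.closedBall (0 : ℂ) (F.R + 1) ⊆ ⋃ c ∈ 𝒢, Metric.closedBall c (ρ / 2))
    (hpair : ∀ g ∈ 𝒢, ∀ g' ∈ 𝒢, ¬ PairEv F ρ₁ η J e u g g' n)
    {M : ℕ} (y : Fin M → ℂ)
    (hy : ∀ q : ℂ, deriv (fun z => F.f (e n) (pos F e u z n)) q = 0 →
        ∃ c, F.f (e n) (pos F e u q n) = y c)
    (hm1 : ∀ c, ∀ g ∈ 𝒢, BadEv F w ρ₀ τ e u g ρ n → ρ / 2 < ‖y c + u n - g‖)
    (hm2 : ∀ g' ∈ 𝒢, ‖pos F e u g' n‖ ≤ F.R + 1 → ∀ g ∈ 𝒢, BadEv F w ρ₀ τ e u g ρ n →
      ρ / 2 < ‖F.f (e n) (pos F e u g' n) + u n - g‖) :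
    HypK (fun z => pos F e u z (n + 1)) S.card := by
  classical
  set G : ℂ → ℂ := fun z => pos F e u z (n + 1) with hG
  have hR := F.hR
  -- the alive grid points
  set A : Finset {g // g ∈ 𝒢} := Finset.univ.filter fun g => ‖pos F e u g.1 n‖ ≤ F.R + 1 with hA
  obtain ⟨L, hLA, hLc, hL⟩ := clusters (I := {g // g ∈ 𝒢}) n J (fun i k => pos F e u i.1 k) A
    (R₀ := F.R + 1) (ρ₁ := ρ₁) (η := η) (by linarith) S hS
    (by
      intro i hi k hk
      exact alive_before F hu hk.le (Finset.mem_filter.1 hi).2)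
    (by
      intro i hi j hj hcard
      by_contra hc
      push Not at hc
      refine hpair i.1 i.2 j.1 j.2 ⟨fun k hk => ?_, fun k hk => ?_, (Finset.mem_filter.1 hi).2,
        (Finset.mem_filter.1 hj).2, hcard, hc⟩
      · exact alive_before F hu hk.le (Finset.mem_filter.1 hi).2
      · exact alive_before F hu hk.le (Finset.mem_filter.1 hj).2)
    hJ hη.le
  set Esc : ℂ → Prop := fun z => ∃ j ≤ n + 1, F.R ≤ ‖pos F e u z j‖ with hEsc
  -- one step from a point near the grid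
  have hstep : ∀ z₀ : ℂ, ‖z₀‖ ≤ F.R + 1 →
      (∀ g ∈ 𝒢, BadEv F w ρ₀ τ e u g ρ n → ρ / 2 < ‖z₀ - g‖) →
      (∀ z ∈ Metric.closedBall z₀ (ρ / 2), Esc z) ∨
      ∃ l ∈ L, ∀ z ∈ Metric.closedBall z₀ (ρ / 2),
        G z ∈ Metric.closedBall (F.f (e n) (pos F e u l.1 n) + u n) (ρ / 8) := by
    intro z₀ hz₀ hbad
    have hmem : z₀ ∈ ⋃ c ∈ 𝒢, Metric.closedBall c (ρ / 2) := h𝒢 (by simpa using hz₀)
    simp only [mem_iUnion, Metric.mem_closedBall, dist_eq_norm] at hmem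
    obtain ⟨g, hg, hzg⟩ := hmem
    have hgood : ¬ BadEv F w ρ₀ τ e u g ρ n := fun hc => absurd (hbad g hg hc) (not_lt.2 hzg)
    have hball := fun z (hz : ‖z - g‖ ≤ ρ) =>
      ball_lemma F hw hΛ hq hρ₀ h1 h2 h3 hρ.le hρ' e u hu g n hgood z hz
    have hnear : ∀ z ∈ Metric.closedBall z₀ (ρ / 2), ‖z - g‖ ≤ ρ := by
      intro z hz
      rw [Metric.mem_closedBall, dist_eq_norm] at hz
      calc ‖z - g‖ = ‖(z - z₀) + (z₀ - g)‖ := by ring_nf
        _ ≤ _ := norm_add_le _ _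
        _ ≤ ρ := by linarith
    by_cases hal : ‖pos F e u g n‖ ≤ F.R + 1
    · right
      have hgA : (⟨g, hg⟩ : {g // g ∈ 𝒢}) ∈ A := by
        rw [hA, Finset.mem_filter]; exact ⟨Finset.mem_univ _, hal⟩
      obtain ⟨l, hl, hgl⟩ := hL _ hgA
      refine ⟨l, hl, fun z hz => ?_⟩
      have h4 := (hball z (hnear z hz)).1 hal
      have hlal : ‖pos F e u l.1 n‖ ≤ F.R + 1 := (Finset.mem_filter.1 (hLA hl)).2
      have h5 : ‖pos F e u z n - pos F e u l.1 n‖ ≤ τ + η := by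
        calc ‖pos F e u z n - pos F e u l.1 n‖
            = ‖(pos F e u z n - pos F e u g n) + (pos F e u g n - pos F e u l.1 n)‖ := by ring_nf
          _ ≤ _ := norm_add_le _ _
          _ ≤ τ + η := by linarith
      rw [Metric.mem_closedBall, dist_eq_norm, hG]
      simp only [pos_succ]
      rw [add_sub_add_right_eq_sub]
      have hconv : Convex ℝ (Metric.closedBall (0 : ℂ) (F.R + 2)) := convex_closedBall _ _
      have h6 := hconv.norm_image_sub_le_of_norm_deriv_le (f := F.f (e n)) (C := Λ₂)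
        (fun x _ => (F.df (e n)) x) (fun x hx => hΛ₂ (e n) x (by simpa using hx))
        (x := pos F e u l.1 n) (y := pos F e u z n) (by simpa using by linarith)
        (by
          rw [mem_closedBall_zero_iff]
          calc ‖pos F e u z n‖ = ‖(pos F e u z n - pos F e u l.1 n) + pos F e u l.1 n‖ := by
                ring_nf
            _ ≤ _ := norm_add_le _ _
            _ ≤ F.R + 2 := by linarith)
      refine h6.trans (le_trans ?_ hτη)
      have hΛ0 : 0 ≤ Λ₂ := (norm_nonneg _).trans (hΛ₂ (e n) 0 (by simp; linarith))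
      exact mul_le_mul_of_nonneg_left h5 hΛ0
    · left
      push Not at hal
      intro z hz
      exact ⟨n, by omega, ((hball z (hnear z hz)).2 hal).le⟩
  -- the finite dynamics
  set p : {l // l ∈ L} → ℂ := fun l => F.f (e n) (pos F e u l.1.1 n) + u n with hp
  have hGd : Differentiable ℂ G := by
    have : ∀ k, Differentiable ℂ fun z => pos F e u z k := by
      intro k
      induction k with
      | zero => exact differentiable_id
      | succ k ih => exact ((F.df (e k)).comp ih).add_const _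
    exact this (n + 1)
  obtain ⟨Z, hZc, hZ⟩ := closing G hGd Esc p (r := ρ / 2) (by positivity) (by
    intro l
    by_cases hl : ‖p l‖ ≤ F.R + 1
    · rcases hstep (p l) hl (fun g hg hb =>
        hm2 l.1.1 l.1.2 (Finset.mem_filter.1 (hLA l.2)).2 g hg hb) with h | ⟨l', hl', h⟩
      · exact Or.inl h
      · refine Or.inr ⟨⟨l', hl'⟩, fun z hz => ?_⟩
        have := h z hz
        rw [show ρ / 2 / 4 = ρ / 8 by ring]
        exact this
    · left
      push Not at hl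
      intro z hz
      rw [Metric.mem_closedBall, dist_eq_norm] at hz
      refine ⟨0, Nat.zero_le _, ?_⟩
      rw [pos_zero]
      have : ‖p l‖ ≤ ‖z‖ + ‖z - p l‖ := by
        calc ‖p l‖ = ‖z - (z - p l)‖ := by ring_nf
          _ ≤ _ := norm_sub_le _ _
      linarith)
  have hescape : ∀ z k, Esc (G^[k] z) → Tendsto (fun k : ℕ => ‖G^[k] z‖) atTop atTop := by
    rintro z k ⟨j, hj, hz⟩
    have h4 := escape_lemma F e u hu (n + 1) (Nat.succ_pos n) (G^[k] z) j hj hz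
    have h5 : Tendsto (fun i : ℕ => ‖G^[i + k] z‖) atTop atTop := by
      refine h4.congr fun i => ?_
      rw [Function.iterate_add_apply]
    exact (tendsto_add_atTop_iff_nat k).1 h5
  refine ⟨Z, hZc.trans ((Fintype.card_coe L).le.trans hLc), fun q hq => ?_⟩
  have hq' : deriv (fun z => F.f (e n) (pos F e u z n)) q = 0 := by
    have h4 : G = fun z => F.f (e n) (pos F e u z n) + u n := rfl
    rw [h4, deriv_add_const] at hq
    exact hq
  obtain ⟨c, hc⟩ := hy q hq'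
  have hGq : G q = y c + u n := by rw [hG]; simp only [pos_succ]; rw [hc]
  by_cases hal : ‖G q‖ ≤ F.R + 1
  · rcases hstep (G q) hal (fun g hg hb => by rw [hGq]; exact hm1 c g hg hb) with h | ⟨l, hl, h⟩
    · left
      refine hescape q 1 ?_
      rw [Function.iterate_one]
      exact h _ (Metric.mem_closedBall_self (by positivity))
    · have h4 : G^[2] q ∈ Metric.closedBall (p ⟨l, hl⟩) (ρ / 2) := by
        have h5 := h (G q) (Metric.mem_closedBall_self (by positivity))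
        rw [Function.iterate_succ_apply, Function.iterate_one]
        exact Metric.closedBall_subset_closedBall (by linarith) h5
      rcases hZ q ⟨2, ⟨l, hl⟩, h4⟩ with ⟨k, hk⟩ | h
      · exact Or.inl (hescape q k hk)
      · exact Or.inr h
  · left
    push Not at hal
    refine hescape q 1 ⟨0, Nat.zero_le _, ?_⟩
    rw [Function.iterate_one, pos_zero]
    linarith

end Pool.Agent.TH270.LC
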