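import Mathlib
import Pool.Agent.TH270.LC.Defs

/-!
# Long compositions: two integrals over the disc (job LC-J2, helper337)
-/

set_option autoImplicit false
open MeasureTheory Set Filter Topology
open scoped ENNReal
noncomputable section
namespace Pool.Agent.TH270.LC

theorem nu_isProb {ε : ℝ} (hε : 0 < ε) : IsProbabilityMeasure (nu ε) := by
  constructor
  unfold nu
  rw [Measure.smul_apply, Measure.restrict_apply_univ, smul_eq_mul]
  exact ENNReal.inv_mul_cancel (Metric.measure_closedBall_pos volume 0 hε).ne'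
    measure_closedBall_lt_top.ne

theorem nuI_ae_lt (ε : ℝ) : ∀ᵐ u ∂(nu ε), ‖u‖ < ε := by
  have h : (nu ε) {u : ℂ | ¬ ‖u‖ < ε} = 0 := by
    unfold nu
    rw [Measure.smul_apply, smul_eq_mul, Measure.restrict_apply']
    · have : {u : ℂ | ¬ ‖u‖ < ε} ∩ Metric.closedBall 0 ε = Metric.sphere 0 ε := by
        ext u
        simp only [mem_inter_iff, mem_ofPred_eq, not_lt, Metric.mem_closedBall, dist_zero_right,
          Metric.mem_sphere]
        constructor
        · rintro ⟨h1, h2⟩; exact le_antisymm h2 h1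
        · intro h1; exact ⟨h1.ge, h1.le⟩
      rw [this, Measure.addHaar_sphere, mul_zero]
    · exact Metric.isClosed_closedBall.measurableSet
  exact h

theorem rad_int {ε : ℝ} (hε : 0 < ε) :
    Integrable (fun u : ℂ => (Iio ε).indicator (fun y : ℝ => (ε - y) ^ (-(1 / 2) : ℝ)) ‖u‖)
      volume := by
  have h1 : IntervalIntegrable (fun x : ℝ => x ^ (-(1 / 2) : ℝ)) volume 0 ε :=
    intervalIntegral.intervalIntegrable_rpow' (by norm_num)
  have h2 : IntervalIntegrable (fun x : ℝ => (ε - x) ^ (-(1 / 2) : ℝ)) volume 0 ε := by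
    have := (h1.comp_sub_left ε).symm
    simpa using this
  have h3 : IntervalIntegrable (fun x : ℝ => x * (ε - x) ^ (-(1 / 2) : ℝ)) volume 0 ε :=
    h2.continuousOn_mul continuous_id.continuousOn
  rw [intervalIntegrable_iff_integrableOn_Ioc_of_le hε.le] at h3
  have h4 := (MeasureTheory.integrable_fun_norm_addHaar (E := ℂ) (volume : Measure ℂ)
    (f := (Iio ε).indicator (fun y : ℝ => (ε - y) ^ (-(1 / 2) : ℝ)))).2 ?_
  · exact h4
  · have e : (fun y : ℝ => y ^ (Module.finrank ℝ ℂ - 1) •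
        (Iio ε).indicator (fun y : ℝ => (ε - y) ^ (-(1 / 2) : ℝ)) y) =
        (Iio ε).indicator (fun y : ℝ => y * (ε - y) ^ (-(1 / 2) : ℝ)) := by
      funext y
      rw [Complex.finrank_real_complex]
      by_cases hy : y ∈ Iio ε
      · simp [indicator_of_mem hy]
      · simp [indicator_of_notMem hy]
    rw [e]
    rw [IntegrableOn, integrable_indicator_iff measurableSet_Iio, IntegrableOn,
      Measure.restrict_restrict measurableSet_Iio]
    have hsub : Iio ε ∩ Ioi 0 ⊆ Ioc 0 ε := fun y hy => ⟨hy.2, le_of_lt hy.1⟩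
    exact h3.mono_set hsub

theorem c1_lt_top {ε : ℝ} (hε : 0 < ε) :
    ∫⁻ u, (ENNReal.ofReal (ε - ‖u‖)) ^ (-(1/2) : ℝ) ∂(nu ε) < ∞ := by
  have h1 : ∫⁻ u, (ENNReal.ofReal (ε - ‖u‖)) ^ (-(1/2) : ℝ) ∂(nu ε) =
      ∫⁻ u, ENNReal.ofReal ((Iio ε).indicator (fun y : ℝ => (ε - y) ^ (-(1 / 2) : ℝ)) ‖u‖)
        ∂(nu ε) := by
    refine lintegral_congr_ae ?_
    filter_upwards [nuI_ae_lt ε] with u hu
    rw [indicator_of_mem (show ‖u‖ ∈ Iio ε from hu), ENNReal.ofReal_rpow_of_pos (by linarith)]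
  rw [h1]
  unfold nu
  rw [lintegral_smul_measure, smul_eq_mul]
  refine ENNReal.mul_lt_top ?_ ?_
  · exact ENNReal.inv_lt_top.2 (Metric.measure_closedBall_pos volume 0 hε)
  · refine (lintegral_mono' Measure.restrict_le_self le_rfl).trans_lt ?_
    refine (lintegral_mono fun u => ?_).trans_lt (rad_int hε).2
    rw [Real.enorm_eq_ofReal_abs]
    exact ENNReal.ofReal_le_ofReal (le_abs_self _)

theorem theta_lt_one {ε r : ℝ} (hε : 0 < ε) (hr : 0 < r) :
    ∫⁻ u, (ENNReal.ofReal (1 + (ε - ‖u‖) / (2 * r))) ^ (-(1/2) : ℝ) ∂(nu ε) < 1 := by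
  have := nu_isProb hε
  have hlt : ∀ᵐ u ∂(nu ε), (ENNReal.ofReal (1 + (ε - ‖u‖) / (2 * r))) ^ (-(1/2) : ℝ) <
      (1 : ℝ≥0∞) := by
    filter_upwards [nuI_ae_lt ε] with u hu
    have h1 : 0 < (ε - ‖u‖) / (2 * r) := div_pos (by linarith) (by positivity)
    rw [ENNReal.ofReal_rpow_of_pos (by linarith)]
    rw [← ENNReal.ofReal_one]
    rw [ENNReal.ofReal_lt_ofReal_iff one_pos]
    exact Real.rpow_lt_one_of_one_lt_of_neg (by linarith) (by norm_num)
  have hfin : ∫⁻ u, (ENNReal.ofReal (1 + (ε - ‖u‖) / (2 * r))) ^ (-(1/2) : ℝ) ∂(nu ε) ≠ ∞ := by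
    refine ne_of_lt (lt_of_le_of_lt (lintegral_mono_ae (hlt.mono fun u hu => hu.le)) ?_)
    simp
  have := lintegral_strict_mono (μ := nu ε) (IsProbabilityMeasure.ne_zero _)
    (g := fun _ => (1 : ℝ≥0∞)) aemeasurable_const hfin hlt
  simpa using this

end Pool.Agent.TH270.LC
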