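import Mathlib
import Pool.Agent.TH270.LC.Defs

/-!
# The path bound: Cauchy estimate for adaptively perturbed trajectories (job LC-J1, for MP_28f8a1_an)
-/

set_option autoImplicit false

open MeasureTheory Set Filter Topology
open scoped ENNReal

noncomputable section

namespace Pool.Agent.TH270.LC

theorem path_congr {E : Type} [TopologicalSpace E] (F : Fam E) (e : ℕ → E) (u u' : ℕ → ℂ) (x : ℂ)
    (k : ℕ) (h : ∀ j < k, u j = u' j) : pos F e u x k = pos F e u' x k := by
  induction k with
  | zero => rfl
  | succ k ih =>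
    rw [pos_succ, pos_succ, ih (fun j hj => h j (by omega)), h k (by omega)]

/-- the next point of a trajectory without the next noise -/
theorem path_next {E : Type} [TopologicalSpace E] (F : Fam E) {r : ℝ} {n : ℕ} {e : ℕ → E} {z : ℂ}
    (H : AllAlive F r n e z) (v : ℕ → ℂ) {j : ℕ} (hj : j < n) (hv : ∀ i < j, ‖v i‖ ≤ F.eps) :
    ‖F.f (e j) (pos F e v z j)‖ ≤ r := by
  have h1 := H (fun i => if i < j then v i else 0) (by
    intro k
    split_ifs with hk
    · exact hv k hk
    · rw [norm_zero]; exact F.heps.le) (j + 1) (by omega)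
  rw [pos_succ, path_congr F e (fun i => if i < j then v i else 0) v z j
    (fun i hi => by simp only [hi, if_true])] at h1
  simpa using h1

/-- **The path bound.** -/
theorem path_bound {E : Type} [TopologicalSpace E] (F : Fam E) {r : ℝ} (hr : 0 < r) (n : ℕ)
    (e : ℕ → E) (z : ℂ) {t : ℝ} (ht : 0 < t)
    (H : ∀ z' ∈ Metric.closedBall z t, AllAlive F r n e z')
    (u : ℕ → ℂ) (hu : ∀ k, ‖u k‖ ≤ F.eps) :
    t * ∏ k ∈ Finset.range n, ((1 + (F.eps - ‖u k‖) / (2 * r)) * ‖deriv (F.f (e k)) (pos F e u z k)‖)
      ≤ r := by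
  obtain ⟨η, hη⟩ : ∃ η : ℕ → ℝ, ∀ k, η k = (F.eps - ‖u k‖) / (2 * r) := ⟨_, fun _ => rfl⟩
  have hη0 : ∀ k, 0 ≤ η k := fun k => by
    rw [hη]; exact div_nonneg (sub_nonneg.2 (hu k)) (by positivity)
  -- the perturbed trajectories
  let y : ℕ → ℂ → ℂ := fun k => Nat.rec (fun ζ => z + t * ζ)
    (fun k yk ζ => F.f (e k) (yk ζ) + u k + η k * (F.f (e k) (yk ζ) - F.f (e k) (pos F e u z k))) k
  have y0 : ∀ ζ, y 0 ζ = z + t * ζ := fun _ => rfl
  have ys : ∀ k ζ, y (k + 1) ζ =
      F.f (e k) (y k ζ) + u k + η k * (F.f (e k) (y k ζ) - F.f (e k) (pos F e u z k)) :=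
    fun _ _ => rfl
  have yz : ∀ k, y k 0 = pos F e u z k := by
    intro k
    induction k with
    | zero => rw [y0]; simp [pos_zero]
    | succ k ih => rw [ys, ih, pos_succ]; ring
  have yd : ∀ k, Differentiable ℂ (y k) := by
    intro k
    induction k with
    | zero =>
      have : y 0 = fun ζ => z + t * ζ := rfl
      rw [this]
      exact (differentiable_const _).add (differentiable_id.const_mul _)
    | succ k ih =>
      have h1 : y (k + 1) = fun ζ => F.f (e k) (y k ζ) + u k +
        η k * (F.f (e k) (y k ζ) - F.f (e k) (pos F e u z k)) := rfl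
      rw [h1]
      have h2 : Differentiable ℂ fun ζ => F.f (e k) (y k ζ) := (F.df (e k)).comp ih
      exact (h2.add_const _).add ((h2.sub_const _).const_mul _)
  have yder : ∀ k, HasDerivAt (y k) (t * ∏ j ∈ Finset.range k,
      ((1 + η j) * deriv (F.f (e j)) (pos F e u z j))) 0 := by
    intro k
    induction k with
    | zero =>
      have h1 : y 0 = fun ζ => z + t * ζ := rfl
      rw [h1, Finset.prod_range_zero, mul_one]
      simpa using ((hasDerivAt_id (0 : ℂ)).const_mul (t : ℂ)).const_add z
    | succ k ih =>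
      have h1 : y (k + 1) = fun ζ => F.f (e k) (y k ζ) + u k +
        η k * (F.f (e k) (y k ζ) - F.f (e k) (pos F e u z k)) := rfl
      rw [h1]
      have h2 : HasDerivAt (fun ζ => F.f (e k) (y k ζ)) (deriv (F.f (e k)) (pos F e u z k) *
          (t * ∏ j ∈ Finset.range k, ((1 + η j) * deriv (F.f (e j)) (pos F e u z j)))) 0 := by
        have h3 : HasDerivAt (F.f (e k)) (deriv (F.f (e k)) (pos F e u z k)) (y k 0) := by
          rw [yz]; exact (F.df (e k) _).hasDerivAt
        exact h3.comp 0 ih
      have h4 := (h2.add_const (u k)).fun_add ((h2.sub_const (F.f (e k) (pos F e u z k))).const_mul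
        (η k : ℂ))
      have h5 : (t : ℂ) * ∏ j ∈ Finset.range (k + 1),
          ((1 + η j) * deriv (F.f (e j)) (pos F e u z j)) =
          deriv (F.f (e k)) (pos F e u z k) *
            (t * ∏ j ∈ Finset.range k, ((1 + η j) * deriv (F.f (e j)) (pos F e u z j))) +
          η k * (deriv (F.f (e k)) (pos F e u z k) *
            (t * ∏ j ∈ Finset.range k, ((1 + η j) * deriv (F.f (e j)) (pos F e u z j)))) := by
        rw [Finset.prod_range_succ]
        ring
      rw [h5]
      exact h4
  -- the bound
  have hb : ∀ ζ : ℂ, ‖ζ‖ ≤ 1 → ‖y n ζ‖ ≤ r := by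
    intro ζ hζ
    have hz' : z + t * ζ ∈ Metric.closedBall z t := by
      rw [Metric.mem_closedBall, dist_eq_norm, add_sub_cancel_left, norm_mul, Complex.norm_real,
        Real.norm_eq_abs, abs_of_pos ht]
      exact mul_le_of_le_one_right ht.le hζ
    obtain ⟨v, hv⟩ : ∃ v : ℕ → ℂ, ∀ j, v j = u j +
        η j * (F.f (e j) (y j ζ) - F.f (e j) (pos F e u z j)) := ⟨_, fun _ => rfl⟩
    have hyv : ∀ k, y k ζ = pos F e v (z + t * ζ) k := by
      intro k
      induction k with
      | zero => rw [y0, pos_zero]
      | succ k ih => rw [ys, pos_succ, hv, ← ih]; ring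
    have hvb : ∀ j ≤ n, ∀ i < j, ‖v i‖ ≤ F.eps := by
      intro j
      induction j with
      | zero => intro _ i hi; omega
      | succ j ih =>
        intro hj i hi
        rcases Nat.lt_succ_iff_lt_or_eq.1 hi with hi | rfl
        · exact ih (by omega) i hi
        · have h1 := path_next F (H _ hz') v (by omega : i < n) (ih (by omega))
          have h2 := path_next F (H z (Metric.mem_closedBall_self ht.le)) u (by omega : i < n)
            (fun i _ => hu i)
          rw [← hyv] at h1
          rw [hv]
          calc ‖u i + η i * (F.f (e i) (y i ζ) - F.f (e i) (pos F e u z i))‖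
              ≤ ‖u i‖ + ‖(η i : ℂ) * (F.f (e i) (y i ζ) - F.f (e i) (pos F e u z i))‖ :=
                norm_add_le _ _
            _ = ‖u i‖ + η i * ‖F.f (e i) (y i ζ) - F.f (e i) (pos F e u z i)‖ := by
                rw [norm_mul, Complex.norm_real, Real.norm_eq_abs, abs_of_nonneg (hη0 i)]
            _ ≤ ‖u i‖ + η i * (r + r) := by
                have := hη0 i
                gcongr
                exact (norm_sub_le _ _).trans (add_le_add h1 h2)
            _ = F.eps := by
                rw [hη]
                field_simp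
                ring
    have h1 := H _ hz' (fun i => if i < n then v i else 0) (by
      intro k
      split_ifs with hk
      · exact hvb n le_rfl k hk
      · rw [norm_zero]; exact F.heps.le) n le_rfl
    rwa [path_congr F e (fun i => if i < n then v i else 0) v _ n
      (fun i hi => by simp only [hi, if_true]), ← hyv] at h1
  have hC := Complex.norm_deriv_le_of_forall_mem_sphere_norm_le (c := (0 : ℂ)) (f := y n)
    (one_pos) ((yd n).diffContOnCl) (fun ζ hζ => hb ζ (by
      rw [mem_sphere_zero_iff_norm] at hζ; exact hζ.le))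
  rw [(yder n).deriv, div_one, norm_mul, Complex.norm_real, Real.norm_eq_abs, abs_of_pos ht,
    norm_prod] at hC
  refine le_trans (le_of_eq ?_) hC
  congr 1
  apply Finset.prod_congr rfl
  intro k _
  rw [norm_mul, ← hη]
  congr 1
  have h1 : (1 : ℂ) + (η k : ℂ) = ((1 + η k : ℝ) : ℂ) := by push_cast; rfl
  rw [h1, Complex.norm_real, Real.norm_eq_abs, abs_of_nonneg (by linarith [hη0 k])]

end Pool.Agent.TH270.LC
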