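import Mathlib
import Pool.Agent.TH270.LC.Defs
set_option autoImplicit false
open MeasureTheory Set Filter Topology
open scoped ENNReal
noncomputable section
namespace Pool.Agent.TH270.LC

namespace PsiCont

theorem nu_prob {ε : ℝ} (hε : 0 < ε) : IsProbabilityMeasure (nu ε) := by
  constructor
  unfold nu
  rw [Measure.smul_apply, Measure.restrict_apply_univ, smul_eq_mul]
  apply ENNReal.inv_mul_cancel
  · exact (Metric.measure_closedBall_pos volume 0 hε).ne'
  · exact measure_closedBall_lt_top.ne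

variable {E : Type} [TopologicalSpace E]

theorem deriv_bound [CompactSpace E] (F : Fam E) (r : ℝ) :
    ∃ Λ : ℝ, 0 ≤ Λ ∧ ∀ a x, ‖x‖ ≤ r → ‖deriv (F.f a) x‖ ≤ Λ := by
  have hK : IsCompact ((Set.univ : Set E) ×ˢ (Metric.closedBall (0 : ℂ) r)) :=
    isCompact_univ.prod (isCompact_closedBall 0 r)
  obtain ⟨C, hC⟩ := hK.exists_bound_of_continuousOn F.cd.continuousOn
  refine ⟨max C 0, le_max_right _ _, ?_⟩
  intro a x hx
  exact (hC (a, x) ⟨Set.mem_univ _, by simpa using hx⟩).trans (le_max_left _ _)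

theorem Psi_bound (F : Fam E) (χ : ℂ → ℝ≥0∞) (hχ1 : ∀ x, χ x ≤ 1) (r : ℝ)
    (hr : ∀ x, r < ‖x‖ → χ x = 0) (s : ℝ) (hs : 0 < s) {Λ w0 : ℝ}
    (hΛ : ∀ a x, ‖x‖ ≤ r → ‖deriv (F.f a) x‖ ≤ Λ) (n : ℕ) : ∀ (e : ℕ → E) (x : ℂ) (w : ℝ),
    w ≤ w0 → Psi F χ s w n e x ≤ (ENNReal.ofReal (Λ + w0) ^ s) ^ n := by
  have := nu_prob F.heps
  induction n with
  | zero =>
    intro e x w _
    rw [pow_zero]
    exact hχ1 x
  | succ n ih =>
    intro e x w hw
    rw [Psi]
    by_cases hx : r < ‖x‖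
    · rw [hr x hx, zero_mul, zero_mul]
      exact zero_le
    · push Not at hx
      rw [pow_succ']
      refine mul_le_mul' ?_ ?_
      · calc χ x * ENNReal.ofReal (‖deriv (F.f (e 0)) x‖ + w) ^ s
            ≤ 1 * ENNReal.ofReal (Λ + w0) ^ s := by
              refine mul_le_mul' (hχ1 x) ?_
              refine ENNReal.rpow_le_rpow ?_ hs.le
              exact ENNReal.ofReal_le_ofReal (add_le_add (hΛ _ _ hx) hw)
          _ = _ := one_mul _
      · calc ∫⁻ u, Psi F χ s w n (sh e) (F.f (e 0) x + u) ∂(nu F.eps)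
            ≤ ∫⁻ _, (ENNReal.ofReal (Λ + w0) ^ s) ^ n ∂(nu F.eps) :=
              lintegral_mono fun u => ih _ _ _ hw
          _ = _ := by rw [lintegral_const, measure_univ, mul_one]

theorem pow_fin (a s : ℝ) (hs : 0 < s) (n : ℕ) : (ENNReal.ofReal a ^ s) ^ n ≠ ∞ :=
  ENNReal.pow_ne_top (ENNReal.rpow_ne_top_of_nonneg hs.le ENNReal.ofReal_ne_top)

end PsiCont

open PsiCont in
theorem Psi_cont {E : Type} [TopologicalSpace E] [CompactSpace E] [FirstCountableTopology E]
    (F : Fam E) (χ : ℂ → ℝ≥0∞) (hχ : Continuous χ)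
    (hχ1 : ∀ x, χ x ≤ 1) (r : ℝ) (hr : ∀ x, r < ‖x‖ → χ x = 0) (s : ℝ) (hs : 0 < s) (n : ℕ) :
    Continuous fun p : (ℕ → E) × ℂ × ℝ => Psi F χ s p.2.2 n p.1 p.2.1 := by
  have hprob := nu_prob F.heps
  obtain ⟨Λ, hΛ0, hΛ⟩ := deriv_bound F r
  induction n with
  | zero =>
    simp only [Psi]
    exact hχ.comp (continuous_fst.comp continuous_snd)
  | succ n ih =>
    have hsh : Continuous fun e : ℕ → E => sh e :=
      continuous_pi fun k => continuous_apply (k + 1)
    have hf : Continuous fun p : (ℕ → E) × ℂ × ℝ => F.f (p.1 0) p.2.1 := by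
      have h : Continuous fun p : (ℕ → E) × ℂ × ℝ => (p.1 0, p.2.1) :=
        ((continuous_apply 0).comp continuous_fst).prodMk (continuous_fst.comp continuous_snd)
      exact F.cf.comp h
    have hd : Continuous fun p : (ℕ → E) × ℂ × ℝ => deriv (F.f (p.1 0)) p.2.1 := by
      have h : Continuous fun p : (ℕ → E) × ℂ × ℝ => (p.1 0, p.2.1) :=
        ((continuous_apply 0).comp continuous_fst).prodMk (continuous_fst.comp continuous_snd)
      exact F.cd.comp h
    have hA : Continuous fun p : (ℕ → E) × ℂ × ℝ =>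
        ENNReal.ofReal (‖deriv (F.f (p.1 0)) p.2.1‖ + p.2.2) ^ s := by
      refine ENNReal.continuous_rpow_const.comp (ENNReal.continuous_ofReal.comp ?_)
      exact hd.norm.add (continuous_snd.comp continuous_snd)
    have hI : Continuous fun p : (ℕ → E) × ℂ × ℝ =>
        ∫⁻ u, Psi F χ s p.2.2 n (sh p.1) (F.f (p.1 0) p.2.1 + u) ∂(nu F.eps) := by
      rw [continuous_iff_continuousAt]
      intro p
      refine tendsto_lintegral_filter_of_dominated_convergence
        (fun _ => (ENNReal.ofReal (Λ + (p.2.2 + 1)) ^ s) ^ n) ?_ ?_ ?_ ?_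
      · refine Eventually.of_forall fun q => Continuous.measurable ?_
        have h : Continuous fun u : ℂ => (sh q.1, F.f (q.1 0) q.2.1 + u, q.2.2) := by
          fun_prop
        exact ih.comp h
      · have h : ∀ᶠ q : (ℕ → E) × ℂ × ℝ in 𝓝 p, q.2.2 < p.2.2 + 1 := by
          have hc : Continuous fun q : (ℕ → E) × ℂ × ℝ => q.2.2 :=
            continuous_snd.comp continuous_snd
          exact hc.continuousAt.eventually_lt continuousAt_const (by simp)
        filter_upwards [h] with q hq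
        exact Eventually.of_forall fun u => Psi_bound F χ hχ1 r hr s hs hΛ n _ _ _ hq.le
      · rw [lintegral_const, measure_univ, mul_one]
        exact pow_fin _ s hs n
      · refine Eventually.of_forall fun u => ?_
        have h : Continuous fun q : (ℕ → E) × ℂ × ℝ =>
            (sh q.1, F.f (q.1 0) q.2.1 + u, q.2.2) :=
          (hsh.comp continuous_fst).prodMk
            ((hf.add continuous_const).prodMk (continuous_snd.comp continuous_snd))
        exact (ih.comp h).continuousAt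
    simp only [Psi]
    rw [continuous_iff_continuousAt]
    intro p
    have hχp : Continuous fun p : (ℕ → E) × ℂ × ℝ => χ p.2.1 :=
      hχ.comp (continuous_fst.comp continuous_snd)
    have h1 : χ p.2.1 ≠ ∞ := ne_top_of_le_ne_top ENNReal.one_ne_top (hχ1 _)
    have h2 : ENNReal.ofReal (‖deriv (F.f (p.1 0)) p.2.1‖ + p.2.2) ^ s ≠ ∞ :=
      ENNReal.rpow_ne_top_of_nonneg hs.le ENNReal.ofReal_ne_top
    have h3 : ∫⁻ u, Psi F χ s p.2.2 n (sh p.1) (F.f (p.1 0) p.2.1 + u) ∂(nu F.eps) ≠ ∞ := by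
      refine ne_top_of_le_ne_top (pow_fin (Λ + p.2.2) s hs n) ?_
      calc ∫⁻ u, Psi F χ s p.2.2 n (sh p.1) (F.f (p.1 0) p.2.1 + u) ∂(nu F.eps)
          ≤ ∫⁻ _, (ENNReal.ofReal (Λ + p.2.2) ^ s) ^ n ∂(nu F.eps) :=
            lintegral_mono fun u => Psi_bound F χ hχ1 r hr s hs hΛ n _ _ _ le_rfl
        _ = _ := by rw [lintegral_const, measure_univ, mul_one]
    exact ENNReal.Tendsto.mul
      (ENNReal.Tendsto.mul hχp.continuousAt (Or.inr h2) hA.continuousAt (Or.inr h1))
      (Or.inr h3) hI.continuousAt (Or.inr (ENNReal.mul_ne_top h1 h2))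

end Pool.Agent.TH270.LC
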