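import Mathlib
import Pool.Agent.TH270.LC.Defs
import Pool.Agent.TH270.LC.Mom
import Pool.Agent.TH270.LC.Path
import Pool.Agent.TH270.LC.PsiCont
import Pool.Agent.TH270.LC.Integrals

set_option autoImplicit false

open MeasureTheory Set Filter Topology
open scoped ENNReal

noncomputable section

namespace Pool.Agent.TH270.LC

variable {E : Type} [TopologicalSpace E] (F : Fam E)

theorem Psi_mono_chi {χ χ' : ℂ → ℝ≥0∞} (h : ∀ x, χ x ≤ χ' x) (s w : ℝ) (n : ℕ) (e : ℕ → E)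
    (x : ℂ) : Psi F χ s w n e x ≤ Psi F χ' s w n e x := by
  induction n generalizing e x with
  | zero => exact h x
  | succ n ih =>
    rw [Psi_succ, Psi_succ]
    gcongr with u
    · exact h x
    · exact ih _ _

theorem Psi_mono_w {χ : ℂ → ℝ≥0∞} {s w w' : ℝ} (hs : 0 ≤ s) (h : w ≤ w') (n : ℕ) (e : ℕ → E)
    (x : ℂ) : Psi F χ s w n e x ≤ Psi F χ s w' n e x := by
  induction n generalizing e x with
  | zero => exact le_rfl
  | succ n ih =>
    rw [Psi_succ, Psi_succ]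
    gcongr with u
    exact ih _ _

theorem jensen {μ : Measure ℂ} [IsProbabilityMeasure μ] {f : ℂ → ℝ≥0∞} (hf : AEMeasurable f μ)
    {a : ℝ} (ha : 0 < a) (ha1 : a ≤ 1) : ∫⁻ u, f u ^ a ∂μ ≤ (∫⁻ u, f u ∂μ) ^ a := by
  rcases eq_or_lt_of_le ha1 with h | h
  · subst h; simp
  · have hpq : (1 / a).HolderConjugate (1 / (1 - a)) := by
      rw [Real.holderConjugate_iff]
      constructor
      · rw [lt_div_iff₀ ha]; linarith
      · simp
    have := ENNReal.lintegral_mul_le_Lp_mul_Lq μ hpq (hf.pow_const a)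
      (aemeasurable_const (b := (1 : ℝ≥0∞)))
    simp only [Pi.mul_apply, mul_one, one_div, inv_inv, ENNReal.one_rpow, lintegral_const,
      measure_univ] at this
    refine this.trans (le_of_eq ?_)
    congr 1
    refine lintegral_congr fun u => ?_
    rw [← ENNReal.rpow_mul, mul_inv_cancel₀ ha.ne', ENNReal.rpow_one]

theorem Psi_jensen {χ : ℂ → ℝ≥0∞} (hm : Measurable χ) (hχ : ∀ x, χ x ≤ 1) {s w a : ℝ}
    (ha : 0 < a) (ha1 : a ≤ 1) (n : ℕ) (e : ℕ → E) (x : ℂ) :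
    Psi F χ (a * s) w n e x ≤ Psi F χ s w n e x ^ a := by
  have := nu_prob F.heps
  have hχa : ∀ x, χ x ≤ χ x ^ a := fun x => by
    have := ENNReal.rpow_le_rpow_of_exponent_ge (hχ x) ha1
    rwa [ENNReal.rpow_one] at this
  induction n generalizing e x with
  | zero => exact hχa x
  | succ n ih =>
    rw [Psi_succ, Psi_succ, ENNReal.mul_rpow_of_nonneg _ _ ha.le,
      ENNReal.mul_rpow_of_nonneg _ _ ha.le, ← ENNReal.rpow_mul, mul_comm s a]
    have h1 : ∫⁻ u, Psi F χ (a * s) w n (sh e) (F.f (e 0) x + u) ∂(nu F.eps) ≤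
        (∫⁻ u, Psi F χ s w n (sh e) (F.f (e 0) x + u) ∂(nu F.eps)) ^ a :=
      (lintegral_mono fun u => ih _ _).trans (jensen
        ((Psi_meas F hm s w n (sh e)).comp (measurable_const.add measurable_id)).aemeasurable
        ha ha1)
    gcongr
    exact hχa x

/-- The continuous cutoff. -/
def cut (R : ℝ) (x : ℂ) : ℝ≥0∞ := ENNReal.ofReal (min 1 (R + 2 - ‖x‖))

theorem cut_cont (R : ℝ) : Continuous (cut R) :=
  ENNReal.continuous_ofReal.comp (continuous_const.min (continuous_const.sub continuous_norm))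

theorem cut_le_one (R : ℝ) (x : ℂ) : cut R x ≤ 1 := by
  rw [cut, ← ENNReal.ofReal_one]
  exact ENNReal.ofReal_le_ofReal (min_le_left _ _)

theorem ind_le_cut (R : ℝ) (x : ℂ) : ind (R + 1) x ≤ cut R x := by
  by_cases h : ‖x‖ ≤ R + 1
  · rw [ind_of_le h, cut, min_eq_left (by linarith), ENNReal.ofReal_one]
  · push Not at h
    rw [ind_of_lt h]; exact bot_le

theorem cut_le_ind (R : ℝ) (x : ℂ) : cut R x ≤ ind (R + 2) x := by
  by_cases h : ‖x‖ ≤ R + 2
  · rw [ind_of_le h]; exact cut_le_one R x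
  · push Not at h
    rw [cut, ENNReal.ofReal_of_nonpos ((min_le_right _ _).trans (by linarith))]
    exact bot_le

theorem deriv_bound [CompactSpace E] (r : ℝ) :
    ∃ Λ : ℝ, 1 ≤ Λ ∧ ∀ a z, ‖z‖ ≤ r → ‖deriv (F.f a) z‖ ≤ Λ := by
  have hK : IsCompact ((univ : Set E) ×ˢ Metric.closedBall (0 : ℂ) r) :=
    isCompact_univ.prod (isCompact_closedBall _ _)
  obtain ⟨C, hC⟩ := (hK.image (F.cd.norm)).bddAbove
  refine ⟨max 1 C, le_max_left _ _, fun a z hz => ?_⟩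
  refine le_trans (hC ⟨(a, z), ⟨mem_univ _, by simpa using hz⟩, rfl⟩) (le_max_right _ _)

/-- The moment inequality, uniformly in the environment and the starting point. -/
theorem uniform [CompactSpace E] [FirstCountableTopology E] :
    ∃ (N : ℕ) (s w : ℝ) (κ : ℝ≥0∞), 0 < s ∧ s ≤ 1 ∧ 0 < w ∧ κ < 1 ∧
      ∀ e x, Psi F (ind (F.R + 1)) s w (N + 1) e x ≤ κ := by
  obtain ⟨Λ, hΛ1, hΛ⟩ := deriv_bound F (F.R + 2)
  have hr : 0 < F.R + 2 := by linarith [F.hR]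
  set θ := ∫⁻ u, (ENNReal.ofReal (1 + (F.eps - ‖u‖) / (2 * (F.R + 2)))) ^ (-(1/2) : ℝ) ∂(nu F.eps)
    with hθ
  have hθ1 : θ < 1 := theta_lt_one F.heps hr
  set c := ∫⁻ u, (ENNReal.ofReal (F.eps - ‖u‖)) ^ (-(1/2) : ℝ) ∂(nu F.eps) with hc
  have hc1 : c < ∞ := c1_lt_top F.heps
  obtain ⟨N, hN⟩ : ∃ N : ℕ, ENNReal.ofReal Λ ^ (1 / 2 : ℝ) * (θ ^ N *
      (ENNReal.ofReal (F.R + 2) ^ (1 / 2 : ℝ) * c)) < 1 := by
    have h1 : Tendsto (fun N : ℕ => ENNReal.ofReal Λ ^ (1 / 2 : ℝ) * (θ ^ N *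
      (ENNReal.ofReal (F.R + 2) ^ (1 / 2 : ℝ) * c))) atTop (𝓝 (ENNReal.ofReal Λ ^ (1 / 2 : ℝ) * (0 *
      (ENNReal.ofReal (F.R + 2) ^ (1 / 2 : ℝ) * c)))) := by
      refine ENNReal.Tendsto.const_mul (ENNReal.Tendsto.mul_const
        (ENNReal.tendsto_pow_atTop_nhds_zero_of_lt_one hθ1) (Or.inr ?_)) (Or.inr ?_)
      · exact ENNReal.mul_ne_top (ENNReal.rpow_ne_top_of_nonneg (by norm_num)
          ENNReal.ofReal_ne_top) hc1.ne
      · exact ENNReal.rpow_ne_top_of_nonneg (by norm_num) ENNReal.ofReal_ne_top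
    rw [zero_mul, mul_zero] at h1
    exact (h1.eventually (gt_mem_nhds one_pos)).exists
  have hpw := pointwise F hr hΛ1 hΛ N
    (fun e z t ht H u hu => path_bound F hr N e z ht H u hu) hN
  have hmeas : Measurable (cut F.R) := (cut_cont F.R).measurable
  -- compactness
  set K : Set ((ℕ → E) × ℂ) := univ ×ˢ Metric.closedBall (0 : ℂ) (F.R + 2) with hKdef
  have hK : IsCompact K := isCompact_univ.prod (isCompact_closedBall _ _)
  have main : ∃ (s w : ℝ) (κ : ℝ≥0∞), 0 < s ∧ s ≤ 1 ∧ 0 < w ∧ κ < 1 ∧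
      ∀ q ∈ K, Psi F (cut F.R) s w (N + 1) q.1 q.2 ≤ κ := by
    refine hK.induction_on (p := fun U => ∃ (s w : ℝ) (κ : ℝ≥0∞), 0 < s ∧ s ≤ 1 ∧ 0 < w ∧ κ < 1 ∧
      ∀ q ∈ U, Psi F (cut F.R) s w (N + 1) q.1 q.2 ≤ κ) ?_ ?_ ?_ ?_
    · exact ⟨1, 1, 0, one_pos, le_rfl, one_pos, one_pos, fun q hq => absurd hq (notMem_empty _)⟩
    · rintro s t hst ⟨a, b, k, h1, h2, h3, h4, h5⟩
      exact ⟨a, b, k, h1, h2, h3, h4, fun q hq => h5 q (hst hq)⟩
    · rintro U₁ U₂ ⟨s₁, w₁, κ₁, a1, b1, c1, d1, e1⟩ ⟨s₂, w₂, κ₂, a2, b2, c2, d2, e2⟩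
      have hs : 0 < min s₁ s₂ := lt_min a1 a2
      refine ⟨min s₁ s₂, min w₁ w₂, max (κ₁ ^ (min s₁ s₂ / s₁)) (κ₂ ^ (min s₁ s₂ / s₂)), hs,
        (min_le_left _ _).trans b1, lt_min c1 c2,
        max_lt (ENNReal.rpow_lt_one d1 (div_pos hs a1)) (ENNReal.rpow_lt_one d2 (div_pos hs a2)),
        ?_⟩
      rintro q (hq | hq)
      · have h1 := Psi_jensen F hmeas (cut_le_one F.R) (s := s₁) (w := min w₁ w₂)
          (div_pos hs a1) ((div_le_one a1).2 (min_le_left _ _)) (N + 1) q.1 q.2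
        rw [div_mul_cancel₀ _ a1.ne'] at h1
        refine h1.trans ((ENNReal.rpow_le_rpow ((Psi_mono_w F a1.le (min_le_left _ _)
          (N + 1) q.1 q.2).trans (e1 q hq)) (div_pos hs a1).le).trans (le_max_left _ _))
      · have h1 := Psi_jensen F hmeas (cut_le_one F.R) (s := s₂) (w := min w₁ w₂)
          (div_pos hs a2) ((div_le_one a2).2 (min_le_right _ _)) (N + 1) q.1 q.2
        rw [div_mul_cancel₀ _ a2.ne'] at h1
        refine h1.trans ((ENNReal.rpow_le_rpow ((Psi_mono_w F a2.le (min_le_right _ _)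
          (N + 1) q.1 q.2).trans (e2 q hq)) (div_pos hs a2).le).trans (le_max_right _ _))
    · rintro q₀ -
      obtain ⟨s, hs, hs1, hlt⟩ := hpw q₀.1 q₀.2
      have hlt' : Psi F (cut F.R) s 0 (N + 1) q₀.1 q₀.2 < 1 :=
        lt_of_le_of_lt (Psi_mono_chi F (cut_le_ind F.R) s 0 (N + 1) _ _) hlt
      obtain ⟨κ, hκ1, hκ2⟩ := exists_between hlt'
      have hcont := Psi_cont F (cut F.R) (cut_cont F.R) (cut_le_one F.R) (F.R + 2)
        (fun x hx => by
          rw [cut, ENNReal.ofReal_of_nonpos ((min_le_right _ _).trans (by linarith))]) s hs (N + 1)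
      have hcont2 : Continuous fun p : ((ℕ → E) × ℂ) × ℝ =>
          Psi F (cut F.R) s p.2 (N + 1) p.1.1 p.1.2 :=
        hcont.comp (((continuous_fst.comp continuous_fst)).prodMk
          ((continuous_snd.comp continuous_fst).prodMk continuous_snd))
      have hev : ∀ᶠ p : ((ℕ → E) × ℂ) × ℝ in 𝓝 (q₀, (0 : ℝ)),
          Psi F (cut F.R) s p.2 (N + 1) p.1.1 p.1.2 < κ :=
        (hcont2.tendsto (q₀, (0 : ℝ))).eventually (gt_mem_nhds hκ1)
      rw [nhds_prod_eq, eventually_prod_iff] at hev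
      obtain ⟨pa, ha, pb, hb, hab⟩ := hev
      obtain ⟨δ, hδ, hb'⟩ := Metric.eventually_nhds_iff.1 hb
      refine ⟨{q | pa q}, mem_nhdsWithin_of_mem_nhds ha, s, δ / 2, κ, hs, by linarith,
        by positivity, hκ2, fun q hq => ?_⟩
      refine (hab hq (hb' (y := δ / 2) ?_)).le
      rw [Real.dist_eq, sub_zero, abs_of_pos (by positivity)]
      linarith
  obtain ⟨s, w, κ, h1, h2, h3, h4, h5⟩ := main
  refine ⟨N, s, w, κ, h1, h2, h3, h4, fun e x => ?_⟩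
  by_cases hx : ‖x‖ ≤ F.R + 2
  · exact (Psi_mono_chi F (ind_le_cut F.R) s w (N + 1) e x).trans
      (h5 (e, x) ⟨mem_univ _, by simpa using hx⟩)
  · push Not at hx
    rw [Psi_le_chi F _ _ _ _ _ (ind_of_lt (by linarith))]
    exact bot_le

end Pool.Agent.TH270.LC
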