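import Mathlib
import Pool.Agent.TH270.LC.Cpt

set_option autoImplicit false

open MeasureTheory Set Filter Topology
open scoped ENNReal

noncomputable section

namespace Pool.Agent.TH270.LC

variable {E : Type} [TopologicalSpace E] (F : Fam E)

theorem Psi_submul {r s w : ℝ} {k : ℕ} {M : ℝ≥0∞}
    (h : ∀ e x, Psi F (ind r) s w k e x ≤ M) (n : ℕ) (e : ℕ → E) (x : ℂ) :
    Psi F (ind r) s w (n + k) e x ≤ M * Psi F (ind r) s w n e x := by
  induction n generalizing e x with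
  | zero =>
    rw [zero_add, Psi_zero]
    by_cases hx : ‖x‖ ≤ r
    · rw [ind_of_le hx, mul_one]; exact h e x
    · push Not at hx
      rw [Psi_le_chi F _ _ _ _ _ (ind_of_lt hx)]; exact bot_le
  | succ n ih =>
    rw [show n + 1 + k = (n + k) + 1 by ring, Psi_succ, Psi_succ]
    calc ind r x * ENNReal.ofReal (‖deriv (F.f (e 0)) x‖ + w) ^ s *
          ∫⁻ u, Psi F (ind r) s w (n + k) (sh e) (F.f (e 0) x + u) ∂(nu F.eps)
        ≤ ind r x * ENNReal.ofReal (‖deriv (F.f (e 0)) x‖ + w) ^ s *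
          ∫⁻ u, M * Psi F (ind r) s w n (sh e) (F.f (e 0) x + u) ∂(nu F.eps) := by
          gcongr with u
          exact ih _ _
      _ = ind r x * ENNReal.ofReal (‖deriv (F.f (e 0)) x‖ + w) ^ s *
          (M * ∫⁻ u, Psi F (ind r) s w n (sh e) (F.f (e 0) x + u) ∂(nu F.eps)) := by
          rw [lintegral_const_mul]
          exact (Psi_meas F (ind_meas r) s w n (sh e)).comp (measurable_const.add measurable_id)
      _ = _ := by ring

theorem Psi_pow {r s w : ℝ} {k : ℕ} {M : ℝ≥0∞}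
    (h : ∀ e x, Psi F (ind r) s w k e x ≤ M) (j m : ℕ) {M' : ℝ≥0∞}
    (h' : ∀ e x, Psi F (ind r) s w m e x ≤ M') (e : ℕ → E) (x : ℂ) :
    Psi F (ind r) s w (j * k + m) e x ≤ M ^ j * M' := by
  induction j generalizing e x with
  | zero => simpa using h' e x
  | succ j ih =>
    rw [show (j + 1) * k + m = (j * k + m) + k by ring]
    refine (Psi_submul F h _ e x).trans ?_
    calc M * Psi F (ind r) s w (j * k + m) e x ≤ M * (M ^ j * M') := by gcongr; exact ih e x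
      _ = M ^ (j + 1) * M' := by ring

/-- Exponential decay of the moments. -/
theorem expo [CompactSpace E] [FirstCountableTopology E] :
    ∃ s w C κ : ℝ, 0 < s ∧ s ≤ 1 ∧ 0 < w ∧ 0 < C ∧ 0 < κ ∧ κ < 1 ∧
      ∀ n e x, Psi F (ind (F.R + 1)) s w n e x ≤ ENNReal.ofReal (C * κ ^ n) := by
  obtain ⟨N, s, w, κ, hs, hs1, hw, hκ, hK⟩ := uniform F
  obtain ⟨Λ, hΛ1, hΛ⟩ := deriv_bound F (F.R + 1)
  set L : ℝ := (Λ + w) ^ s with hL
  have hL1 : 1 ≤ L := Real.one_le_rpow (by linarith) hs.le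
  have hLe : ENNReal.ofReal (Λ + w) ^ s = ENNReal.ofReal L :=
    ENNReal.ofReal_rpow_of_pos (by linarith)
  have hbd : ∀ m e x, Psi F (ind (F.R + 1)) s w m e x ≤ ENNReal.ofReal (L ^ m) := by
    intro m e x
    refine (Psi_le_mul F (Λ := Λ + w) hs.le (fun a z hz => by linarith [hΛ a z hz]) m e x).trans ?_
    rw [hLe, ← ENNReal.ofReal_pow (by positivity)]
    exact (mul_le_mul_right (Psi0_le_one F (ind_le_one _) w m e x) _).trans (by simp)
  set q : ℝ := max κ.toReal (1 / 2) with hq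
  have hq0 : 0 < q := lt_of_lt_of_le (by norm_num) (le_max_right _ _)
  have hq1 : q < 1 := max_lt (by
    rw [← ENNReal.toReal_one]; exact (ENNReal.toReal_lt_toReal hκ.ne_top ENNReal.one_ne_top).2 hκ)
    (by norm_num)
  have hκq : κ ≤ ENNReal.ofReal q := by
    rw [← ENNReal.ofReal_toReal hκ.ne_top]
    exact ENNReal.ofReal_le_ofReal (le_max_left _ _)
  set P : ℕ := N + 1 with hP
  set k₁ : ℝ := q ^ (1 / (P : ℝ)) with hk₁
  have hPpos : (0 : ℝ) < P := by rw [hP]; positivity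
  have hk0 : 0 < k₁ := Real.rpow_pos_of_pos hq0 _
  have hk1 : k₁ < 1 := Real.rpow_lt_one hq0.le hq1 (by positivity)
  have hkP : k₁ ^ P = q := by
    rw [hk₁, ← Real.rpow_natCast, ← Real.rpow_mul hq0.le, one_div, inv_mul_cancel₀ hPpos.ne',
      Real.rpow_one]
  refine ⟨s, w, L ^ P * (k₁ ^ P)⁻¹, k₁, hs, hs1, hw, by positivity, hk0, hk1, fun n e x => ?_⟩
  have hdiv : n / P * P + n % P = n := Nat.div_add_mod' n P
  have h1 := Psi_pow F (M := ENNReal.ofReal q) (fun e x => (hK e x).trans hκq) (n / P) (n % P)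
    (hbd (n % P)) e x
  rw [hdiv, ← ENNReal.ofReal_pow hq0.le, ← ENNReal.ofReal_mul (by positivity)] at h1
  refine h1.trans (ENNReal.ofReal_le_ofReal ?_)
  have hmod : n % P ≤ P := (Nat.mod_lt n (by omega)).le
  have h2 : L ^ (n % P) ≤ L ^ P := pow_le_pow_right₀ hL1 hmod
  have h3 : q ^ (n / P) ≤ (k₁ ^ P)⁻¹ * k₁ ^ n := by
    rw [← hkP, ← pow_mul]
    have h4 : k₁ ^ n = k₁ ^ (P * (n / P)) * k₁ ^ (n % P) := by
      rw [← pow_add]; congr 1; rw [mul_comm]; exact hdiv.symm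
    rw [h4, inv_mul_eq_div, le_div_iff₀ (by positivity)]
    gcongr ?_ * ?_
    exact pow_le_pow_of_le_one hk0.le hk1.le hmod
  calc q ^ (n / P) * L ^ (n % P) ≤ ((k₁ ^ P)⁻¹ * k₁ ^ n) * L ^ P := by gcongr
    _ = _ := by ring

/-- The Lyapunov function. -/
def Phi (s w b : ℝ) (e : ℕ → E) (x : ℂ) : ℝ≥0∞ :=
  ∑' k : ℕ, ENNReal.ofReal b ^ k * Psi F (ind (F.R + 1)) s w k e x

theorem Phi_meas (s w b : ℝ) (e : ℕ → E) : Measurable (Phi F s w b e) :=
  Measurable.ennreal_tsum fun k => (Psi_meas F (ind_meas _) s w k e).const_mul _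

theorem one_le_Phi (s w b : ℝ) (e : ℕ → E) {x : ℂ} (hx : ‖x‖ ≤ F.R + 1) : 1 ≤ Phi F s w b e x := by
  refine le_trans ?_ (ENNReal.le_tsum 0)
  rw [pow_zero, one_mul, Psi_zero, ind_of_le hx]

theorem Phi_step (s w b : ℝ) (hb : 0 < b) (e : ℕ → E) {x : ℂ} (hx : ‖x‖ ≤ F.R + 1) :
    ENNReal.ofReal (‖deriv (F.f (e 0)) x‖ + w) ^ s *
      ∫⁻ a, Phi F s w b (sh e) (F.f (e 0) x + a) ∂(nu F.eps) ≤
      ENNReal.ofReal b⁻¹ * Phi F s w b e x := by
  have h1 : ∫⁻ a, Phi F s w b (sh e) (F.f (e 0) x + a) ∂(nu F.eps) =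
      ∑' k : ℕ, ENNReal.ofReal b ^ k *
        ∫⁻ a, Psi F (ind (F.R + 1)) s w k (sh e) (F.f (e 0) x + a) ∂(nu F.eps) := by
    simp only [Phi]
    rw [lintegral_tsum]
    · refine tsum_congr fun k => ?_
      rw [lintegral_const_mul]
      exact (Psi_meas F (ind_meas _) s w k (sh e)).comp (measurable_const.add measurable_id)
    · intro k
      exact (((Psi_meas F (ind_meas _) s w k (sh e)).comp
        (measurable_const.add measurable_id)).const_mul _).aemeasurable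
  rw [h1, ← ENNReal.tsum_mul_left]
  have h2 : ∀ k : ℕ, ENNReal.ofReal (‖deriv (F.f (e 0)) x‖ + w) ^ s * (ENNReal.ofReal b ^ k *
        ∫⁻ a, Psi F (ind (F.R + 1)) s w k (sh e) (F.f (e 0) x + a) ∂(nu F.eps)) =
      ENNReal.ofReal b⁻¹ * (ENNReal.ofReal b ^ (k + 1) *
        Psi F (ind (F.R + 1)) s w (k + 1) e x) := by
    intro k
    rw [Psi_succ, ind_of_le hx, one_mul]
    have h3 : ENNReal.ofReal b⁻¹ * ENNReal.ofReal b = 1 := by
      rw [← ENNReal.ofReal_mul (by positivity), inv_mul_cancel₀ hb.ne', ENNReal.ofReal_one]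
    calc _ = 1 * (ENNReal.ofReal b ^ k * (ENNReal.ofReal (‖deriv (F.f (e 0)) x‖ + w) ^ s *
        ∫⁻ a, Psi F (ind (F.R + 1)) s w k (sh e) (F.f (e 0) x + a) ∂(nu F.eps))) := by ring
      _ = _ := by rw [← h3]; ring
  rw [tsum_congr h2, ENNReal.tsum_mul_left]
  gcongr
  rw [Phi]
  exact ENNReal.tsum_comp_le_tsum_of_injective (add_left_injective 1)
    (fun k => ENNReal.ofReal b ^ k * Psi F (ind (F.R + 1)) s w k e x)

theorem exists_V {s w C κ Cq ρ₀ : ℝ} (hs : 0 < s) (hw : 0 < w) (hC : 0 < C) (hκ : 0 < κ)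
    (hκ1 : κ < 1) (hPsi : ∀ n e x, Psi F (ind (F.R + 1)) s w n e x ≤ ENNReal.ofReal (C * κ ^ n))
    (hq : ∀ a z h, ‖z‖ ≤ F.R + 1 → ‖h‖ ≤ 1 →
      ‖F.f a (z + h) - F.f a z - deriv (F.f a) z * h‖ ≤ Cq * ‖h‖ ^ 2)
    (hCq : 0 ≤ Cq) (hρ₀ : 0 < ρ₀) (h1 : Cq * ρ₀ ≤ w) (h3 : ρ₀ ≤ 1) :
    ∃ (κ₂ ρ₁ : ℝ) (V : (ℕ → E) → ℂ → ℂ → ℝ≥0∞), 0 < κ₂ ∧ κ₂ < 1 ∧ 0 < ρ₁ ∧ ρ₁ ≤ ρ₀ ∧
      (∀ e, Measurable fun p : ℂ × ℂ => V e p.1 p.2) ∧
      (∀ e x y, V e x y ≤ 1) ∧
      (∀ e x y, ‖x‖ ≤ F.R + 1 → ‖y‖ ≤ F.R + 1 →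
        ∫⁻ a, V (sh e) (F.f (e 0) x + a) (F.f (e 0) y + a) ∂(nu F.eps) ≤
          (if ‖x - y‖ ≤ ρ₁ then ENNReal.ofReal κ₂ else 1) * V e x y) ∧
      (∀ e x y, ‖x‖ ≤ F.R + 1 → ‖y‖ ≤ F.R + 1 →
        ENNReal.ofReal (min 1 ((‖x - y‖ / ρ₀) ^ s)) ≤ V e x y) := by
  classical
  have hprob := nu_prob F.heps
  set κ₂ : ℝ := Real.sqrt κ with hκ₂
  have hκ20 : 0 < κ₂ := Real.sqrt_pos.2 hκ
  have hκ21 : κ₂ < 1 := by rw [hκ₂, Real.sqrt_lt' one_pos]; simpa using hκ1
  have hκsq : κ₂ * κ₂ = κ := Real.mul_self_sqrt hκ.le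
  set b : ℝ := κ₂⁻¹ with hb
  have hb0 : 0 < b := by positivity
  set B : ℝ := max 1 (C / (1 - κ₂)) with hB
  have hB1 : 1 ≤ B := le_max_left _ _
  have hPhi : ∀ e x, Phi F s w b e x ≤ ENNReal.ofReal B := by
    intro e x
    rw [Phi]
    calc ∑' k : ℕ, ENNReal.ofReal b ^ k * Psi F (ind (F.R + 1)) s w k e x
        ≤ ∑' k : ℕ, ENNReal.ofReal (C * κ₂ ^ k) := by
          refine ENNReal.tsum_le_tsum fun k => ?_
          calc ENNReal.ofReal b ^ k * Psi F (ind (F.R + 1)) s w k e x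
              ≤ ENNReal.ofReal b ^ k * ENNReal.ofReal (C * κ ^ k) := by gcongr; exact hPsi k e x
            _ = ENNReal.ofReal (C * κ₂ ^ k) := by
              rw [← ENNReal.ofReal_pow hb0.le, ← ENNReal.ofReal_mul (by positivity)]
              congr 1
              rw [← hκsq, hb, inv_pow, mul_pow]
              field_simp
      _ = ENNReal.ofReal (C / (1 - κ₂)) := by
          rw [← ENNReal.ofReal_tsum_of_nonneg (fun k => by positivity)
            ((summable_geometric_of_lt_one hκ20.le hκ21).mul_left C), tsum_mul_left,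
            tsum_geometric_of_lt_one hκ20.le hκ21]
          rfl
      _ ≤ ENNReal.ofReal B := ENNReal.ofReal_le_ofReal (le_max_right _ _)
  set ρ₁ : ℝ := ρ₀ * B⁻¹ ^ (1 / s) with hρ₁
  have hBinv : 0 < B⁻¹ := by positivity
  have hBinv1 : B⁻¹ ≤ 1 := inv_le_one_of_one_le₀ hB1
  have hρ₁0 : 0 < ρ₁ := by positivity
  have hρ₁1 : ρ₁ ≤ ρ₀ := by
    rw [hρ₁]
    exact mul_le_of_le_one_right hρ₀.le (Real.rpow_le_one hBinv.le hBinv1 (by positivity))
  set V : (ℕ → E) → ℂ → ℂ → ℝ≥0∞ := fun e x y =>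
    if ‖x‖ ≤ F.R + 1 ∧ ‖y‖ ≤ F.R + 1 then
      min 1 (ENNReal.ofReal ((‖x - y‖ / ρ₀) ^ s) * Phi F s w b e x) else 0 with hV
  refine ⟨κ₂, ρ₁, V, hκ20, hκ21, hρ₁0, hρ₁1, ?_, ?_, ?_, ?_⟩
  · intro e
    refine Measurable.ite ?_ ?_ measurable_const
    · exact (measurableSet_le measurable_fst.norm measurable_const).inter
        (measurableSet_le measurable_snd.norm measurable_const)
    · refine measurable_const.min ?_
      refine Measurable.mul ?_ ((Phi_meas F s w b e).comp measurable_fst)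
      exact (((measurable_fst.sub measurable_snd).norm.div_const _).pow_const s).ennreal_ofReal
  · intro e x y
    simp only [hV]
    split_ifs
    · exact min_le_left _ _
    · exact bot_le
  · intro e x y hx hy
    have hVeq : V e x y = min 1 (ENNReal.ofReal ((‖x - y‖ / ρ₀) ^ s) * Phi F s w b e x) := by
      simp only [hV]; rw [if_pos ⟨hx, hy⟩]
    have hV1 : ∀ e x y, V e x y ≤ 1 := by
      intro e x y
      simp only [hV]
      split_ifs
      · exact min_le_left _ _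
      · exact bot_le
    by_cases ha : ENNReal.ofReal ((‖x - y‖ / ρ₀) ^ s) * Phi F s w b e x ≤ 1
    · -- the contracting case
      have hle : (‖x - y‖ / ρ₀) ^ s ≤ 1 := by
        have h4 : ENNReal.ofReal ((‖x - y‖ / ρ₀) ^ s) ≤ 1 := by
          refine le_trans ?_ ha
          calc ENNReal.ofReal ((‖x - y‖ / ρ₀) ^ s) = ENNReal.ofReal ((‖x - y‖ / ρ₀) ^ s) * 1 := by
                rw [mul_one]
            _ ≤ _ := by gcongr; exact one_le_Phi F s w b e hx
        rwa [ENNReal.ofReal_le_one] at h4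
      have hxy : ‖x - y‖ ≤ ρ₀ := by
        have h5 : ‖x - y‖ / ρ₀ ≤ 1 := by
          by_contra hc
          push Not at hc
          exact absurd (Real.one_lt_rpow hc hs) (not_lt.2 hle)
        rwa [div_le_one hρ₀] at h5
      have hdiff : ‖F.f (e 0) x - F.f (e 0) y‖ ≤ (‖deriv (F.f (e 0)) x‖ + w) * ‖x - y‖ := by
        have h6 := hq (e 0) x (y - x) hx (by rw [norm_sub_rev]; linarith)
        rw [add_sub_cancel] at h6
        have h7 : F.f (e 0) x - F.f (e 0) y = -(F.f (e 0) y - F.f (e 0) x -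
            deriv (F.f (e 0)) x * (y - x)) - deriv (F.f (e 0)) x * (y - x) := by ring
        rw [h7]
        refine (norm_sub_le _ _).trans ?_
        rw [norm_neg, norm_mul, norm_sub_rev y x] at *
        have h8 : Cq * ‖x - y‖ ^ 2 ≤ w * ‖x - y‖ := by
          rw [pow_two, ← mul_assoc]
          refine mul_le_mul_of_nonneg_right ?_ (norm_nonneg _)
          exact (mul_le_mul_of_nonneg_left hxy hCq).trans h1
        nlinarith
      set A := ENNReal.ofReal ((‖x - y‖ / ρ₀) ^ s) with hA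
      set g := ENNReal.ofReal (‖deriv (F.f (e 0)) x‖ + w) ^ s with hg
      have hpt : ∀ a : ℂ, V (sh e) (F.f (e 0) x + a) (F.f (e 0) y + a) ≤
          (A * g) * Phi F s w b (sh e) (F.f (e 0) x + a) := by
        intro a
        simp only [hV]
        split_ifs with hal
        · refine (min_le_right _ _).trans ?_
          gcongr
          rw [add_sub_add_right_eq_sub, hA, hg,
            ENNReal.ofReal_rpow_of_nonneg (by positivity) hs.le, ← ENNReal.ofReal_mul
            (by positivity), ← Real.mul_rpow (by positivity) (by positivity)]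
          refine ENNReal.ofReal_le_ofReal (Real.rpow_le_rpow (by positivity) ?_ hs.le)
          rw [div_mul_eq_mul_div]
          gcongr
          linarith [hdiff]
        · exact bot_le
      have hint : ∫⁻ a, V (sh e) (F.f (e 0) x + a) (F.f (e 0) y + a) ∂(nu F.eps) ≤
          ENNReal.ofReal κ₂ * (A * Phi F s w b e x) := by
        calc ∫⁻ a, V (sh e) (F.f (e 0) x + a) (F.f (e 0) y + a) ∂(nu F.eps)
            ≤ ∫⁻ a, (A * g) * Phi F s w b (sh e) (F.f (e 0) x + a) ∂(nu F.eps) :=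
              lintegral_mono hpt
          _ = A * (g * ∫⁻ a, Phi F s w b (sh e) (F.f (e 0) x + a) ∂(nu F.eps)) := by
              rw [lintegral_const_mul, mul_assoc]
              exact (Phi_meas F s w b (sh e)).comp (measurable_const.add measurable_id)
          _ ≤ A * (ENNReal.ofReal b⁻¹ * Phi F s w b e x) := by
              exact mul_le_mul_right (Phi_step F s w b hb0 e hx) A
          _ = _ := by rw [hb, inv_inv]; ring
      refine hint.trans ?_
      rw [hVeq, min_eq_right ha]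
      split_ifs
      · exact le_rfl
      · rw [one_mul]
        exact mul_le_of_le_one_left' (by rw [ENNReal.ofReal_le_one]; exact hκ21.le)
    · push Not at ha
      have hfar : ¬ ‖x - y‖ ≤ ρ₁ := by
        intro hc
        refine absurd ha (not_lt.2 ?_)
        have h5 : (‖x - y‖ / ρ₀) ^ s ≤ B⁻¹ := by
          calc (‖x - y‖ / ρ₀) ^ s ≤ (ρ₁ / ρ₀) ^ s := by gcongr
            _ = B⁻¹ := by
              rw [hρ₁, mul_div_cancel_left₀ _ hρ₀.ne', ← Real.rpow_mul hBinv.le, one_div,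
                inv_mul_cancel₀ hs.ne', Real.rpow_one]
        calc ENNReal.ofReal ((‖x - y‖ / ρ₀) ^ s) * Phi F s w b e x
            ≤ ENNReal.ofReal B⁻¹ * ENNReal.ofReal B := by
              gcongr
              exact hPhi e x
          _ = 1 := by
              rw [← ENNReal.ofReal_mul hBinv.le, inv_mul_cancel₀ (by positivity),
                ENNReal.ofReal_one]
      rw [if_neg hfar, one_mul, hVeq, min_eq_left ha.le]
      calc ∫⁻ a, V (sh e) (F.f (e 0) x + a) (F.f (e 0) y + a) ∂(nu F.eps)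
          ≤ ∫⁻ _, 1 ∂(nu F.eps) := lintegral_mono fun a => hV1 _ _ _
        _ = 1 := by simp
  · intro e x y hx hy
    simp only [hV]
    rw [if_pos ⟨hx, hy⟩]
    refine le_min ?_ ?_
    · rw [ENNReal.ofReal_le_one]; exact min_le_left _ _
    · calc ENNReal.ofReal (min 1 ((‖x - y‖ / ρ₀) ^ s))
          ≤ ENNReal.ofReal ((‖x - y‖ / ρ₀) ^ s) * 1 := by
            rw [mul_one]; exact ENNReal.ofReal_le_ofReal (min_le_right _ _)
        _ ≤ _ := by gcongr; exact one_le_Phi F s w b e hx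

end Pool.Agent.TH270.LC
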