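import Mathlib
import Pool.Agent.TH270.LC.Defs
import Pool.Agent.TH270.LC.Mom
import Pool.Agent.TH270.LC.Defs2

set_option autoImplicit false

open MeasureTheory Set Filter Topology
open scoped ENNReal

noncomputable section

namespace Pool.Agent.TH270.LC

theorem ext_insertNth {n : ℕ} (a : ℂ) (v : Fin n → ℂ) :
    ext (Fin.insertNth (α := fun _ => ℂ) (0 : Fin (n + 1)) a v) = cns a (ext v) := by
  funext k
  cases k with
  | zero => simp [ext, cns]
  | succ k =>
    unfold ext cns
    by_cases h : k < n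
    · have h2 : k + 1 < n + 1 := by omega
      simp only [h, h2, dif_pos]
      rw [Fin.insertNth_zero']
      have e : (⟨k + 1, h2⟩ : Fin (n + 1)) = Fin.succ ⟨k, h⟩ := rfl
      rw [e, Fin.cons_succ]
    · have h2 : ¬ k + 1 < n + 1 := by omega
      simp only [h, h2, dif_neg, not_false_eq_true]

theorem lint_succ {ε : ℝ} (hε : 0 < ε) (n : ℕ) (g : (ℕ → ℂ) → ℝ≥0∞)
    (hg : Measurable fun v : Fin (n + 1) → ℂ => g (ext v)) :
    ∫⁻ v : Fin (n + 1) → ℂ, g (ext v) ∂(nuPi ε (n + 1)) =
      ∫⁻ a, ∫⁻ v : Fin n → ℂ, g (cns a (ext v)) ∂(nuPi ε n) ∂(nu ε) := by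
  have := nu_prob hε
  have mp := (measurePreserving_piFinSuccAbove (fun _ : Fin (n + 1) => nu ε) 0).symm
  have h1 : ∫⁻ v : Fin (n + 1) → ℂ, g (ext v) ∂(nuPi ε (n + 1)) =
      ∫⁻ p : ℂ × (Fin n → ℂ), g (ext ((MeasurableEquiv.piFinSuccAbove (fun _ : Fin (n + 1) => ℂ) 0).symm p))
        ∂((nu ε).prod (nuPi ε n)) := by
    have h2 := mp.lintegral_comp hg
    exact h2.symm
  have hm : Measurable fun p : ℂ × (Fin n → ℂ) =>
      g (ext ((MeasurableEquiv.piFinSuccAbove (fun _ : Fin (n + 1) => ℂ) 0).symm p)) :=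
    hg.comp (MeasurableEquiv.measurable _)
  have : IsProbabilityMeasure (nuPi ε n) := by unfold nuPi; infer_instance
  rw [h1, lintegral_prod _ hm.aemeasurable]
  refine lintegral_congr fun a => lintegral_congr fun v => ?_
  rw [← ext_insertNth]
  rfl

theorem meas_pos {E : Type} [TopologicalSpace E] (F : Fam E) (e : ℕ → E) (x : ℂ) (k n : ℕ) :
    Continuous fun v : Fin n → ℂ => pos F e (ext v) x k := by
  induction k with
  | zero => exact continuous_const
  | succ k ih =>
    have h1 : Continuous fun v : Fin n → ℂ => F.f (e k) (pos F e (ext v) x k) :=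
      F.cf.comp (continuous_const.prodMk ih)
    have h2 : Continuous fun v : Fin n → ℂ => ext v k := by
      unfold ext
      by_cases h : k < n
      · simp only [h, dif_pos]
        exact continuous_apply _
      · simp only [h, dif_neg, not_false_eq_true]
        exact continuous_const
    exact h1.add h2

theorem meas_g {E : Type} [TopologicalSpace E] (F : Fam E) (s w : ℝ) (e : ℕ → E) (x : ℂ) (k n : ℕ) :
    Measurable fun v : Fin n → ℂ => (∏ j ∈ Finset.range k,
        ENNReal.ofReal (‖deriv (F.f (e j)) (pos F e (ext v) x j)‖ + w) ^ s) *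
        ind (F.R + 1) (pos F e (ext v) x k) := by
  refine Measurable.mul ?_ ((ind_meas _).comp (meas_pos F e x k n).measurable)
  refine Finset.measurable_fun_prod _ fun j _ => ?_
  have h1 : Continuous fun v : Fin n → ℂ => ‖deriv (F.f (e j)) (pos F e (ext v) x j)‖ + w :=
    ((F.cd.comp (continuous_const.prodMk (meas_pos F e x j n))).norm).add continuous_const
  exact (ENNReal.measurable_ofReal.comp h1.measurable).pow_const s

theorem lint_Psi {E : Type} [TopologicalSpace E] (F : Fam E) {s w : ℝ} (hs : 0 ≤ s) (hw : 0 ≤ w)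
    (n k : ℕ) (hk : k ≤ n) (e : ℕ → E) (x : ℂ) :
    ∫⁻ v : Fin n → ℂ, (∏ j ∈ Finset.range k,
        ENNReal.ofReal (‖deriv (F.f (e j)) (pos F e (ext v) x j)‖ + w) ^ s) *
        ind (F.R + 1) (pos F e (ext v) x k) ∂(nuPi F.eps n) ≤
      Psi F (ind (F.R + 1)) s w k e x := by
  have := nu_prob F.heps
  induction k generalizing n e x with
  | zero =>
    have : IsProbabilityMeasure (nuPi F.eps n) := by unfold nuPi; infer_instance
    simp [Psi_zero, pos_zero]
  | succ k ih =>
    obtain ⟨n, rfl⟩ : ∃ m, n = m + 1 := ⟨n - 1, by omega⟩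
    have h1 := lint_succ F.heps n (fun u => (∏ j ∈ Finset.range (k + 1),
        ENNReal.ofReal (‖deriv (F.f (e j)) (pos F e u x j)‖ + w) ^ s) *
        ind (F.R + 1) (pos F e u x (k + 1))) (meas_g F s w e x (k + 1) (n + 1))
    rw [h1]
    have h2 : ∀ (a : ℂ) (v : Fin n → ℂ), (∏ j ∈ Finset.range (k + 1),
        ENNReal.ofReal (‖deriv (F.f (e j)) (pos F e (cns a (ext v)) x j)‖ + w) ^ s) *
        ind (F.R + 1) (pos F e (cns a (ext v)) x (k + 1)) =
        ENNReal.ofReal (‖deriv (F.f (e 0)) x‖ + w) ^ s * ((∏ j ∈ Finset.range k,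
        ENNReal.ofReal (‖deriv (F.f (sh e j)) (pos F (sh e) (ext v) (F.f (e 0) x + a) j)‖ + w) ^ s) *
        ind (F.R + 1) (pos F (sh e) (ext v) (F.f (e 0) x + a) k)) := by
      intro a v
      rw [Finset.prod_range_succ', pos_cns, pos_zero]
      simp_rw [pos_cns]
      rw [mul_comm (∏ j ∈ Finset.range k, _) _, mul_assoc]
      rfl
    simp_rw [h2]
    have hne : ENNReal.ofReal (‖deriv (F.f (e 0)) x‖ + w) ^ s ≠ ∞ :=
      ENNReal.rpow_ne_top_of_nonneg hs ENNReal.ofReal_ne_top
    simp_rw [lintegral_const_mul' _ _ hne]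
    rw [Psi_succ]
    have h3 : ∫⁻ a, ∫⁻ v : Fin n → ℂ, ((∏ j ∈ Finset.range k,
        ENNReal.ofReal (‖deriv (F.f (sh e j)) (pos F (sh e) (ext v) (F.f (e 0) x + a) j)‖ + w) ^ s) *
        ind (F.R + 1) (pos F (sh e) (ext v) (F.f (e 0) x + a) k)) ∂(nuPi F.eps n) ∂(nu F.eps) ≤
        ∫⁻ a, Psi F (ind (F.R + 1)) s w k (sh e) (F.f (e 0) x + a) ∂(nu F.eps) :=
      lintegral_mono fun a => ih n (by omega) (sh e) (F.f (e 0) x + a)
    rcases le_or_gt ‖x‖ (F.R + 1) with hx | hx
    · rw [ind_of_le hx, one_mul]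
      exact mul_le_mul_right h3 _
    · have h4 : ∫⁻ a, Psi F (ind (F.R + 1)) s w k (sh e) (F.f (e 0) x + a) ∂(nu F.eps) = 0 := by
        rw [lintegral_eq_zero_iff' ?_]
        · filter_upwards [nu_ae (ε := F.eps)] with a ha
          apply Psi_le_chi
          apply ind_of_lt
          have h5 := F.esc (e 0) x (by linarith)
          have h6 : ‖F.f (e 0) x‖ - ‖a‖ ≤ ‖F.f (e 0) x + a‖ := by
            have := norm_sub_norm_le (F.f (e 0) x) (-a)
            simpa using this
          have := F.hR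
          linarith
        · exact ((Psi_meas F (ind_meas _) s w k (sh e)).comp (measurable_const_add _)).aemeasurable
      rw [h4] at h3
      have h5 := le_antisymm h3 bot_le
      rw [h5, mul_zero]
      exact bot_le

end Pool.Agent.TH270.LC
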