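import Mathlib
import Pool.Agent.TH270.LC.Defs
import Pool.Agent.TH270.LC.Mom
import Pool.Agent.TH270.LC.Defs2
import Pool.Agent.TH270.LC.Meas

set_option autoImplicit false

open MeasureTheory Set Filter Topology
open scoped ENNReal

noncomputable section

namespace Pool.Agent.TH270.LC

theorem badEv_meas {E : Type} [TopologicalSpace E] (F : Fam E) (w ρ₀ τ ρ : ℝ) (e : ℕ → E) (x : ℂ)
    (n : ℕ) : MeasurableSet {v : Fin n → ℂ | BadEv F w ρ₀ τ e (ext v) x ρ n} := by
  have h1 : ∀ k, Measurable fun v : Fin n → ℂ => ‖pos F e (ext v) x k‖ := fun k =>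
    (meas_pos F e x k n).norm.measurable
  have h2 : ∀ k, Measurable fun v : Fin n → ℂ => rad F w e (ext v) x ρ k := by
    intro k
    unfold rad
    apply Continuous.measurable
    refine continuous_const.mul (continuous_finsetProd _ fun j _ => ?_)
    exact ((F.cd.comp (continuous_const.prodMk (meas_pos F e x j n))).norm).add continuous_const
  have h3 : {v : Fin n → ℂ | BadEv F w ρ₀ τ e (ext v) x ρ n} =
      (⋃ k : ℕ, ⋃ _ : k ≤ n, ({v : Fin n → ℂ | ‖pos F e (ext v) x k‖ ≤ F.R + 1} ∩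
        {v : Fin n → ℂ | ρ₀ < rad F w e (ext v) x ρ k})) ∪
      ({v : Fin n → ℂ | ‖pos F e (ext v) x n‖ ≤ F.R + 1} ∩
        {v : Fin n → ℂ | τ < rad F w e (ext v) x ρ n}) := by
    ext v
    simp only [BadEv, Set.mem_ofPred_eq, Set.mem_union, Set.mem_iUnion, Set.mem_inter_iff,
      exists_prop]
  rw [h3]
  refine MeasurableSet.union ?_ ?_
  · refine MeasurableSet.iUnion fun k => MeasurableSet.iUnion fun _ => ?_
    exact (measurableSet_le (h1 k) measurable_const).inter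
      (measurableSet_lt measurable_const (h2 k))
  · exact (measurableSet_le (h1 n) measurable_const).inter
      (measurableSet_lt measurable_const (h2 n))

theorem pos_congr {E : Type} [TopologicalSpace E] (F : Fam E) (e : ℕ → E) {u u' : ℕ → ℂ} (x : ℂ)
    (k : ℕ) (h : ∀ j < k, u j = u' j) : pos F e u x k = pos F e u' x k := by
  induction k with
  | zero => rfl
  | succ k ih =>
    rw [pos_succ, pos_succ, ih (fun j hj => h j (by omega)), h k (by omega)]

theorem lint_last {ε : ℝ} (hε : 0 < ε) (n : ℕ) (g : (Fin (n + 1) → ℂ) → ℝ≥0∞)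
    (hg : Measurable g) :
    ∫⁻ v, g v ∂(nuPi ε (n + 1)) =
      ∫⁻ v, ∫⁻ a, g (Fin.snoc (α := fun _ => ℂ) v a) ∂(nu ε) ∂(nuPi ε n) := by
  have := nu_prob hε
  have : IsProbabilityMeasure (nuPi ε n) := by unfold nuPi; infer_instance
  have mp := (measurePreserving_piFinSuccAbove (fun _ : Fin (n + 1) => nu ε) (Fin.last n)).symm
  have h1 : ∫⁻ v : Fin (n + 1) → ℂ, g v ∂(nuPi ε (n + 1)) =
      ∫⁻ p : ℂ × (Fin n → ℂ),
        g ((MeasurableEquiv.piFinSuccAbove (fun _ : Fin (n + 1) => ℂ) (Fin.last n)).symm p)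
        ∂((nu ε).prod (nuPi ε n)) := by
    have h2 := mp.lintegral_comp hg
    exact h2.symm
  have hm : Measurable fun p : ℂ × (Fin n → ℂ) =>
      g ((MeasurableEquiv.piFinSuccAbove (fun _ : Fin (n + 1) => ℂ) (Fin.last n)).symm p) :=
    hg.comp (MeasurableEquiv.measurable _)
  rw [h1, lintegral_prod_symm _ hm.aemeasurable]
  refine lintegral_congr fun v => lintegral_congr fun a => ?_
  congr 1
  exact Fin.insertNth_last' a v

theorem nu_ball {ε : ℝ} (hε : 0 < ε) (c : ℂ) {r : ℝ} (hr : 0 ≤ r) :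
    nu ε (Metric.closedBall c r) ≤ ENNReal.ofReal (r ^ 2 / ε ^ 2) := by
  rw [nu, Measure.smul_apply, smul_eq_mul]
  have h1 : (volume.restrict (Metric.closedBall (0 : ℂ) ε)) (Metric.closedBall c r) ≤
      volume (Metric.closedBall c r) := Measure.restrict_apply_le _ _
  refine (mul_le_mul_right h1 _).trans ?_
  rw [Complex.volume_closedBall, Complex.volume_closedBall,
    ENNReal.ofReal_div_of_pos (by positivity), ENNReal.ofReal_pow hr, ENNReal.ofReal_pow hε.le,
    ENNReal.div_eq_inv_mul]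
  have hpi0 : ((NNReal.pi : NNReal) : ℝ≥0∞) ≠ 0 := by
    simpa using NNReal.pi_ne_zero
  have hpit : ((NNReal.pi : NNReal) : ℝ≥0∞) ≠ ∞ := ENNReal.coe_ne_top
  rw [ENNReal.mul_inv (Or.inr hpit) (Or.inr hpi0)]
  refine le_of_eq ?_
  calc (ENNReal.ofReal ε ^ 2)⁻¹ * (NNReal.pi : ℝ≥0∞)⁻¹ * (ENNReal.ofReal r ^ 2 * NNReal.pi)
      = (ENNReal.ofReal ε ^ 2)⁻¹ * ENNReal.ofReal r ^ 2 * ((NNReal.pi : ℝ≥0∞)⁻¹ * NNReal.pi) := by
        ring
    _ = (ENNReal.ofReal ε ^ 2)⁻¹ * ENNReal.ofReal r ^ 2 := by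
        rw [ENNReal.inv_mul_cancel hpi0 hpit, mul_one]

end Pool.Agent.TH270.LC
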