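import Mathlib
import Pool.Agent.TH270.LC.Defs
import Pool.Agent.TH270.LC.Mom
import Pool.Agent.TH270.LC.Defs2

/-! Job 1403 (LC-J12) for helper270, by helper159: probability that a disc is not contracted. -/

set_option autoImplicit false
open MeasureTheory Set Filter Topology
open scoped ENNReal
noncomputable section
namespace Pool.Agent.TH270.LC

namespace ProbBad

variable {E : Type} [TopologicalSpace E] (F : Fam E)

theorem meas_ext {n : ℕ} (k : ℕ) : Measurable fun v : Fin n → ℂ => ext v k := by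
  unfold ext
  by_cases h : k < n
  · simp only [h, dite_true]
    exact measurable_pi_apply _
  · simp only [h, dite_false]
    exact measurable_const

theorem meas_pos {n : ℕ} (e : ℕ → E) (x : ℂ) (k : ℕ) :
    Measurable fun v : Fin n → ℂ => pos F e (ext v) x k := by
  induction k with
  | zero => exact measurable_const
  | succ k ih =>
    have h1 : (fun v : Fin n → ℂ => pos F e (ext v) x (k + 1)) =
        fun v => F.f (e k) (pos F e (ext v) x k) + ext v k := rfl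
    rw [h1]
    exact ((F.df (e k)).continuous.measurable.comp ih).add (meas_ext k)

theorem one_event {s w C κ : ℝ} (hs : 0 < s) (hw : 0 ≤ w) (hC : 0 ≤ C) (hκ : 0 < κ)
    (hPsi : ∀ n e x, Psi F (ind (F.R + 1)) s w n e x ≤ ENNReal.ofReal (C * κ ^ n))
    (hlint : ∀ (n k : ℕ) (e : ℕ → E) (x : ℂ), k ≤ n →
      ∫⁻ v : Fin n → ℂ, (∏ j ∈ Finset.range k,
        ENNReal.ofReal (‖deriv (F.f (e j)) (pos F e (ext v) x j)‖ + w) ^ s) *
        ind (F.R + 1) (pos F e (ext v) x k) ∂(nuPi F.eps n) ≤ Psi F (ind (F.R + 1)) s w k e x)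
    {c ρ : ℝ} (hc : 0 < c) (hρ : 0 < ρ) (n k : ℕ) (hk : k ≤ n) (e : ℕ → E) (x : ℂ) :
    nuPi F.eps n {v | ‖pos F e (ext v) x k‖ ≤ F.R + 1 ∧ c < rad F w e (ext v) x ρ k} ≤
      ENNReal.ofReal (C * κ ^ k * (ρ / c) ^ s) := by
  have hcr : 0 < c / ρ := div_pos hc hρ
  set g : (Fin n → ℂ) → ℝ≥0∞ := fun v => (∏ j ∈ Finset.range k,
        ENNReal.ofReal (‖deriv (F.f (e j)) (pos F e (ext v) x j)‖ + w) ^ s) *
        ind (F.R + 1) (pos F e (ext v) x k) with hg
  have hgm : Measurable g := by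
    refine Measurable.mul ?_ ((ind_meas _).comp (meas_pos F e x k))
    refine Finset.measurable_prod _ fun j _ => ?_
    have hd : Measurable fun x => deriv (F.f (e j)) x :=
      (F.cd.comp (Continuous.prodMk_right (e j))).measurable
    exact (((hd.comp (meas_pos F e x j)).norm.add_const w).ennreal_ofReal).pow_const _
  have hsub : {v | ‖pos F e (ext v) x k‖ ≤ F.R + 1 ∧ c < rad F w e (ext v) x ρ k} ⊆
      {v : Fin n → ℂ | ENNReal.ofReal ((c / ρ) ^ s) ≤ g v} := by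
    rintro v ⟨h1, h2⟩
    simp only [mem_setOf_eq, hg]
    rw [ind_of_le h1, mul_one]
    have h3 : c / ρ ≤ ∏ j ∈ Finset.range k, (‖deriv (F.f (e j)) (pos F e (ext v) x j)‖ + w) := by
      rw [div_le_iff₀ hρ, mul_comm]
      exact h2.le
    calc ENNReal.ofReal ((c / ρ) ^ s)
        ≤ ENNReal.ofReal ((∏ j ∈ Finset.range k,
          (‖deriv (F.f (e j)) (pos F e (ext v) x j)‖ + w)) ^ s) :=
          ENNReal.ofReal_le_ofReal (Real.rpow_le_rpow hcr.le h3 hs.le)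
      _ = ∏ j ∈ Finset.range k,
          ENNReal.ofReal (‖deriv (F.f (e j)) (pos F e (ext v) x j)‖ + w) ^ s := by
          have h4 : ∀ j ∈ Finset.range k,
              0 ≤ ‖deriv (F.f (e j)) (pos F e (ext v) x j)‖ + w := fun j _ =>
            add_nonneg (norm_nonneg _) hw
          rw [← ENNReal.ofReal_rpow_of_nonneg (Finset.prod_nonneg h4) hs.le,
            ENNReal.ofReal_prod_of_nonneg h4, ← ENNReal.prod_rpow_of_nonneg hs.le]
  have hmark := mul_meas_ge_le_lintegral (μ := nuPi F.eps n) hgm (ENNReal.ofReal ((c / ρ) ^ s))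
  have hpos : 0 < (c / ρ) ^ s := Real.rpow_pos_of_pos hcr s
  have h5 : ENNReal.ofReal ((c / ρ) ^ s) *
      nuPi F.eps n {v | ‖pos F e (ext v) x k‖ ≤ F.R + 1 ∧ c < rad F w e (ext v) x ρ k} ≤
      ENNReal.ofReal (C * κ ^ k) := by
    calc _ ≤ ENNReal.ofReal ((c / ρ) ^ s) * nuPi F.eps n
          {v : Fin n → ℂ | ENNReal.ofReal ((c / ρ) ^ s) ≤ g v} := by
          gcongr
      _ ≤ ∫⁻ v, g v ∂(nuPi F.eps n) := hmark
      _ ≤ Psi F (ind (F.R + 1)) s w k e x := hlint n k e x hk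
      _ ≤ _ := hPsi k e x
  have h6 : C * κ ^ k * (ρ / c) ^ s = C * κ ^ k / (c / ρ) ^ s := by
    rw [div_eq_mul_inv (C * κ ^ k), ← Real.inv_rpow hcr.le, inv_div]
  rw [h6, ENNReal.ofReal_div_of_pos hpos]
  rw [ENNReal.le_div_iff_mul_le (Or.inl (by simpa using hpos)) (Or.inl ENNReal.ofReal_ne_top),
    mul_comm]
  exact h5

end ProbBad

open ProbBad in
theorem prob_bad {E : Type} [TopologicalSpace E] (F : Fam E) {s w C κ : ℝ} (hs : 0 < s)
    (hw : 0 ≤ w) (hC : 0 ≤ C) (hκ : 0 < κ) (hκ1 : κ < 1)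
    (hPsi : ∀ n e x, Psi F (ind (F.R + 1)) s w n e x ≤ ENNReal.ofReal (C * κ ^ n))
    (hlint : ∀ (n k : ℕ) (e : ℕ → E) (x : ℂ), k ≤ n →
      ∫⁻ v : Fin n → ℂ, (∏ j ∈ Finset.range k,
        ENNReal.ofReal (‖deriv (F.f (e j)) (pos F e (ext v) x j)‖ + w) ^ s) *
        ind (F.R + 1) (pos F e (ext v) x k) ∂(nuPi F.eps n) ≤ Psi F (ind (F.R + 1)) s w k e x)
    {ρ₀ τ ρ : ℝ} (hρ₀ : 0 < ρ₀) (hτ : 0 < τ) (hρ : 0 < ρ) (n : ℕ) (e : ℕ → E) (x : ℂ) :
    nuPi F.eps n {v | BadEv F w ρ₀ τ e (ext v) x ρ n} ≤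
      ENNReal.ofReal (C / (1 - κ) * (ρ / ρ₀) ^ s + C * κ ^ n * (ρ / τ) ^ s) := by
  have hq0 : 0 ≤ (ρ / ρ₀) ^ s := by positivity
  have hq1 : 0 ≤ (ρ / τ) ^ s := by positivity
  have hk1 : 0 < 1 - κ := by linarith
  have hsub : {v : Fin n → ℂ | BadEv F w ρ₀ τ e (ext v) x ρ n} ⊆
      (⋃ k ∈ Finset.range (n + 1),
        {v | ‖pos F e (ext v) x k‖ ≤ F.R + 1 ∧ ρ₀ < rad F w e (ext v) x ρ k}) ∪
      {v | ‖pos F e (ext v) x n‖ ≤ F.R + 1 ∧ τ < rad F w e (ext v) x ρ n} := by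
    rintro v (⟨k, hk, h⟩ | h)
    · refine Or.inl ?_
      simp only [mem_iUnion]
      exact ⟨k, Finset.mem_range.2 (by omega), h⟩
    · exact Or.inr h
  have hsum : ∑ k ∈ Finset.range (n + 1), C * κ ^ k * (ρ / ρ₀) ^ s ≤
      C / (1 - κ) * (ρ / ρ₀) ^ s := by
    rw [← Finset.sum_mul, ← Finset.mul_sum]
    refine mul_le_mul_of_nonneg_right ?_ hq0
    rw [div_eq_mul_inv]
    refine mul_le_mul_of_nonneg_left ?_ hC
    have h1 := (summable_geometric_of_lt_one hκ.le hκ1).sum_le_tsum (Finset.range (n + 1))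
      (fun k _ => pow_nonneg hκ.le k)
    rwa [tsum_geometric_of_lt_one hκ.le hκ1] at h1
  calc nuPi F.eps n {v | BadEv F w ρ₀ τ e (ext v) x ρ n}
      ≤ nuPi F.eps n (⋃ k ∈ Finset.range (n + 1),
        {v | ‖pos F e (ext v) x k‖ ≤ F.R + 1 ∧ ρ₀ < rad F w e (ext v) x ρ k}) +
        nuPi F.eps n {v | ‖pos F e (ext v) x n‖ ≤ F.R + 1 ∧ τ < rad F w e (ext v) x ρ n} :=
        (measure_mono hsub).trans (measure_union_le _ _)
    _ ≤ ∑ k ∈ Finset.range (n + 1), ENNReal.ofReal (C * κ ^ k * (ρ / ρ₀) ^ s) +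
        ENNReal.ofReal (C * κ ^ n * (ρ / τ) ^ s) := by
        refine add_le_add ((measure_biUnion_finset_le _ _).trans (Finset.sum_le_sum fun k hk => ?_))
          (one_event F hs hw hC hκ hPsi hlint hτ hρ n n le_rfl e x)
        exact one_event F hs hw hC hκ hPsi hlint hρ₀ hρ n k
          (by have := Finset.mem_range.1 hk; omega) e x
    _ = ENNReal.ofReal (∑ k ∈ Finset.range (n + 1), C * κ ^ k * (ρ / ρ₀) ^ s) +
        ENNReal.ofReal (C * κ ^ n * (ρ / τ) ^ s) := by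
        rw [ENNReal.ofReal_sum_of_nonneg fun k _ => by positivity]
    _ ≤ ENNReal.ofReal (C / (1 - κ) * (ρ / ρ₀) ^ s) + ENNReal.ofReal (C * κ ^ n * (ρ / τ) ^ s) := by
        gcongr
    _ = _ := by rw [← ENNReal.ofReal_add (by positivity) (by positivity)]

end Pool.Agent.TH270.LC
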