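import Mathlib
import Pool.Agent.TH270.LC.Defs
import Pool.Agent.TH270.LC.Mom
import Pool.Agent.TH270.LC.Defs2
import Pool.Agent.TH270.LC.Meas

set_option autoImplicit false

open MeasureTheory Set Filter Topology
open scoped ENNReal

noncomputable section

namespace Pool.Agent.TH270.LC

/-- The weight carried along a pair of trajectories. -/
def pw {E : Type} [TopologicalSpace E] (F : Fam E) (V : (ℕ → E) → ℂ → ℂ → ℝ≥0∞) (ρ₁ : ℝ)
    (K : ℝ≥0∞) : ℕ → (ℕ → E) → (ℕ → ℂ) → ℂ → ℂ → ℝ≥0∞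
  | 0, e, _, x, y => V e x y
  | n + 1, e, u, x, y =>
    if ‖x‖ ≤ F.R + 1 ∧ ‖y‖ ≤ F.R + 1 then
      (if ‖x - y‖ ≤ ρ₁ then K else 1) *
        pw F V ρ₁ K n (sh e) (sh u) (F.f (e 0) x + u 0) (F.f (e 0) y + u 0)
    else 0

theorem pw_meas {E : Type} [TopologicalSpace E] (F : Fam E) (V : (ℕ → E) → ℂ → ℂ → ℝ≥0∞) (ρ₁ : ℝ)
    (K : ℝ≥0∞) (V0 : ∀ e, Measurable fun p : ℂ × ℂ => V e p.1 p.2) (n : ℕ) (e : ℕ → E) :
    Measurable fun p : (ℕ → ℂ) × (ℂ × ℂ) => pw F V ρ₁ K n e p.1 p.2.1 p.2.2 := by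
  induction n generalizing e with
  | zero =>
    exact (V0 e).comp measurable_snd
  | succ n ih =>
    have hf : Measurable fun x => F.f (e 0) x := (F.df (e 0)).continuous.measurable
    have hx : Measurable fun p : (ℕ → ℂ) × (ℂ × ℂ) => p.2.1 := measurable_fst.comp measurable_snd
    have hy : Measurable fun p : (ℕ → ℂ) × (ℂ × ℂ) => p.2.2 := measurable_snd.comp measurable_snd
    have h0 : Measurable fun p : (ℕ → ℂ) × (ℂ × ℂ) => p.1 0 :=
      (measurable_pi_apply 0).comp measurable_fst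
    have hsh : Measurable fun p : (ℕ → ℂ) × (ℂ × ℂ) => sh p.1 :=
      measurable_pi_lambda _ fun k => (measurable_pi_apply (k + 1)).comp measurable_fst
    have hcomp : Measurable fun p : (ℕ → ℂ) × (ℂ × ℂ) =>
        pw F V ρ₁ K n (sh e) (sh p.1) (F.f (e 0) p.2.1 + p.1 0) (F.f (e 0) p.2.2 + p.1 0) :=
      (ih (sh e)).comp (hsh.prodMk (((hf.comp hx).add h0).prodMk ((hf.comp hy).add h0)))
    have hS : MeasurableSet {p : (ℕ → ℂ) × (ℂ × ℂ) | ‖p.2.1‖ ≤ F.R + 1 ∧ ‖p.2.2‖ ≤ F.R + 1} :=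
      (measurableSet_le hx.norm measurable_const).inter (measurableSet_le hy.norm measurable_const)
    have hT : MeasurableSet {p : (ℕ → ℂ) × (ℂ × ℂ) | ‖p.2.1 - p.2.2‖ ≤ ρ₁} :=
      measurableSet_le (hx.sub hy).norm measurable_const
    exact Measurable.ite hS
      ((Measurable.ite hT measurable_const measurable_const).mul hcomp) measurable_const

theorem ext_meas (n : ℕ) : Measurable fun v : Fin n → ℂ => (ext v : ℕ → ℂ) := by
  refine measurable_pi_lambda _ fun k => ?_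
  unfold ext
  by_cases h : k < n
  · simp only [h, dif_pos]
    exact measurable_pi_apply _
  · simp only [h, dif_neg, not_false_eq_true]
    exact measurable_const

theorem pw_meas' {E : Type} [TopologicalSpace E] (F : Fam E) (V : (ℕ → E) → ℂ → ℂ → ℝ≥0∞) (ρ₁ : ℝ)
    (K : ℝ≥0∞) (V0 : ∀ e, Measurable fun p : ℂ × ℂ => V e p.1 p.2) (n m : ℕ) (e : ℕ → E) (x y : ℂ) :
    Measurable fun v : Fin m → ℂ => pw F V ρ₁ K n e (ext v) x y := by
  have h1 : Measurable fun v : Fin m → ℂ => ((ext v, (x, y)) : (ℕ → ℂ) × (ℂ × ℂ)) :=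
    (ext_meas m).prodMk measurable_const
  exact (pw_meas F V ρ₁ K V0 n e).comp h1

theorem pw_int {E : Type} [TopologicalSpace E] (F : Fam E) {κ ρ₁ : ℝ}
    (hκ : 0 < κ) 
    (V : (ℕ → E) → ℂ → ℂ → ℝ≥0∞) (V0 : ∀ e, Measurable fun p : ℂ × ℂ => V e p.1 p.2)
    (V2 : ∀ e x y, ‖x‖ ≤ F.R + 1 → ‖y‖ ≤ F.R + 1 →
      ∫⁻ a, V (sh e) (F.f (e 0) x + a) (F.f (e 0) y + a) ∂(nu F.eps) ≤
        (if ‖x - y‖ ≤ ρ₁ then ENNReal.ofReal κ else 1) * V e x y)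
    (n : ℕ) (e : ℕ → E) (x y : ℂ) :
    ∫⁻ v : Fin n → ℂ, pw F V ρ₁ (ENNReal.ofReal κ)⁻¹ n e (ext v) x y ∂(nuPi F.eps n) ≤ V e x y := by
  have hp := nu_prob F.heps
  have hpi : ∀ n, IsProbabilityMeasure (nuPi F.eps n) := fun n => by
    unfold nuPi; infer_instance
  have hK : ENNReal.ofReal κ ≠ 0 := by simpa using hκ
  induction n generalizing e x y with
  | zero =>
    have := hpi 0
    simp [pw]
  | succ n ih =>
    have := hpi n
    have hm : Measurable fun v : Fin (n + 1) → ℂ =>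
        pw F V ρ₁ (ENNReal.ofReal κ)⁻¹ (n + 1) e (ext v) x y :=
      pw_meas' F V ρ₁ _ V0 (n + 1) (n + 1) e x y
    rw [lint_succ F.heps n (fun u => pw F V ρ₁ (ENNReal.ofReal κ)⁻¹ (n + 1) e u x y) hm]
    by_cases hxy : ‖x‖ ≤ F.R + 1 ∧ ‖y‖ ≤ F.R + 1
    swap
    · simp [pw, hxy]
    set c : ℝ≥0∞ := (if ‖x - y‖ ≤ ρ₁ then (ENNReal.ofReal κ)⁻¹ else 1) with hc
    have hctop : c ≠ ∞ := by
      rw [hc]
      split_ifs
      · exact ENNReal.inv_ne_top.2 hK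
      · exact ENNReal.one_ne_top
    have h1 : ∀ a u, pw F V ρ₁ (ENNReal.ofReal κ)⁻¹ (n + 1) e (cns a u) x y =
        c * pw F V ρ₁ (ENNReal.ofReal κ)⁻¹ n (sh e) u (F.f (e 0) x + a) (F.f (e 0) y + a) := by
      intro a u
      rw [pw, if_pos hxy, sh_cns, cns_zero]
    simp only [h1]
    calc ∫⁻ a, ∫⁻ v : Fin n → ℂ, c * pw F V ρ₁ (ENNReal.ofReal κ)⁻¹ n (sh e) (ext v)
            (F.f (e 0) x + a) (F.f (e 0) y + a) ∂(nuPi F.eps n) ∂(nu F.eps)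
        ≤ ∫⁻ a, c * V (sh e) (F.f (e 0) x + a) (F.f (e 0) y + a) ∂(nu F.eps) := by
          refine lintegral_mono fun a => ?_
          rw [lintegral_const_mul' _ _ hctop]
          gcongr
          exact ih _ _ _
      _ = c * ∫⁻ a, V (sh e) (F.f (e 0) x + a) (F.f (e 0) y + a) ∂(nu F.eps) :=
          lintegral_const_mul' _ _ hctop
      _ ≤ c * ((if ‖x - y‖ ≤ ρ₁ then ENNReal.ofReal κ else 1) * V e x y) := by
          gcongr
          exact V2 e x y hxy.1 hxy.2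
      _ = V e x y := by
          rw [hc, ← mul_assoc]
          split_ifs
          · rw [ENNReal.inv_mul_cancel hK ENNReal.ofReal_ne_top, one_mul]
          · rw [one_mul, one_mul]

theorem pw_lower {E : Type} [TopologicalSpace E] (F : Fam E) {s ρ₀ ρ₁ : ℝ} {K : ℝ≥0∞} (hK : 1 ≤ K)
    (hs : 0 < s) (hρ₀ : 0 < ρ₀)
    (V : (ℕ → E) → ℂ → ℂ → ℝ≥0∞)
    (V3 : ∀ e x y, ‖x‖ ≤ F.R + 1 → ‖y‖ ≤ F.R + 1 →
      ENNReal.ofReal (min 1 ((‖x - y‖ / ρ₀) ^ s)) ≤ V e x y)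
    {η : ℝ} (hη : 0 < η) (hη' : η ≤ ρ₀) (n J : ℕ) (e : ℕ → E) (u : ℕ → ℂ) (x y : ℂ)
    (h1 : ∀ k < n, ‖pos F e u x k‖ ≤ F.R + 1) (h2 : ∀ k < n, ‖pos F e u y k‖ ≤ F.R + 1)
    (h3 : ‖pos F e u x n‖ ≤ F.R + 1) (h4 : ‖pos F e u y n‖ ≤ F.R + 1)
    (h5 : J ≤ ((Finset.range n).filter fun k => ‖pos F e u x k - pos F e u y k‖ ≤ ρ₁).card)
    (h6 : η < ‖pos F e u x n - pos F e u y n‖) :
    K ^ J * ENNReal.ofReal ((η / ρ₀) ^ s) ≤ pw F V ρ₁ K n e u x y := by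
  induction n generalizing e u x y J with
  | zero =>
    obtain rfl : J = 0 := by simpa using h5
    rw [pow_zero, one_mul, pw]
    refine le_trans (ENNReal.ofReal_le_ofReal ?_) (V3 e x y h3 h4)
    refine le_min ?_ ?_
    · exact Real.rpow_le_one (by positivity) ((div_le_one hρ₀).2 hη') hs.le
    · refine Real.rpow_le_rpow (by positivity) ?_ hs.le
      have h6' : η ≤ ‖x - y‖ := h6.le
      gcongr
  | succ n ih =>
    have hxy : ‖x‖ ≤ F.R + 1 ∧ ‖y‖ ≤ F.R + 1 := ⟨h1 0 (Nat.succ_pos n), h2 0 (Nat.succ_pos n)⟩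
    rw [pw, if_pos hxy]
    have key : ∀ J', J' ≤ ((Finset.range n).filter fun k =>
        ‖pos F (sh e) (sh u) (F.f (e 0) x + u 0) k - pos F (sh e) (sh u) (F.f (e 0) y + u 0) k‖
          ≤ ρ₁).card →
        K ^ J' * ENNReal.ofReal ((η / ρ₀) ^ s) ≤
          pw F V ρ₁ K n (sh e) (sh u) (F.f (e 0) x + u 0) (F.f (e 0) y + u 0) := by
      intro J' hJ'
      refine ih J' (sh e) (sh u) _ _ ?_ ?_ ?_ ?_ hJ' ?_
      · intro k hk; rw [← pos_succ']; exact h1 (k + 1) (by omega)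
      · intro k hk; rw [← pos_succ']; exact h2 (k + 1) (by omega)
      · rw [← pos_succ']; exact h3
      · rw [← pos_succ']; exact h4
      · rw [← pos_succ', ← pos_succ']; exact h6
    have hcard : ((Finset.range (n + 1)).filter fun k =>
        ‖pos F e u x k - pos F e u y k‖ ≤ ρ₁).card =
        ((Finset.range n).filter fun k =>
          ‖pos F (sh e) (sh u) (F.f (e 0) x + u 0) k - pos F (sh e) (sh u) (F.f (e 0) y + u 0) k‖
            ≤ ρ₁).card + (if ‖x - y‖ ≤ ρ₁ then 1 else 0) := by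
      rw [Finset.card_filter, Finset.card_filter, Finset.sum_range_succ']
      congr 1
      refine Finset.sum_congr rfl fun k _ => ?_
      rw [pos_succ', pos_succ']
    rw [hcard] at h5
    split_ifs at h5 ⊢ with hc
    · rcases Nat.eq_zero_or_pos J with hJ | hJ
      · subst hJ
        calc K ^ 0 * ENNReal.ofReal ((η / ρ₀) ^ s)
            ≤ pw F V ρ₁ K n (sh e) (sh u) (F.f (e 0) x + u 0) (F.f (e 0) y + u 0) :=
              key 0 (Nat.zero_le _)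
          _ = 1 * pw F V ρ₁ K n (sh e) (sh u) (F.f (e 0) x + u 0) (F.f (e 0) y + u 0) :=
              (one_mul _).symm
          _ ≤ _ := by gcongr
      · obtain ⟨J', rfl⟩ : ∃ J', J = J' + 1 := ⟨J - 1, by omega⟩
        rw [pow_succ', mul_assoc]
        gcongr
        exact key J' (by omega)
    · rw [one_mul]
      exact key J (by omega)

theorem prob_pair {E : Type} [TopologicalSpace E] (F : Fam E) {s κ ρ₀ ρ₁ : ℝ} (hs : 0 < s)
    (hκ : 0 < κ) (hκ1 : κ < 1) (hρ₀ : 0 < ρ₀)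
    (V : (ℕ → E) → ℂ → ℂ → ℝ≥0∞) (V0 : ∀ e, Measurable fun p : ℂ × ℂ => V e p.1 p.2)
    (V1 : ∀ e x y, V e x y ≤ 1)
    (V2 : ∀ e x y, ‖x‖ ≤ F.R + 1 → ‖y‖ ≤ F.R + 1 →
      ∫⁻ a, V (sh e) (F.f (e 0) x + a) (F.f (e 0) y + a) ∂(nu F.eps) ≤
        (if ‖x - y‖ ≤ ρ₁ then ENNReal.ofReal κ else 1) * V e x y)
    (V3 : ∀ e x y, ‖x‖ ≤ F.R + 1 → ‖y‖ ≤ F.R + 1 →
      ENNReal.ofReal (min 1 ((‖x - y‖ / ρ₀) ^ s)) ≤ V e x y)
    {η : ℝ} (hη : 0 < η) (hη' : η ≤ ρ₀) (n J : ℕ) (e : ℕ → E) (x y : ℂ) :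
    nuPi F.eps n {v | (∀ k < n, ‖pos F e (ext v) x k‖ ≤ F.R + 1) ∧
        (∀ k < n, ‖pos F e (ext v) y k‖ ≤ F.R + 1) ∧
        ‖pos F e (ext v) x n‖ ≤ F.R + 1 ∧ ‖pos F e (ext v) y n‖ ≤ F.R + 1 ∧
        J ≤ ((Finset.range n).filter fun k =>
          ‖pos F e (ext v) x k - pos F e (ext v) y k‖ ≤ ρ₁).card ∧
        η < ‖pos F e (ext v) x n - pos F e (ext v) y n‖} ≤
      ENNReal.ofReal (κ ^ J * (ρ₀ / η) ^ s) := by
  have hK : (1 : ℝ≥0∞) ≤ (ENNReal.ofReal κ)⁻¹ := by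
    rw [ENNReal.one_le_inv]
    exact ENNReal.ofReal_le_one.2 hκ1.le
  set f : (Fin n → ℂ) → ℝ≥0∞ := fun v => pw F V ρ₁ (ENNReal.ofReal κ)⁻¹ n e (ext v) x y with hf
  have hfm : Measurable f := pw_meas' F V ρ₁ _ V0 n n e x y
  set δ : ℝ≥0∞ := (ENNReal.ofReal κ)⁻¹ ^ J * ENNReal.ofReal ((η / ρ₀) ^ s) with hδ
  have hb : 0 < (η / ρ₀) ^ s := Real.rpow_pos_of_pos (by positivity) s
  have hδr : δ⁻¹ = ENNReal.ofReal (κ ^ J * (ρ₀ / η) ^ s) := by
    have h1 : δ = (ENNReal.ofReal (κ ^ J * (ρ₀ / η) ^ s))⁻¹ := by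
      rw [hδ, ENNReal.ofReal_mul (by positivity), ENNReal.ofReal_pow hκ.le,
        ENNReal.mul_inv (Or.inr ENNReal.ofReal_ne_top)
          (Or.inl (ENNReal.pow_ne_top ENNReal.ofReal_ne_top)), ENNReal.inv_pow,
        ← ENNReal.ofReal_inv_of_pos (Real.rpow_pos_of_pos (by positivity) s),
        ← Real.inv_rpow (by positivity), inv_div]
    rw [h1, inv_inv]
  have hδ0 : δ ≠ 0 := by
    rw [hδ]
    refine mul_ne_zero (pow_ne_zero _ (ENNReal.inv_ne_zero.2 ENNReal.ofReal_ne_top)) ?_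
    simpa using hb
  have hδt : δ ≠ ∞ := by
    rw [hδ]
    refine ENNReal.mul_ne_top (ENNReal.pow_ne_top (ENNReal.inv_ne_top.2 ?_)) ENNReal.ofReal_ne_top
    simpa using hκ
  calc nuPi F.eps n {v | _}
      ≤ nuPi F.eps n {v | δ ≤ f v} := by
        refine measure_mono ?_
        rintro v ⟨h1, h2, h3, h4, h5, h6⟩
        exact pw_lower F hK hs hρ₀ V V3 hη hη' n J e (ext v) x y h1 h2 h3 h4 h5 h6
    _ ≤ (∫⁻ v, f v ∂(nuPi F.eps n)) / δ := meas_ge_le_lintegral_div hfm.aemeasurable hδ0 hδt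
    _ ≤ 1 / δ := by
        gcongr
        exact (pw_int F hκ V V0 V2 n e x y).trans (V1 e x y)
    _ = _ := by rw [one_div, hδr]

end Pool.Agent.TH270.LC
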