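import Mathlib
import Pool.Agent.TH270.LC.Det
import Pool.Agent.TH270.LC.Expo
import Pool.Agent.TH270.LC.Meas
import Pool.Agent.TH270.LC.ProbBad
import Pool.Agent.TH270.LC.ProbPair
import Pool.Agent.TH270.LC.CritFam
import Pool.Agent.TH270.LC.Last

set_option autoImplicit false

open MeasureTheory Set Filter Topology
open scoped ENNReal

noncomputable section

namespace Pool.Agent.TH270.LC

variable {E : Type} [TopologicalSpace E] (F : Fam E)

theorem ext_le {ε : ℝ} (hε : 0 ≤ ε) {n : ℕ} {v : Fin n → ℂ} (hv : ∀ i, ‖v i‖ ≤ ε) (k : ℕ) :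
    ‖ext v k‖ ≤ ε := by
  rw [ext]
  split_ifs with h
  · exact hv _
  · simpa using hε

theorem nuPi_prob {ε : ℝ} (hε : 0 < ε) (n : ℕ) : IsProbabilityMeasure (nuPi ε n) := by
  have := nu_prob hε
  rw [nuPi]; infer_instance

theorem nuPi_ae {ε : ℝ} (hε : 0 < ε) (n : ℕ) : ∀ᵐ v ∂(nuPi ε n), ∀ i, ‖v i‖ ≤ ε := by
  have := nu_prob hε
  rw [ae_all_iff]
  intro i
  rw [nuPi]
  exact (measurePreserving_eval (fun _ : Fin n => nu ε) i).quasiMeasurePreserving.ae
    (nu_ae (ε := ε))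

theorem ext_snoc {n : ℕ} (v : Fin n → ℂ) (a : ℂ) {k : ℕ} (hk : k < n) :
    ext (Fin.snoc (α := fun _ => ℂ) v a) k = ext v k := by
  rw [ext, ext, dif_pos hk, dif_pos (by omega)]
  have : (⟨k, by omega⟩ : Fin (n + 1)) = Fin.castSucc ⟨k, hk⟩ := rfl
  rw [this, Fin.snoc_castSucc]

theorem ext_snoc_last {n : ℕ} (v : Fin n → ℂ) (a : ℂ) :
    ext (Fin.snoc (α := fun _ => ℂ) v a) n = a := by
  rw [ext, dif_pos (by omega)]
  have : (⟨n, by omega⟩ : Fin (n + 1)) = Fin.last n := rfl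
  rw [this, Fin.snoc_last]

/-- The bad set of the pairs (first `n` noises, last noise). -/
def BSet (w ρ₀ τ ρ : ℝ) (e : ℕ → E) (n : ℕ) (𝒢 : Finset ℂ) {M : ℕ} (y : Fin M → (ℕ → ℂ) → ℂ) :
    Set ((Fin n → ℂ) × ℂ) :=
  ⋃ g ∈ 𝒢, {p | BadEv F w ρ₀ τ e (ext p.1) g ρ n} ∩
    ((⋃ c, {p | ‖y c (ext p.1) + p.2 - g‖ ≤ ρ / 2}) ∪
     ⋃ g' ∈ 𝒢, {p | ‖pos F e (ext p.1) g' n‖ ≤ F.R + 1 ∧
       ‖F.f (e n) (pos F e (ext p.1) g' n) + p.2 - g‖ ≤ ρ / 2})

theorem BSet_meas (w ρ₀ τ ρ : ℝ) (e : ℕ → E) (n : ℕ) (𝒢 : Finset ℂ) {M : ℕ}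
    (y : Fin M → (ℕ → ℂ) → ℂ) (hy : ∀ c, Continuous fun u : Fin n → ℂ => y c (ext u)) :
    MeasurableSet (BSet F w ρ₀ τ ρ e n 𝒢 y) := by
  refine Finset.measurableSet_biUnion _ fun g _ => ?_
  refine ((badEv_meas F w ρ₀ τ ρ e g n).preimage measurable_fst).inter ?_
  refine (MeasurableSet.iUnion fun c => ?_).union
    (Finset.measurableSet_biUnion _ fun g' _ => ?_)
  · have : Continuous fun p : (Fin n → ℂ) × ℂ => y c (ext p.1) + p.2 - g :=
      (((hy c).comp continuous_fst).add continuous_snd).sub continuous_const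
    exact (isClosed_le this.norm continuous_const).measurableSet
  · have h1 : Continuous fun p : (Fin n → ℂ) × ℂ => pos F e (ext p.1) g' n :=
      (meas_pos F e g' n n).comp continuous_fst
    have h2 : Continuous fun p : (Fin n → ℂ) × ℂ =>
        F.f (e n) (pos F e (ext p.1) g' n) + p.2 - g :=
      (((F.df (e n)).continuous.comp h1).add continuous_snd).sub continuous_const
    exact ((isClosed_le h1.norm continuous_const).inter
      (isClosed_le h2.norm continuous_const)).measurableSet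

/-- The measure of the bad last noises. -/
theorem section_bound {w Λ₂ ρ₀ ρ₁ τ η ρ : ℝ}
    (hΛ₂ : ∀ a z, ‖z‖ ≤ F.R + 2 → ‖deriv (F.f a) z‖ ≤ Λ₂)
    (hρ : 0 < ρ) (hη : 0 < η) (_hη1 : η ≤ 1) (hτη : Λ₂ * η ≤ ρ / 2)
    (e : ℕ → E) (n J : ℕ)
    (S : Finset ℂ) (hS : Metric.closedBall (0 : ℂ) (F.R + 1) ⊆ ⋃ c ∈ S, Metric.closedBall c (ρ₁ / 2))
    (hJ : J * (S.card + 1) ^ 2 ≤ n)
    (𝒢 : Finset ℂ) {M : ℕ} (y : Fin M → (ℕ → ℂ) → ℂ)
    (v : Fin n → ℂ) (hv : ∀ i, ‖v i‖ ≤ F.eps)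
    (hpair : ∀ g ∈ 𝒢, ∀ g' ∈ 𝒢, ¬ PairEv F ρ₁ η J e (ext v) g g' n) :
    nu F.eps {a | (v, a) ∈ BSet F w ρ₀ τ ρ e n 𝒢 y} ≤
      ENNReal.ofReal (((M : ℝ) + S.card) * (ρ ^ 2 / F.eps ^ 2)) *
        ∑ g ∈ 𝒢, ({v | BadEv F w ρ₀ τ e (ext v) g ρ n} : Set (Fin n → ℂ)).indicator 1 v := by
  classical
  have hR := F.hR
  have hu : ∀ k, ‖ext v k‖ ≤ F.eps := ext_le F.heps.le hv
  set A : Finset {g // g ∈ 𝒢} := Finset.univ.filter fun g => ‖pos F e (ext v) g.1 n‖ ≤ F.R + 1
    with hA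
  obtain ⟨L, hLA, hLc, hL⟩ := clusters (I := {g // g ∈ 𝒢}) n J (fun i k => pos F e (ext v) i.1 k) A
    (R₀ := F.R + 1) (ρ₁ := ρ₁) (η := η) (by linarith) S hS
    (by
      intro i hi k hk
      exact alive_before F hu hk.le (Finset.mem_filter.1 hi).2)
    (by
      intro i hi j hj hcard
      by_contra hc
      push Not at hc
      refine hpair i.1 i.2 j.1 j.2 ⟨fun k hk => ?_, fun k hk => ?_, (Finset.mem_filter.1 hi).2,
        (Finset.mem_filter.1 hj).2, hcard, hc⟩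
      · exact alive_before F hu hk.le (Finset.mem_filter.1 hi).2
      · exact alive_before F hu hk.le (Finset.mem_filter.1 hj).2)
    hJ hη.le
  set Bd : ℂ → Prop := fun g => BadEv F w ρ₀ τ e (ext v) g ρ n with hBd
  have hsub : {a | (v, a) ∈ BSet F w ρ₀ τ ρ e n 𝒢 y} ⊆ ⋃ g ∈ 𝒢.filter Bd,
      ((⋃ c ∈ (Finset.univ : Finset (Fin M)), Metric.closedBall (g - y c (ext v)) ρ) ∪
        ⋃ l ∈ L, Metric.closedBall (g - F.f (e n) (pos F e (ext v) l.1 n)) ρ) := by
    intro a ha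
    simp only [mem_ofPred_eq, BSet, mem_iUnion, mem_inter_iff, mem_union, exists_prop] at ha
    obtain ⟨g, hg, hb, h⟩ := ha
    simp only [mem_iUnion, mem_union, exists_prop, Finset.mem_filter]
    refine ⟨g, ⟨hg, hb⟩, ?_⟩
    rcases h with ⟨c, hc⟩ | ⟨g', hg', hal, hc⟩
    · left
      refine ⟨c, Finset.mem_univ _, ?_⟩
      rw [Metric.mem_closedBall, dist_eq_norm]
      calc ‖a - (g - y c (ext v))‖ = ‖y c (ext v) + a - g‖ := by ring_nf
        _ ≤ ρ / 2 := hc
        _ ≤ ρ := by linarith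
    · right
      have hgA : (⟨g', hg'⟩ : {g // g ∈ 𝒢}) ∈ A := by
        rw [hA, Finset.mem_filter]; exact ⟨Finset.mem_univ _, hal⟩
      obtain ⟨l, hl, hgl⟩ := hL _ hgA
      refine ⟨l, hl, ?_⟩
      have hlal : ‖pos F e (ext v) l.1 n‖ ≤ F.R + 1 := (Finset.mem_filter.1 (hLA hl)).2
      have hconv : Convex ℝ (Metric.closedBall (0 : ℂ) (F.R + 2)) := convex_closedBall _ _
      have h6 := hconv.norm_image_sub_le_of_norm_deriv_le (f := F.f (e n)) (C := Λ₂)
        (fun x _ => (F.df (e n)) x) (fun x hx => hΛ₂ (e n) x (by simpa using hx))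
        (x := pos F e (ext v) g' n) (y := pos F e (ext v) l.1 n)
        (by simpa using by linarith) (by simpa using by linarith)
      have hΛ0 : 0 ≤ Λ₂ := (norm_nonneg _).trans (hΛ₂ (e n) 0 (by simp; linarith))
      have h7 : ‖F.f (e n) (pos F e (ext v) l.1 n) - F.f (e n) (pos F e (ext v) g' n)‖ ≤ ρ / 2 := by
        refine h6.trans (le_trans (mul_le_mul_of_nonneg_left ?_ hΛ0) hτη)
        rw [norm_sub_rev]; exact hgl
      rw [Metric.mem_closedBall, dist_eq_norm]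
      calc ‖a - (g - F.f (e n) (pos F e (ext v) l.1 n))‖
          = ‖(F.f (e n) (pos F e (ext v) g' n) + a - g) +
            (F.f (e n) (pos F e (ext v) l.1 n) - F.f (e n) (pos F e (ext v) g' n))‖ := by ring_nf
        _ ≤ _ := norm_add_le _ _
        _ ≤ ρ := by linarith
  refine (measure_mono hsub).trans ((measure_biUnion_finset_le _ _).trans ?_)
  have hone : ∀ c : ℂ, nu F.eps (Metric.closedBall c ρ) ≤ ENNReal.ofReal (ρ ^ 2 / F.eps ^ 2) :=
    fun c => nu_ball F.heps c hρ.le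
  have hterm : ∀ g ∈ 𝒢.filter Bd, nu F.eps
      ((⋃ c ∈ (Finset.univ : Finset (Fin M)), Metric.closedBall (g - y c (ext v)) ρ) ∪
        ⋃ l ∈ L, Metric.closedBall (g - F.f (e n) (pos F e (ext v) l.1 n)) ρ) ≤
      ENNReal.ofReal (((M : ℝ) + S.card) * (ρ ^ 2 / F.eps ^ 2)) := by
    intro g _
    refine (measure_union_le _ _).trans ?_
    calc _ ≤ (M : ℝ≥0∞) * ENNReal.ofReal (ρ ^ 2 / F.eps ^ 2) +
          (L.card : ℝ≥0∞) * ENNReal.ofReal (ρ ^ 2 / F.eps ^ 2) := by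
          gcongr
          · refine (measure_biUnion_finset_le _ _).trans ((Finset.sum_le_sum fun c _ =>
              hone _).trans (le_of_eq ?_))
            rw [Finset.sum_const, Finset.card_univ, Fintype.card_fin, nsmul_eq_mul]
          · refine (measure_biUnion_finset_le _ _).trans ((Finset.sum_le_sum fun c _ =>
              hone _).trans (le_of_eq ?_))
            rw [Finset.sum_const, nsmul_eq_mul]
      _ ≤ (M : ℝ≥0∞) * ENNReal.ofReal (ρ ^ 2 / F.eps ^ 2) +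
          (S.card : ℝ≥0∞) * ENNReal.ofReal (ρ ^ 2 / F.eps ^ 2) := by
          gcongr
      _ = _ := by
          rw [← add_mul, ENNReal.ofReal_mul (by positivity), ENNReal.ofReal_add (by positivity)
            (by positivity), ENNReal.ofReal_natCast, ENNReal.ofReal_natCast]
  refine (Finset.sum_le_sum hterm).trans (le_of_eq ?_)
  rw [Finset.sum_const, nsmul_eq_mul, mul_comm]
  congr 1
  rw [Finset.card_filter]
  push_cast
  refine Finset.sum_congr rfl fun g _ => ?_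
  by_cases h : Bd g
  · rw [if_pos h, indicator_of_mem (show v ∈ {v | BadEv F w ρ₀ τ e (ext v) g ρ n} from h)]; rfl
  · rw [if_neg h, indicator_of_notMem (show v ∉ {v | BadEv F w ρ₀ τ e (ext v) g ρ n} from h)]

/-- The probability that the random composition is not hyperbolic with at most `S.card` sinks. -/
theorem final_prob {w Λ Λ₂ Cq ρ₀ ρ₁ τ η ρ : ℝ} {D : ℕ}
    (hD : ∀ a, ∃ S : Finset ℂ, S.card ≤ D ∧ ∀ z, deriv (F.f a) z = 0 → z ∈ S)
    (hw : 0 < w)
    (hΛ : ∀ a z, ‖z‖ ≤ F.R + 1 → ‖deriv (F.f a) z‖ ≤ Λ)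
    (hΛ₂ : ∀ a z, ‖z‖ ≤ F.R + 2 → ‖deriv (F.f a) z‖ ≤ Λ₂)
    (hq : ∀ a z h, ‖z‖ ≤ F.R + 1 → ‖h‖ ≤ 1 →
      ‖F.f a (z + h) - F.f a z - deriv (F.f a) z * h‖ ≤ Cq * ‖h‖ ^ 2)
    (hρ₀ : 0 < ρ₀) (h1 : Cq * ρ₀ ≤ w) (h2 : (Λ + w) * ρ₀ ≤ 1) (h3 : ρ₀ ≤ 1)
    (hρ : 0 < ρ) (hρ' : ρ ≤ ρ₀) (hτ : 0 < τ) (hη : 0 < η) (hτη : Λ₂ * (τ + η) ≤ ρ / 8)
    (hτη' : τ + η ≤ 1)
    (e : ℕ → E) (n J : ℕ)
    (S : Finset ℂ) (hS : Metric.closedBall (0 : ℂ) (F.R + 1) ⊆ ⋃ c ∈ S, Metric.closedBall c (ρ₁ / 2))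
    (hJ : J * (S.card + 1) ^ 2 ≤ n)
    (𝒢 : Finset ℂ)
    (h𝒢 : Metric.closedBall (0 : ℂ) (F.R + 1) ⊆ ⋃ c ∈ 𝒢, Metric.closedBall c (ρ / 2))
    {α β : ℝ} (hα : 0 ≤ α) (hβ : 0 ≤ β)
    (hP1 : ∀ x y, nuPi F.eps n {v | PairEv F ρ₁ η J e (ext v) x y n} ≤ ENNReal.ofReal α)
    (hP2 : ∀ x, nuPi F.eps n {v | BadEv F w ρ₀ τ e (ext v) x ρ n} ≤ ENNReal.ofReal β) :
    nuPi F.eps (n + 1) {v | ¬ HypK (fun z => pos F e (ext v) z (n + 1)) S.card} ≤
      ENNReal.ofReal ((𝒢.card : ℝ) ^ 2 * α +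
        (((n : ℝ) + 1) * D + S.card) * (ρ ^ 2 / F.eps ^ 2) * (𝒢.card * β)) := by
  classical
  have hprob := nuPi_prob F.heps n
  have hprob1 := nu_prob F.heps
  have hprob2 := nuPi_prob F.heps (n + 1)
  have hR := F.hR
  obtain ⟨M, y, hM, hyc, hy⟩ := crit_family F D hD n e
  set A : Set (Fin n → ℂ) := ⋃ g ∈ 𝒢, ⋃ g' ∈ 𝒢, {v | PairEv F ρ₁ η J e (ext v) g g' n} with hA
  have hAm : nuPi F.eps n A ≤ ENNReal.ofReal ((𝒢.card : ℝ) ^ 2 * α) := by
    refine (measure_biUnion_finset_le _ _).trans ?_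
    calc ∑ g ∈ 𝒢, nuPi F.eps n (⋃ g' ∈ 𝒢, {v | PairEv F ρ₁ η J e (ext v) g g' n})
        ≤ ∑ g ∈ 𝒢, ∑ g' ∈ 𝒢, ENNReal.ofReal α := Finset.sum_le_sum fun g _ =>
          (measure_biUnion_finset_le _ _).trans (Finset.sum_le_sum fun g' _ => hP1 _ _)
      _ = ENNReal.ofReal ((𝒢.card : ℝ) ^ 2 * α) := by
          rw [Finset.sum_const, Finset.sum_const, nsmul_eq_mul, nsmul_eq_mul,
            ENNReal.ofReal_mul (by positivity), ENNReal.ofReal_pow (by positivity),
            ENNReal.ofReal_natCast]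
          ring
  set A' := toMeasurable (nuPi F.eps n) A with hA'
  have hA'm : MeasurableSet A' := measurableSet_toMeasurable _ _
  set B := BSet F w ρ₀ τ ρ e n 𝒢 y with hB
  have hBm : MeasurableSet B := BSet_meas F w ρ₀ τ ρ e n 𝒢 y hyc
  -- the map which splits the last coordinate
  have hinit : Measurable fun v : Fin (n + 1) → ℂ => (fun i : Fin n => v (Fin.castSucc i)) :=
    measurable_pi_lambda _ fun i => measurable_pi_apply _
  have hlast : Measurable fun v : Fin (n + 1) → ℂ => v (Fin.last n) := measurable_pi_apply _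
  set T : Set (Fin (n + 1) → ℂ) := {v | (fun i : Fin n => v (Fin.castSucc i)) ∈ A' ∨
    ((fun i : Fin n => v (Fin.castSucc i)), v (Fin.last n)) ∈ B} with hT
  have hTm : MeasurableSet T := (hinit hA'm).union ((hinit.prodMk hlast) hBm)
  -- outside `T` the composition is hyperbolic
  have hsub : {v | ¬ HypK (fun z => pos F e (ext v) z (n + 1)) S.card} ≤ᵐ[nuPi F.eps (n + 1)] T := by
    filter_upwards [nuPi_ae F.heps (n + 1)] with v hv hbad
    by_contra hvT
    refine hbad ?_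
    set v' : Fin n → ℂ := fun i : Fin n => v (Fin.castSucc i) with hv'
    have hvs : v = Fin.snoc (α := fun _ => ℂ) v' (v (Fin.last n)) := by
      funext i
      refine Fin.lastCases ?_ (fun i => ?_) i
      · rw [Fin.snoc_last]
      · rw [Fin.snoc_castSucc]
    have hagree : ∀ k < n, ext v k = ext v' k := by
      intro k hk
      rw [hvs, ext_snoc _ _ hk]
    have hlast' : ext v n = v (Fin.last n) := by
      conv_lhs => rw [hvs]
      rw [ext_snoc_last]
    have hposk : ∀ x, ∀ k ≤ n, pos F e (ext v) x k = pos F e (ext v') x k := fun x k hk =>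
      pos_congr F e x k fun j hj => hagree j (by omega)
    have hvA : v' ∉ A := fun h => hvT (Or.inl (subset_toMeasurable _ _ h))
    have hvB : (v', v (Fin.last n)) ∉ B := fun h => hvT (Or.inr h)
    have hbadiff : ∀ g, BadEv F w ρ₀ τ e (ext v) g ρ n → BadEv F w ρ₀ τ e (ext v') g ρ n := by
      intro g hg
      have hrad : ∀ k ≤ n, rad F w e (ext v) g ρ k = rad F w e (ext v') g ρ k := by
        intro k hk
        rw [rad, rad]
        congr 1
        refine Finset.prod_congr rfl fun j hj => ?_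
        rw [hposk g j (by have := Finset.mem_range.1 hj; omega)]
      rcases hg with ⟨k, hk, h4, h5⟩ | ⟨h4, h5⟩
      · left
        exact ⟨k, hk, by rwa [← hposk g k hk], by rwa [← hrad k hk]⟩
      · right
        exact ⟨by rwa [← hposk g n le_rfl], by rwa [← hrad n le_rfl]⟩
    refine det F hw hΛ hΛ₂ hq hρ₀ h1 h2 h3 hρ hρ' hτ hη hτη hτη' e (ext v)
      (ext_le F.heps.le hv) n J S hS hJ 𝒢 h𝒢 ?_ (fun c => y c (ext v')) ?_ ?_ ?_
    · intro g hg g' hg' hP
      refine hvA ?_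
      rw [hA]
      simp only [mem_iUnion]
      refine ⟨g, hg, g', hg', ?_⟩
      obtain ⟨p1, p2, p3, p4, p5, p6⟩ := hP
      refine ⟨fun k hk => ?_, fun k hk => ?_, ?_, ?_, ?_, ?_⟩
      · rw [← hposk g k hk.le]; exact p1 k hk
      · rw [← hposk g' k hk.le]; exact p2 k hk
      · rw [← hposk g n le_rfl]; exact p3
      · rw [← hposk g' n le_rfl]; exact p4
      · refine p5.trans (le_of_eq ?_)
        congr 1
        refine Finset.filter_congr fun k hk => ?_
        have hk' := Finset.mem_range.1 hk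
        rw [hposk g k hk'.le, hposk g' k hk'.le]
      · rw [← hposk g n le_rfl, ← hposk g' n le_rfl]; exact p6
    · intro q hq'
      have h4 : (fun z => F.f (e n) (pos F e (ext v) z n)) =
          fun z => F.f (e n) (pos F e (ext v') z n) := by
        funext z; rw [hposk z n le_rfl]
      rw [h4] at hq'
      obtain ⟨c, hc⟩ := hy (ext v') q hq'
      exact ⟨c, by rw [hposk q n le_rfl]; exact hc⟩
    · intro c g hg hb
      by_contra hc
      push Not at hc
      refine hvB ?_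
      rw [hB, BSet]
      simp only [mem_iUnion, mem_inter_iff, mem_union, exists_prop]
      refine ⟨g, hg, hbadiff g hb, Or.inl ⟨c, ?_⟩⟩
      rw [hlast'] at hc
      exact hc
    · intro g' hg' hal g hg hb
      by_contra hc
      push Not at hc
      refine hvB ?_
      rw [hB, BSet]
      simp only [mem_iUnion, mem_inter_iff, mem_union, exists_prop]
      refine ⟨g, hg, hbadiff g hb, Or.inr ⟨g', hg', ?_, ?_⟩⟩
      · rw [← hposk g' n le_rfl]; exact hal
      · rw [hlast', hposk g' n le_rfl] at hc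
        exact hc
  refine (measure_mono_ae hsub).trans ?_
  rw [← lintegral_indicator_one hTm, lint_last F.heps n _ (measurable_one.indicator hTm)]
  set Q : ℝ≥0∞ := ENNReal.ofReal (((M : ℝ) + S.card) * (ρ ^ 2 / F.eps ^ 2)) with hQ
  have hptw : ∀ᵐ v ∂(nuPi F.eps n),
      ∫⁻ a, T.indicator 1 (Fin.snoc (α := fun _ => ℂ) v a) ∂(nu F.eps) ≤
      A'.indicator 1 v + Q * ∑ g ∈ 𝒢,
        ({v | BadEv F w ρ₀ τ e (ext v) g ρ n} : Set (Fin n → ℂ)).indicator 1 v := by
    filter_upwards [nuPi_ae F.heps n] with v hv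
    by_cases hvA : v ∈ A'
    · rw [indicator_of_mem hvA]
      refine le_trans ?_ le_self_add
      calc ∫⁻ a, T.indicator 1 (Fin.snoc (α := fun _ => ℂ) v a) ∂(nu F.eps)
          ≤ ∫⁻ _, 1 ∂(nu F.eps) := lintegral_mono fun a => by
            by_cases h : Fin.snoc (α := fun _ => ℂ) v a ∈ T
            · rw [indicator_of_mem h]; exact le_rfl
            · rw [indicator_of_notMem h]; exact bot_le
        _ = 1 := by simp
    · rw [indicator_of_notMem hvA, zero_add]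
      have hpair : ∀ g ∈ 𝒢, ∀ g' ∈ 𝒢, ¬ PairEv F ρ₁ η J e (ext v) g g' n := by
        intro g hg g' hg' hP
        refine hvA (subset_toMeasurable _ _ ?_)
        rw [hA]
        simp only [mem_iUnion]
        exact ⟨g, hg, g', hg', hP⟩
      have hΛ0 : 0 ≤ Λ₂ := by
        by_cases hE : Nonempty E
        · obtain ⟨a⟩ := hE
          exact (norm_nonneg _).trans (hΛ₂ a 0 (by simp; linarith))
        · exact absurd ⟨e 0⟩ hE
      have hsec := section_bound F (w := w) (ρ₀ := ρ₀) (τ := τ) hΛ₂ hρ hη (by linarith)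
        (by nlinarith) e n J S hS hJ 𝒢 y v hv hpair
      refine le_trans ?_ hsec
      have hBsec : MeasurableSet {a : ℂ | (v, a) ∈ B} := measurable_prodMk_left hBm
      rw [← lintegral_indicator_one hBsec]
      refine lintegral_mono fun a => ?_
      by_cases h : Fin.snoc (α := fun _ => ℂ) v a ∈ T
      · have h5 : a ∈ {a : ℂ | (v, a) ∈ B} := by
          rw [hT] at h
          simp only [mem_ofPred_eq, Fin.snoc_castSucc, Fin.snoc_last] at h
          rcases h with h | h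
          · exact absurd h hvA
          · exact h
        rw [indicator_of_mem h, indicator_of_mem h5]
        exact le_rfl
      · rw [indicator_of_notMem h]; exact bot_le
  refine (lintegral_mono_ae hptw).trans ?_
  rw [lintegral_add_left (measurable_one.indicator hA'm), lintegral_indicator_one hA'm,
    lintegral_const_mul, lintegral_finsetSum]
  rotate_left
  · exact fun g _ => measurable_one.indicator (badEv_meas F w ρ₀ τ ρ e g n)
  · exact Finset.measurable_sum _ fun g _ =>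
      measurable_one.indicator (badEv_meas F w ρ₀ τ ρ e g n)
  rw [measure_toMeasurable, ENNReal.ofReal_add (by positivity) (by positivity)]
  refine add_le_add hAm ?_
  rw [ENNReal.ofReal_mul (by positivity)]
  refine mul_le_mul' (ENNReal.ofReal_le_ofReal ?_) ?_
  · have : (M : ℝ) ≤ ((n : ℝ) + 1) * D := by exact_mod_cast hM
    gcongr
  · calc ∑ g ∈ 𝒢, ∫⁻ v, ({v | BadEv F w ρ₀ τ e (ext v) g ρ n} : Set (Fin n → ℂ)).indicator 1 v
          ∂(nuPi F.eps n) ≤ ∑ g ∈ 𝒢, ENNReal.ofReal β := by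
          refine Finset.sum_le_sum fun g _ => ?_
          rw [lintegral_indicator_one (badEv_meas F w ρ₀ τ ρ e g n)]
          exact hP2 g
      _ = ENNReal.ofReal (𝒢.card * β) := by
          rw [Finset.sum_const, nsmul_eq_mul, ENNReal.ofReal_mul (by positivity),
            ENNReal.ofReal_natCast]

end Pool.Agent.TH270.LC
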