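import Mathlib
import Pool.Agent.TH270.LC.Prob
import Pool.Agent.TH270.LC.GridQuad
import Pool.Agent.TH270.LC.Numeric

set_option autoImplicit false

open MeasureTheory Set Filter Topology
open scoped ENNReal

noncomputable section

namespace Pool.Agent.TH270.LC

variable {E : Type} [TopologicalSpace E] (F : Fam E)

/-- Except for an exponentially small probability, a random composition of the members of a compact
family is hyperbolic, with a bounded number of sinks. -/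
theorem main_fam [CompactSpace E] [FirstCountableTopology E] (D : ℕ)
    (hD : ∀ a, ∃ S : Finset ℂ, S.card ≤ D ∧ ∀ z, deriv (F.f a) z = 0 → z ∈ S) :
    ∃ (K : ℕ) (C κ : ℝ), 0 < C ∧ 0 < κ ∧ κ < 1 ∧ ∀ (n : ℕ) (e : ℕ → E),
      nuPi F.eps (n + 1) {v | ¬ HypK (fun z => pos F e (ext v) z (n + 1)) K} ≤
        ENNReal.ofReal (C * κ ^ n) := by
  obtain ⟨s, w, C, κ, hs, hs1, hw, hC, hκ, hκ1, hPsi⟩ := expo F
  obtain ⟨Λ, hΛ1, hΛ⟩ := deriv_bound F (F.R + 1)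
  obtain ⟨Λ₂, hΛ₂1, hΛ₂⟩ := deriv_bound F (F.R + 2)
  obtain ⟨Cq, hCq, hq⟩ := quad_bound F
  have hR := F.hR
  set ρ₀ : ℝ := min 1 (min (w / (Cq + 1)) (1 / (Λ + w))) with hρ₀def
  have hρ₀ : 0 < ρ₀ := by
    refine lt_min one_pos (lt_min ?_ ?_)
    · exact div_pos hw (by linarith)
    · exact div_pos one_pos (by linarith)
  have h3 : ρ₀ ≤ 1 := min_le_left _ _
  have h1 : Cq * ρ₀ ≤ w := by
    have h4 : ρ₀ ≤ w / (Cq + 1) := (min_le_right _ _).trans (min_le_left _ _)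
    rw [le_div_iff₀ (by linarith)] at h4
    nlinarith
  have h2 : (Λ + w) * ρ₀ ≤ 1 := by
    have h4 : ρ₀ ≤ 1 / (Λ + w) := (min_le_right _ _).trans (min_le_right _ _)
    rw [le_div_iff₀ (by linarith)] at h4
    linarith
  obtain ⟨κ₂, ρ₁, V, hκ₂, hκ₂1, hρ₁, hρ₁', V0, V1, V2, V3⟩ :=
    exists_V F hs hw hC hκ hκ1 hPsi hq hCq hρ₀ h1 h3
  obtain ⟨CI, hCI, hgrid⟩ := grid (F.R + 1) (by linarith)
  obtain ⟨S, -, hS⟩ := hgrid ρ₁ hρ₁ (hρ₁'.trans h3)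
  obtain ⟨C', κ', hC', hκ', hκ'1, hnum⟩ := numeric (CI := CI) (κ₂ := κ₂) (κ := κ) (s := s)
    (ρ₀ := ρ₀) (L := Λ₂) (ε := F.eps) (C := C) hCI hκ₂ hκ₂1 hκ hκ1 hs hs1 hρ₀ h3 hΛ₂1 F.heps hC
    S.card D
  refine ⟨S.card, C', κ', hC', hκ', hκ'1, fun n e => ?_⟩
  obtain ⟨ρ, J, hρ, hρ', hJ, hbound⟩ := hnum n
  obtain ⟨𝒢, h𝒢c, h𝒢⟩ := hgrid ρ hρ (hρ'.trans h3)
  set η : ℝ := ρ / (16 * Λ₂) with hη
  have hΛ₂0 : 0 < Λ₂ := by linarith
  have hη0 : 0 < η := by positivity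
  have hη1 : Λ₂ * η = ρ / 16 := by rw [hη]; field_simp
  have hηρ : η ≤ ρ / 16 := by nlinarith
  have hsum : Λ₂ * (η + η) ≤ ρ / 8 := by linarith
  set α : ℝ := κ₂ ^ J * (ρ₀ / η) ^ s with hα
  set β : ℝ := C / (1 - κ) * (ρ / ρ₀) ^ s + C * κ ^ n * (ρ / η) ^ s with hβ
  have hα0 : 0 ≤ α := by positivity
  have h1κ : 0 < 1 - κ := by linarith
  have hβ0 : 0 ≤ β := by positivity
  have hfin := final_prob F hD hw hΛ hΛ₂ hq hρ₀ h1 h2 h3 hρ hρ' hη0 hη0 hsum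
    (by linarith) e n J S hS hJ 𝒢 h𝒢 hα0 hβ0
    (fun x y => prob_pair F hs hκ₂ hκ₂1 hρ₀ V V0 V1 V2 V3 hη0 (by linarith) n J e x y)
    (fun x => prob_bad F hs hw.le hC.le hκ hκ1 hPsi
      (fun n k e x hk => lint_Psi F hs.le hw.le n k hk e x) hρ₀ hη0 hρ n e x)
  refine hfin.trans (ENNReal.ofReal_le_ofReal (le_trans ?_ hbound))
  have hcard : (0 : ℝ) ≤ 𝒢.card := by positivity
  have hsq : (𝒢.card : ℝ) ^ 2 ≤ (CI / ρ ^ 2) ^ 2 := pow_le_pow_left₀ hcard h𝒢c 2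
  gcongr

end Pool.Agent.TH270.LC
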