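import Mathlib
import Pool.Agent.TH270.LC.Defs

/-!
# Long compositions: the family of polynomials with bounded coefficients (job LC-J5, helper337)
-/

set_option autoImplicit false
open MeasureTheory Set Filter Topology
open scoped ENNReal
noncomputable section
namespace Pool.Agent.TH270.LC

theorem hasDerivAt_poly (d : ℕ) (a : Fin (d + 1) → ℂ) (z : ℂ) :
    HasDerivAt (fun z : ℂ => ∑ k, a k * z ^ (k : ℕ))
      (∑ k, a k * ((k : ℕ) * z ^ ((k : ℕ) - 1))) z :=
  HasDerivAt.fun_sum fun k _ => (hasDerivAt_pow (k : ℕ) z).const_mul (a k)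

theorem poly_escape (d : ℕ) (hd : 2 ≤ d) (A ε : ℝ) (hA : 1 ≤ A) (hε : 0 < ε)
    (a : Fin (d + 1) → ℂ) (ha : ∀ k, ‖a k‖ ≤ A) (hl : 1 / A ≤ ‖a (Fin.last d)‖) (z : ℂ)
    (hz : 1 + A * (A * d + 2 + ε) ≤ ‖z‖) :
    2 * ‖z‖ + ε ≤ ‖∑ k, a k * z ^ (k : ℕ)‖ := by
  have hA0 : 0 < A := by linarith
  have hd0 : (0 : ℝ) ≤ d := Nat.cast_nonneg d
  set t := ‖z‖ with ht
  have hpos : 0 ≤ A * (A * d + 2 + ε) := by positivity
  have ht1 : 1 ≤ t := by linarith
  have ht0 : 0 < t := by linarith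
  rw [Fin.sum_univ_castSucc]
  have h1 : ‖∑ k : Fin d, a k.castSucc * z ^ ((k.castSucc : Fin (d + 1)) : ℕ)‖ ≤
      d * (A * t ^ (d - 1)) := by
    refine (norm_sum_le _ _).trans ?_
    have : ∀ k ∈ (Finset.univ : Finset (Fin d)),
        ‖a k.castSucc * z ^ ((k.castSucc : Fin (d + 1)) : ℕ)‖ ≤ A * t ^ (d - 1) := by
      intro k _
      rw [norm_mul, norm_pow]
      refine mul_le_mul (ha _) ?_ (by positivity) hA0.le
      refine pow_le_pow_right₀ ht1 ?_
      have := k.2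
      simp only [Fin.val_castSucc]
      omega
    refine (Finset.sum_le_sum this).trans (le_of_eq ?_)
    simp
  have h2 : t ^ d / A ≤ ‖a (Fin.last d) * z ^ ((Fin.last d : Fin (d + 1)) : ℕ)‖ := by
    rw [norm_mul, norm_pow, Fin.val_last, ← ht]
    calc t ^ d / A = 1 / A * t ^ d := by ring
      _ ≤ _ := mul_le_mul_of_nonneg_right hl (by positivity)
  have h3 : t ^ d / A - d * (A * t ^ (d - 1)) ≤
      ‖(∑ k : Fin d, a k.castSucc * z ^ ((k.castSucc : Fin (d + 1)) : ℕ)) +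
        a (Fin.last d) * z ^ ((Fin.last d : Fin (d + 1)) : ℕ)‖ := by
    have := norm_sub_norm_le (a (Fin.last d) * z ^ ((Fin.last d : Fin (d + 1)) : ℕ))
      (-(∑ k : Fin d, a k.castSucc * z ^ ((k.castSucc : Fin (d + 1)) : ℕ)))
    rw [norm_neg, sub_neg_eq_add, add_comm (a (Fin.last d) * _)] at this
    linarith
  refine le_trans ?_ h3
  obtain ⟨m, rfl⟩ : ∃ m, d = m + 2 := ⟨d - 2, by omega⟩
  have e1 : m + 2 - 1 = m + 1 := by omega
  rw [e1]
  have h4 : A * ((m + 2 : ℕ) : ℝ) + 2 + ε ≤ t / A := by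
    rw [le_div_iff₀ hA0]
    nlinarith
  have h5 : t ^ (m + 2) / A - ((m + 2 : ℕ) : ℝ) * (A * t ^ (m + 1)) =
      t ^ (m + 1) * (t / A - A * ((m + 2 : ℕ) : ℝ)) := by
    rw [pow_succ t (m + 1)]
    ring
  rw [h5]
  have h6 : t ≤ t ^ (m + 1) := by
    calc t = t ^ 1 := (pow_one t).symm
      _ ≤ t ^ (m + 1) := pow_le_pow_right₀ ht1 (by omega)
  calc 2 * t + ε ≤ t * (2 + ε) := by nlinarith
    _ ≤ t ^ (m + 1) * (2 + ε) := mul_le_mul_of_nonneg_right h6 (by linarith)
    _ ≤ _ := mul_le_mul_of_nonneg_left (by linarith) (by positivity)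

theorem poly_fam (d : ℕ) (hd : 2 ≤ d) (A ε : ℝ) (hA : 1 ≤ A) (hε : 0 < ε) :
    ∃ F : Fam {a : Fin (d + 1) → ℂ // (∀ k, ‖a k‖ ≤ A) ∧ 1 / A ≤ ‖a (Fin.last d)‖},
      F.eps = ε ∧ ∀ a z, F.f a z = ∑ k, a.1 k * z ^ (k : ℕ) := by
  refine ⟨{
    f := fun a z => ∑ k, a.1 k * z ^ (k : ℕ)
    cf := ?_
    df := ?_
    cd := ?_
    eps := ε
    heps := hε
    R := 1 + A * (A * d + 2 + ε)
    hR := ?_
    esc := ?_ }, rfl, fun _ _ => rfl⟩
  · refine continuous_finsetSum _ fun k _ => ?_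
    exact (((continuous_apply k).comp continuous_subtype_val).comp continuous_fst).mul
      (continuous_snd.pow _)
  · intro a z
    exact (hasDerivAt_poly d a.1 z).differentiableAt
  · have e : (fun p : {a : Fin (d + 1) → ℂ // (∀ k, ‖a k‖ ≤ A) ∧ 1 / A ≤ ‖a (Fin.last d)‖} × ℂ =>
        deriv (fun z : ℂ => ∑ k, p.1.1 k * z ^ (k : ℕ)) p.2) =
        fun p => ∑ k : Fin (d + 1), p.1.1 k * (((k : ℕ) : ℂ) * p.2 ^ ((k : ℕ) - 1)) := by
      funext p
      exact (hasDerivAt_poly d p.1.1 p.2).deriv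
    rw [e]
    refine continuous_finsetSum _ fun k _ => ?_
    exact (((continuous_apply k).comp continuous_subtype_val).comp continuous_fst).mul
      (continuous_const.mul (continuous_snd.pow _))
  · have hd0 : (0 : ℝ) ≤ d := Nat.cast_nonneg d
    have : 0 ≤ A * (A * d + 2 + ε) := by positivity
    linarith
  · intro a z hz
    exact poly_escape d hd A ε hA hε a.1 a.2.1 a.2.2 z hz

theorem poly_compact (d : ℕ) (A : ℝ) :
    CompactSpace {a : Fin (d + 1) → ℂ // (∀ k, ‖a k‖ ≤ A) ∧ 1 / A ≤ ‖a (Fin.last d)‖} := by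
  have h : IsCompact {a : Fin (d + 1) → ℂ | (∀ k, ‖a k‖ ≤ A) ∧ 1 / A ≤ ‖a (Fin.last d)‖} := by
    refine Metric.isCompact_of_isClosed_isBounded ?_ ?_
    · refine IsClosed.inter ?_ ?_
      · have : {a : Fin (d + 1) → ℂ | ∀ k, ‖a k‖ ≤ A} = ⋂ k, {a | ‖a k‖ ≤ A} := by
          ext a; simp
        change IsClosed {a : Fin (d + 1) → ℂ | ∀ k, ‖a k‖ ≤ A}
        rw [this]
        exact isClosed_iInter fun k => isClosed_le (continuous_apply k).norm continuous_const
      · exact isClosed_le continuous_const (continuous_apply _).norm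
    · refine Metric.isBounded_closedBall (x := (0 : Fin (d + 1) → ℂ)) (r := |A|) |>.subset ?_
      rintro a ⟨ha, -⟩
      rw [mem_closedBall_zero_iff, pi_norm_le_iff_of_nonneg (abs_nonneg A)]
      exact fun k => (ha k).trans (le_abs_self A)
  exact isCompact_iff_compactSpace.1 h

theorem poly_crit (d : ℕ) (hd : 1 ≤ d) (a : Fin (d + 1) → ℂ) (ha : a (Fin.last d) ≠ 0) :
    ∃ S : Finset ℂ, S.card ≤ d - 1 ∧
      ∀ z, deriv (fun z : ℂ => ∑ k, a k * z ^ (k : ℕ)) z = 0 → z ∈ S := by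
  classical
  set p : Polynomial ℂ := ∑ k : Fin (d + 1), Polynomial.C (a k) * Polynomial.X ^ (k : ℕ) with hp
  have hev : (fun z : ℂ => ∑ k, a k * z ^ (k : ℕ)) = fun z => p.eval z := by
    funext z
    simp [hp, Polynomial.eval_finsetSum]
  have hdeg : p.natDegree ≤ d := by
    refine Polynomial.natDegree_sum_le_of_forall_le _ _ fun k _ => ?_
    refine (Polynomial.natDegree_C_mul_X_pow_le _ _).trans ?_
    have := k.2
    omega
  have hco : p.coeff d = a (Fin.last d) := by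
    rw [hp, Polynomial.finsetSum_coeff, Finset.sum_eq_single (Fin.last d)]
    · simp
    · intro k _ hk
      rw [Polynomial.coeff_C_mul, Polynomial.coeff_X_pow, if_neg, mul_zero]
      intro h
      apply hk
      apply Fin.ext
      rw [Fin.val_last]
      exact h.symm
    · intro h; exact absurd (Finset.mem_univ _) h
  have hd1 : (Polynomial.derivative p).coeff (d - 1) ≠ 0 := by
    rw [Polynomial.coeff_derivative]
    have e : d - 1 + 1 = d := by omega
    rw [e, hco]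
    refine mul_ne_zero ha ?_
    have : ((d - 1 : ℕ) : ℂ) + 1 = (d : ℂ) := by
      have h2 : ((d - 1 + 1 : ℕ) : ℂ) = (d : ℂ) := by rw [e]
      push_cast at h2
      exact h2
    rw [this]
    exact_mod_cast (by omega : d ≠ 0)
  have hne : Polynomial.derivative p ≠ 0 := fun h => hd1 (by rw [h]; simp)
  refine ⟨(Polynomial.derivative p).roots.toFinset, ?_, ?_⟩
  · refine (Multiset.toFinset_card_le _).trans ((Polynomial.card_roots' _).trans ?_)
    exact (Polynomial.natDegree_derivative_le p).trans (by omega)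
  · intro z hz
    rw [hev, Polynomial.deriv] at hz
    rw [Multiset.mem_toFinset, Polynomial.mem_roots hne]
    exact hz

end Pool.Agent.TH270.LC
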