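import Mathlib
import Pool.Agent.TH270.LC.Defs
import Pool.Agent.TH270.LC.Mom
import Pool.Agent.TH270.LC.Defs2

set_option autoImplicit false

open MeasureTheory Set Filter Topology
open scoped ENNReal

noncomputable section

namespace Pool.Agent.TH270.LC

namespace NuPi

theorem inv_prod {ι : Type} (s : Finset ι) (f : ι → ℝ≥0∞) (h0 : ∀ i, f i ≠ 0) (ht : ∀ i, f i ≠ ∞) :
    (∏ i ∈ s, f i)⁻¹ = ∏ i ∈ s, (f i)⁻¹ := by
  classical
  induction s using Finset.induction_on with
  | empty => simp
  | insert a s ha ih =>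
    rw [Finset.prod_insert ha, Finset.prod_insert ha, ENNReal.mul_inv (Or.inl (h0 a)) (Or.inl (ht a)),
      ih]

end NuPi

theorem nuPi_eq {ε : ℝ} (hε : 0 < ε) (m : ℕ) :
    nuPi ε m = (volume (Set.pi univ fun _ : Fin m => Metric.closedBall (0 : ℂ) ε))⁻¹ •
      (volume : Measure (Fin m → ℂ)).restrict
        (Set.pi univ fun _ : Fin m => Metric.closedBall (0 : ℂ) ε) := by
  have hp : IsProbabilityMeasure (nu ε) := nu_prob hε
  unfold nuPi
  refine Measure.pi_eq fun t ht => ?_
  rw [Measure.smul_apply, smul_eq_mul, Measure.restrict_apply (MeasurableSet.univ_pi ht),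
    ← Set.pi_inter_distrib, volume_pi_pi, volume_pi_pi,
    NuPi.inv_prod _ _ (fun _ => vol_ball_pos hε) (fun _ => vol_ball_top), ← Finset.prod_mul_distrib]
  refine Finset.prod_congr rfl fun i _ => ?_
  rw [nu, Measure.smul_apply, smul_eq_mul, Measure.restrict_apply (ht i)]

end Pool.Agent.TH270.LC
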