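import Mathlib
import Pool.Agent.TH270.LC.Defs
import Pool.Agent.TH270.LC.Mom
import Pool.Agent.TH270.LC.NuPi

/-!
# Long compositions: sequences of independent translations
-/

set_option autoImplicit false

open MeasureTheory Set Filter Topology
open scoped ENNReal

noncomputable section

namespace Pool.Agent.TH270.LC

/-- The law of an infinite sequence of independent uniform translations. -/
def nuSeq (ε : ℝ) : Measure (ℕ → ℂ) := Measure.infinitePi fun _ : ℕ => nu ε

theorem nuSeq_prob {ε : ℝ} (hε : 0 < ε) : IsProbabilityMeasure (nuSeq ε) := by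
  have := nu_prob hε
  unfold nuSeq
  infer_instance

theorem nuSeq_map {ε : ℝ} (hε : 0 < ε) (m : ℕ) :
    (nuSeq ε).map (fun (s : ℕ → ℂ) (i : Fin m) => s i) = nuPi ε m := by
  have := nu_prob hε
  unfold nuPi
  symm
  refine Measure.pi_eq fun t ht => ?_
  have hmeas : Measurable (fun (s : ℕ → ℂ) (i : Fin m) => s i) :=
    measurable_pi_lambda _ fun i => measurable_pi_apply _
  rw [Measure.map_apply hmeas (MeasurableSet.univ_pi ht)]
  have h1 : (fun (s : ℕ → ℂ) (i : Fin m) => s i) ⁻¹' (Set.univ.pi t) =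
      Set.pi (Finset.range m) (fun j => if h : j < m then t ⟨j, h⟩ else Set.univ) := by
    ext s
    constructor
    · intro h j hj
      have hj' : j < m := by simpa using hj
      change s j ∈ if h : j < m then t ⟨j, h⟩ else Set.univ
      rw [dif_pos hj']
      exact h ⟨j, hj'⟩ (Set.mem_univ _)
    · intro h i _
      have h2 : s i ∈ if h : (i : ℕ) < m then t ⟨i, h⟩ else Set.univ := h i (by simp)
      rw [dif_pos i.2] at h2
      exact h2
  rw [h1]
  unfold nuSeq
  rw [Measure.infinitePi_pi]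
  · rw [Finset.prod_range]
    refine Finset.prod_congr rfl fun i _ => ?_
    rw [dif_pos i.2]
  · intro j hj
    have hj' : j < m := by simpa using hj
    simp only [dif_pos hj']
    exact ht _

/-- Sets of finite sequences, as events for the infinite sequence. -/
theorem nuSeq_le {ε : ℝ} (hε : 0 < ε) (m : ℕ) (S : Set (Fin m → ℂ)) :
    nuSeq ε {s | (fun i : Fin m => s i) ∈ S} ≤ nuPi ε m S := by
  have hmeas : Measurable (fun (s : ℕ → ℂ) (i : Fin m) => s i) :=
    measurable_pi_lambda _ fun i => measurable_pi_apply _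
  calc nuSeq ε {s | (fun i : Fin m => s i) ∈ S}
      ≤ nuSeq ε ((fun (s : ℕ → ℂ) (i : Fin m) => s i) ⁻¹' toMeasurable (nuPi ε m) S) :=
        measure_mono fun s hs => subset_toMeasurable _ _ hs
    _ = nuPi ε m (toMeasurable (nuPi ε m) S) := by
        rw [← Measure.map_apply hmeas (measurableSet_toMeasurable _ _), nuSeq_map hε]
    _ = nuPi ε m S := measure_toMeasurable _

theorem nuSeq_ae {ε : ℝ} (hε : 0 < ε) : ∀ᵐ s ∂(nuSeq ε), ∀ i, ‖s i‖ ≤ ε := by
  rw [ae_all_iff]
  intro i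
  have := nu_prob hε
  have h1 : (nuSeq ε) {s : ℕ → ℂ | ¬ ‖s i‖ ≤ ε} = 0 := by
    have h2 : {s : ℕ → ℂ | ¬ ‖s i‖ ≤ ε} =
        Set.pi ({i} : Finset ℕ) (fun _ => (Metric.closedBall (0 : ℂ) ε)ᶜ) := by
      ext s
      simp
    rw [h2]
    unfold nuSeq
    rw [Measure.infinitePi_pi]
    · rw [Finset.prod_singleton]
      unfold nu
      rw [Measure.smul_apply, Measure.restrict_apply Metric.isClosed_closedBall.measurableSet.compl]
      simp
    · intro j _
      exact Metric.isClosed_closedBall.measurableSet.compl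
  exact h1

/-- Almost surely only finitely many of events of exponentially small probability occur. -/
theorem nuSeq_bc {ε : ℝ} (hε : 0 < ε) {C κ : ℝ} (hκ : 0 < κ) (hκ1 : κ < 1)
    (S : (m : ℕ) → Set (Fin m → ℂ)) (hS : ∀ m, nuPi ε m (S m) ≤ ENNReal.ofReal (C * κ ^ m)) :
    ∀ᵐ s ∂(nuSeq ε), ∀ᶠ m in atTop, (fun i : Fin m => s i) ∉ S m := by
  refine ae_eventually_notMem (μ := nuSeq ε) (s := fun m => {s | (fun i : Fin m => s i) ∈ S m}) ?_
  have h1 : ∀ m, nuSeq ε {s | (fun i : Fin m => s i) ∈ S m} ≤ ENNReal.ofReal (C * κ ^ m) :=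
    fun m => (nuSeq_le hε m _).trans (hS m)
  have h2 : ∑' m, ENNReal.ofReal (C * κ ^ m) ≠ ⊤ :=
    ((summable_geometric_of_lt_one hκ.le hκ1).mul_left C).tsum_ofReal_ne_top
  exact ne_top_of_le_ne_top h2 (ENNReal.tsum_le_tsum h1)

/-- There is `M`, depending only on `C` and `κ`, and a sequence avoiding all the events after
time `M`. -/
theorem nuSeq_exists {ε : ℝ} (hε : 0 < ε) {C κ : ℝ} (hC : 0 < C) (hκ : 0 < κ) (hκ1 : κ < 1) :
    ∃ M : ℕ, ∀ S : (m : ℕ) → Set (Fin m → ℂ),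
      (∀ m, nuPi ε m (S m) ≤ ENNReal.ofReal (C * κ ^ m)) →
      ∃ s : ℕ → ℂ, (∀ i, ‖s i‖ ≤ ε) ∧ ∀ m, M ≤ m → (fun i : Fin m => s i) ∉ S m := by
  have hprob := nuSeq_prob hε
  obtain ⟨M, hM⟩ : ∃ M : ℕ, C * κ ^ M / (1 - κ) < 1 := by
    have h1 : Tendsto (fun M : ℕ => C * κ ^ M / (1 - κ)) atTop (𝓝 (C * 0 / (1 - κ))) :=
      ((tendsto_pow_atTop_nhds_zero_of_lt_one hκ.le hκ1).const_mul C).div_const _
    rw [mul_zero, zero_div] at h1
    exact (h1.eventually (gt_mem_nhds one_pos)).exists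
  refine ⟨M, fun S hS => ?_⟩
  have hsum : ∑' k : ℕ, ENNReal.ofReal (C * κ ^ (M + k)) = ENNReal.ofReal (C * κ ^ M / (1 - κ)) := by
    have h1 : ∀ k : ℕ, C * κ ^ (M + k) = C * κ ^ M * κ ^ k := fun k => by rw [pow_add]; ring
    simp_rw [h1]
    rw [← ENNReal.ofReal_tsum_of_nonneg (fun k => by positivity)
      ((summable_geometric_of_lt_one hκ.le hκ1).mul_left _), tsum_mul_left,
      tsum_geometric_of_lt_one hκ.le hκ1, div_eq_mul_inv]
  have hU : nuSeq ε (⋃ k : ℕ, {s | (fun i : Fin (M + k) => s i) ∈ S (M + k)}) < 1 := by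
    refine (measure_iUnion_le _).trans_lt ?_
    refine (ENNReal.tsum_le_tsum fun k => (nuSeq_le hε (M + k) _).trans (hS (M + k))).trans_lt ?_
    rw [hsum]
    rw [← ENNReal.ofReal_one]
    exact ENNReal.ofReal_lt_ofReal_iff_of_nonneg (by
      have : 0 < 1 - κ := by linarith
      positivity) |>.2 hM
  have hae := nuSeq_ae hε
  by_contra hcon
  push Not at hcon
  have hcov : ∀ᵐ s ∂(nuSeq ε),
      s ∈ ⋃ k : ℕ, {s : ℕ → ℂ | (fun i : Fin (M + k) => s i) ∈ S (M + k)} := by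
    filter_upwards [hae] with s hs
    obtain ⟨m, hm, hmS⟩ := hcon s hs
    obtain ⟨k, rfl⟩ := Nat.exists_eq_add_of_le hm
    exact mem_iUnion.2 ⟨k, hmS⟩
  have h1 : nuSeq ε (⋃ k : ℕ, {s : ℕ → ℂ | (fun i : Fin (M + k) => s i) ∈ S (M + k)}) = 1 := by
    refine le_antisymm prob_le_one ?_
    calc (1 : ℝ≥0∞) = nuSeq ε univ := measure_univ.symm
      _ ≤ _ := measure_mono_ae (by filter_upwards [hcov] with s hs _ using hs)
  exact absurd h1 hU.ne

end Pool.Agent.TH270.LC
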